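import Pool.Agent.Lib.MP_6b6c7c_lc.Lists

/-! # Arithmetic on unary numbers, tower indices, parsing -/

namespace Pool.Agent.Lib.MP_6b6c7c_lc

open Polynomial

variable {α β γ δ ι σ : Type}

namespace Poly

variable [Enc α] [Enc β] [Enc γ] [Enc δ] [Enc ι] [Enc σ]

theorem halves (n : ℕ) : (fun s : Bool × ℕ => (!s.1, bif s.1 then s.2 + 1 else s.2))^[n]
    (false, 0) = (decide (n % 2 = 1), n / 2) := by
  induction n with
  | zero => rfl
  | succ n ih =>
    rw [Function.iterate_succ_apply', ih]
    rcases Nat.mod_two_eq_zero_or_one n with h | h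
    · have h1 : (n + 1) % 2 = 1 := by omega
      have h2 : (n + 1) / 2 = n / 2 := by omega
      simp [h, h1, h2]
    · have h1 : (n + 1) % 2 = 0 := by omega
      have h2 : (n + 1) / 2 = n / 2 + 1 := by omega
      simp [h, h1, h2]

theorem sz_bool_le (b : Bool) : sz b ≤ 3 := by cases b <;> decide

theorem halvesP : Poly fun _ (n : ℕ) =>
    (fun s : Bool × ℕ => (!s.1, bif s.1 then s.2 + 1 else s.2))^[n] (false, 0) := by
  refine iterAdd (f := fun _ (_ : ℕ) (s : Bool × ℕ) => (!s.1, bif s.1 then s.2 + 1 else s.2))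
    ?_ (const _) id ⟨5, fun O i s => ?_⟩
  · apply_rules (maxDepth := 400) [Poly.id, Poly.fst, Poly.snd, Poly.not, Poly.condb, Poly.succ, Poly.pair]
  · obtain ⟨b, n⟩ := s
    have := sz_bool_le b
    have := sz_bool_le !b
    have := sz_pos b
    simp only [sz_pair, eval_ofNat]
    cases b <;> simp only [sz_nat, cond_true, cond_false] <;> omega

theorem half {f : Lang → ι → ℕ} (hf : Poly f) : Poly fun O i => f O i / 2 := by
  refine (snd (comp halvesP hf)).congr fun O i => ?_
  rw [halves]

theorem odd {f : Lang → ι → ℕ} (hf : Poly f) : Poly fun O i => decide (f O i % 2 = 1) := by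
  refine (fst (comp halvesP hf)).congr fun O i => ?_
  rw [halves]

theorem testBit {f g : Lang → ι → ℕ} (hf : Poly f) (hg : Poly g) :
    Poly fun O i => (f O i).testBit (g O i) := by
  have h := iterAdd (f := fun _ (_ : ι) (k : ℕ) => k / 2) (half snd') hf hg
    ⟨0, fun O i s => by simp only [sz_nat, eval_zero]; omega⟩
  refine (odd h).congr fun O i => ?_
  have key : ∀ n k : ℕ, (fun k : ℕ => k / 2)^[n] k = k / 2 ^ n := by
    intro n
    induction n with
    | zero => intro k; simp
    | succ n ih =>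
      intro k
      rw [Function.iterate_succ_apply, ih, Nat.div_div_eq_div_mul, pow_succ']
  rw [key, Nat.testBit_eq_decide_div_mod_eq]

end Poly

/-- Powers of two truncated at `N`. -/
def pwt (N e : ℕ) : ℕ := Nat.min (2 ^ e) N

theorem pwt_iter (N e : ℕ) : (fun s : ℕ => Nat.min (s + s) N)^[e] (Nat.min 1 N) = pwt N e := by
  induction e with
  | zero => simp [pwt]
  | succ e ih =>
    rw [Function.iterate_succ_apply', ih, pwt, pwt, pow_succ]
    show min (min (2 ^ e) N + min (2 ^ e) N) N = min (2 ^ e * 2) N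
    omega

theorem pwt_le (N e : ℕ) : pwt N e ≤ N := Nat.min_le_right _ _

theorem pwt_eq {N e : ℕ} (h : 2 ^ e ≤ N) : pwt N e = 2 ^ e := Nat.min_eq_left h

theorem Poly.pwt [Enc ι] {N e : Lang → ι → ℕ} (hN : Poly N) (he : Poly e) :
    Poly fun O i => MP_6b6c7c_lc.pwt (N O i) (e O i) := by
  have h : Poly fun _ (p : ℕ × ℕ) => (fun s : ℕ => Nat.min (s + s) p.1)^[p.2] (Nat.min 1 p.1) := by
    refine iterBd (f := fun _ (p : ℕ × ℕ) (s : ℕ) => Nat.min (s + s) p.1)
      (s := fun _ p => Nat.min 1 p.1) (n := fun _ p => p.2)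
      (Poly.min (add snd' snd') (fst fst')) (Poly.min (const 1) fst') snd'
      ⟨X, fun O i k _ => ?_⟩
    rw [pwt_iter, eval_X]
    obtain ⟨a, b⟩ := i
    have := pwt_le a k
    simp only [sz_pair, sz_nat]
    omega
  exact (comp h (pair hN he)).congr fun O i => (pwt_iter _ _).symm

/-! ## The tower -/

/-- Tower numbers. -/
def tow : ℕ → ℕ
  | 0 => 0
  | i + 1 => 2 ^ tow i

theorem tow_lt_succ (i : ℕ) : tow i < tow (i + 1) := Nat.lt_two_pow_self

theorem tow_strictMono : StrictMono tow := strictMono_nat_of_lt_succ tow_lt_succ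

theorem le_tow (i : ℕ) : i ≤ tow i := tow_strictMono.le_apply

def ixStep (s : ℕ × (ℕ × ℕ)) : ℕ × (ℕ × ℕ) :=
  bif decide (pwt (s.1 + 1 + 1) s.2.2 + pwt (s.1 + 1 + 1) s.2.2 = s.1 + 1)
  then (s.1 + 1, (s.2.1 + 1, pwt (s.1 + 1 + 1) s.2.2)) else (s.1 + 1, s.2)

/-- Index and tower number of a length. -/
def ix (m : ℕ) : ℕ × ℕ := (ixStep^[m] (0, (0, 0))).2

theorem ixStep_spec (m : ℕ) : ∃ i, ixStep^[m] (0, (0, 0)) = (m, (i, tow i)) ∧
    2 * tow i ≤ m ∧ m < 2 * tow (i + 1) := by
  induction m with
  | zero => exact ⟨0, rfl, by simp [tow], by simp [tow]⟩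
  | succ m ih =>
    obtain ⟨i, h1, h2, h3⟩ := ih
    have h4 : pwt (m + 1 + 1) (tow i) = min (tow (i + 1)) (m + 1 + 1) := rfl
    rw [Function.iterate_succ_apply', h1, ixStep]
    simp only [h4]
    by_cases h : 2 * tow (i + 1) = m + 1
    · have h5 : min (tow (i + 1)) (m + 1 + 1) = tow (i + 1) := by omega
      refine ⟨i + 1, ?_, by omega, ?_⟩
      · rw [h5]
        have : decide (tow (i + 1) + tow (i + 1) = m + 1) = true := by
          rw [decide_eq_true_iff]; omega
        rw [this]
        rfl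
      · have := tow_lt_succ (i + 1)
        omega
    · refine ⟨i, ?_, by omega, by omega⟩
      have : decide (min (tow (i + 1)) (m + 1 + 1) + min (tow (i + 1)) (m + 1 + 1) = m + 1)
          = false := by
        rw [decide_eq_false_iff_not]; omega
      rw [this]
      rfl

theorem ix_spec (m : ℕ) : (ix m).2 = tow (ix m).1 ∧ 2 * tow (ix m).1 ≤ m ∧
    m < 2 * tow ((ix m).1 + 1) := by
  obtain ⟨i, h1, h2, h3⟩ := ixStep_spec m
  rw [ix, h1]
  exact ⟨rfl, h2, h3⟩

theorem ix_eq {m i : ℕ} (h1 : 2 * tow i ≤ m) (h2 : m < 2 * tow (i + 1)) : ix m = (i, tow i) := by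
  obtain ⟨h3, h4, h5⟩ := ix_spec m
  have h6 : tow i < tow ((ix m).1 + 1) := by omega
  have h7 : tow (ix m).1 < tow (i + 1) := by omega
  rw [tow_strictMono.lt_iff_lt] at h6 h7
  have h8 : (ix m).1 = i := by omega
  ext
  · exact h8
  · rw [h3, h8]

theorem Poly.ix [Enc ι] {f : Lang → ι → ℕ} (hf : Poly f) :
    Poly fun O i => MP_6b6c7c_lc.ix (f O i) := by
  have h : Poly fun _ (m : ℕ) => ixStep^[m] (0, (0, 0)) := by
    refine iterBd (f := fun _ (_ : ℕ) s => ixStep s) ?_ (const _) id ⟨3 * X + 2, fun O i k hk => ?_⟩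
    · unfold ixStep
      apply_rules (maxDepth := 400) [Poly.id, Poly.fst, Poly.snd, Poly.pwt, Poly.eq, Poly.condb, Poly.succ, Poly.add,
        Poly.pair]
    · obtain ⟨j, h1, h2, -⟩ := ixStep_spec k
      have h3 := le_tow j
      have e : (fun s => ixStep s)^[k] (0, (0, 0)) = ixStep^[k] (0, (0, 0)) := rfl
      rw [e, h1]
      simp only [sz_pair, sz_nat, eval_add, eval_mul, eval_ofNat, eval_X]
      omega
  exact (snd (comp h hf)).congr fun O i => rfl

/-! ## Parsing -/

def pstep (b : Bool) (s : D) : D :=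
  bif b then D.cons (D.cons s.hd s.tl.hd) s.tl.tl else D.cons D.nil s

/-- The first tree coded by a word. -/
def parse (w : Word) : D := (w.foldr pstep D.nil).hd

theorem foldr_pstep (t : D) : ∀ (w : Word) (s : D),
    (t.code ++ w).foldr pstep s = D.cons t (w.foldr pstep s) := by
  induction t with
  | nil => intro w s; rfl
  | cons a b iha ihb =>
    intro w s
    rw [code_cons, List.cons_append, List.append_assoc, List.foldr_cons, iha, ihb]
    rfl

theorem parse_code (t : D) (w : Word) : parse (t.code ++ w) = t := by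
  rw [parse, foldr_pstep]
  rfl

theorem Poly.parse [Enc ι] {f : Lang → ι → Word} (hf : Poly f) :
    Poly fun O i => MP_6b6c7c_lc.parse (f O i) := by
  have h := foldlAdd (f := fun _ (p : ι × (D × Bool)) => pstep p.2.2 p.2.1)
    (s := fun _ (_ : ι) => D.nil) (by
      unfold pstep
      apply_rules (maxDepth := 400) [Poly.dcons, Poly.dhd, Poly.dtl, Poly.condb, Poly.const, Poly.fst, Poly.snd,
        Poly.id])
    (const _) (reverse hf) ⟨4, fun O i s a => ?_⟩
  · refine (dhd h).congr fun O i => ?_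
    rw [List.foldl_reverse, MP_6b6c7c_lc.parse]
  · show (pstep a s).size ≤ s.size + _
    rw [eval_ofNat]
    cases a with
    | false => simp only [pstep, cond_false, D.size_cons, D.size_nil]; omega
    | true =>
      rcases s with _ | ⟨a, _ | ⟨b, s⟩⟩ <;>
        simp only [pstep, cond_true, D.size_cons, D.size_nil, D.hd, D.tl] <;> omega

/-- The word of binary digits of `i` (padded to length `i`). -/
def ibits (i : ℕ) : Word := (List.range i).map fun j => i.testBit j

theorem exists_ibits (t : D) (L : ℕ) : ∃ i, L ≤ i ∧ parse (ibits i) = t := by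
  obtain ⟨K, hK⟩ : ∃ K, K = t.code.length + L := ⟨_, rfl⟩
  let f : Fin (K + 1) → Bool := fun j => if (j : ℕ) = K then true else t.code.getD j false
  refine ⟨Nat.ofBits f, ?_, ?_⟩
  · have h1 : (Nat.ofBits f).testBit K = true := by
      rw [Nat.testBit_ofBits_lt f K (by omega)]
      simp [f]
    have h2 := Nat.ge_two_pow_of_testBit h1
    have h3 := Nat.lt_two_pow_self (n := K)
    omega
  · have h1 : (Nat.ofBits f).testBit K = true := by
      rw [Nat.testBit_ofBits_lt f K (by omega)]
      simp [f]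
    have h2 := Nat.ge_two_pow_of_testBit h1
    have h3 := Nat.lt_two_pow_self (n := K)
    have h4 : ibits (Nat.ofBits f) = t.code ++ (ibits (Nat.ofBits f)).drop t.code.length := by
      conv_lhs => rw [← List.take_append_drop t.code.length (ibits (Nat.ofBits f))]
      congr 1
      apply List.ext_getElem
      · rw [List.length_take, ibits, List.length_map, List.length_range]
        omega
      · intro j h5 h6
        rw [List.getElem_take]
        simp only [ibits, List.getElem_map, List.getElem_range]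
        rw [Nat.testBit_ofBits_lt f j (by omega)]
        have : j ≠ K := by omega
        simp [f, this, h6]
    rw [h4, parse_code]

theorem Poly.ibits [Enc ι] {f : Lang → ι → ℕ} (hf : Poly f) :
    Poly fun O i => MP_6b6c7c_lc.ibits (f O i) := by
  have h : Poly fun _ (n : ℕ) => MP_6b6c7c_lc.ibits n := by
    unfold MP_6b6c7c_lc.ibits
    apply_rules (maxDepth := 400) [Poly.map, Poly.range, Poly.testBit, Poly.fst, Poly.snd, Poly.id]
  exact comp h hf

end Pool.Agent.Lib.MP_6b6c7c_lc
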