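import Pool.Agent.Lib.MP_6b6c7c_lc.Forth

/-! # Polynomial-time functionals on trees: closure properties -/

namespace Pool.Agent.Lib.MP_6b6c7c_lc

open Polynomial

theorem eval_mono (p : ℕ[X]) {a b : ℕ} (h : a ≤ b) : p.eval a ≤ p.eval b := by
  rw [Polynomial.eval_eq_sum_range, Polynomial.eval_eq_sum_range]
  exact Finset.sum_le_sum fun i _ => Nat.mul_le_mul_left _ (Nat.pow_le_pow_left h i)

/-- Program `p` computes the functional `F` on the main stack in time `T` of the input size. -/
def Comp (p : Prog) (F : Lang → D → D) (T : ℕ → ℕ) : Prop :=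
  ∀ (O : Lang) (t : D) (m r : Word),
    Runs O p (mk (t.code ++ m) r) (T t.size) (mk ((F O t).code ++ m) r)

/-- Polynomial-time functionals on trees. -/
def PT (F : Lang → D → D) : Prop :=
  ∃ (p : Prog) (T : ℕ[X]), Comp p F (fun n => T.eval n) ∧ ∀ O t, (F O t).size ≤ T.eval t.size

theorem code_nil : D.nil.code = [false] := rfl

theorem code_cons (a b : D) : (D.cons a b).code = true :: (a.code ++ b.code) := rfl

theorem mk_m (m r : Word) : (mk m r).get .m = m := rfl

theorem set_mk (m m' r : Word) : (mk m r).set .m m' = mk m' r := rfl

theorem nop_runs {O : Lang} (m r : Word) : Runs O (.pop .a) (mk m r) 1 (mk m r) :=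
  (Runs.pop .a).congr rfl

namespace PT

theorem id : PT fun _ t => t :=
  ⟨.pop .a, X + 1, fun O t m r => (nop_runs _ _).mono (by simp), fun O t => by simp⟩

theorem const (c : D) : PT fun _ _ => c := by
  refine ⟨.seq drop (pushW c.code), 16 * X + C (2 * c.size + 7), fun O t m r => ?_, fun O t => ?_⟩
  · refine (Runs.seq (drop_runs t) (pushW_runs c.code)).mono ?_
    simp only [eval_add, eval_mul, eval_X, eval_C, eval_ofNat, D.size]
    omega
  · simp only [eval_add, eval_mul, eval_X, eval_C, eval_ofNat]
    omega

theorem comp {F G : Lang → D → D} (hG : PT G) (hF : PT F) : PT fun O t => G O (F O t) := by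
  obtain ⟨p, T, h1, h2⟩ := hF
  obtain ⟨q, U, h3, h4⟩ := hG
  refine ⟨.seq p q, T + U.comp T + 1, fun O t m r => ?_, fun O t => ?_⟩
  · refine (Runs.seq (h1 O t m r) (h3 O (F O t) m r)).mono ?_
    have := eval_mono U (h2 O t)
    simp only [eval_add, eval_comp, eval_one]
    omega
  · have h5 := h4 O (F O t)
    have := eval_mono U (h2 O t)
    simp only [eval_add, eval_comp, eval_one]
    omega

theorem pair {F G : Lang → D → D} (hF : PT F) (hG : PT G) :
    PT fun O t => D.cons (F O t) (G O t) := by
  obtain ⟨p, T, h1, h2⟩ := hF
  obtain ⟨q, U, h3, h4⟩ := hG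
  refine ⟨.seq dup (.seq q (.seq swap (.seq p (.push .m true)))), T + 17 * U + 46 * X + 26,
    fun O t m r => ?_, fun O t => ?_⟩
  · refine ((Runs.seq (dup_runs t) (Runs.seq (h3 O t (t.code ++ m) r) (Runs.seq (swap_runs _ _)
      (Runs.seq (h1 O t _ r) (Runs.push .m true))))).congr ?_).mono ?_
    · rw [mk_m, set_mk, code_cons, List.cons_append, List.append_assoc]
    · have h5 := h4 O t
      simp only [eval_add, eval_mul, eval_X, eval_ofNat]
      omega
  · have h5 := h4 O t
    have h6 := h2 O t
    simp only [eval_add, eval_mul, eval_X, eval_ofNat, D.size_cons]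
    omega

theorem hd : PT fun _ t => t.hd := by
  refine ⟨.ite .m isT (.seq (.pop .m) (.seq swap drop)) (.pop .a), 32 * X + 26,
    fun O t m r => ?_, fun O t => ?_⟩
  · cases t with
    | nil =>
      refine (Runs.ite_false ?_ (nop_runs _ _)).mono (by simp)
      simp [mk_m, code_nil, isT]
    | cons a b =>
      have e : ((mk ((D.cons a b).code ++ m) r).set .m ((mk ((D.cons a b).code ++ m) r).get .m).tail)
          = mk (a.code ++ (b.code ++ m)) r := by
        rw [mk_m, set_mk, code_cons, List.cons_append, List.tail_cons, List.append_assoc]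
      refine (Runs.ite_true ?_ (Runs.seq ((Runs.pop .m).congr e)
        (Runs.seq (swap_runs a b) (drop_runs b)))).mono ?_
      · simp [mk_m, code_cons, isT]
      · simp only [eval_add, eval_mul, eval_X, eval_ofNat, D.size_cons]
        omega
  · cases t with
    | nil => simp [D.hd]
    | cons a b => simp [D.hd]; omega

theorem tl : PT fun _ t => t.tl := by
  refine ⟨.ite .m isT (.seq (.pop .m) drop) (.pop .a), 32 * X + 26,
    fun O t m r => ?_, fun O t => ?_⟩
  · cases t with
    | nil =>
      refine (Runs.ite_false ?_ (nop_runs _ _)).mono (by simp)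
      simp [mk_m, code_nil, isT]
    | cons a b =>
      have e : ((mk ((D.cons a b).code ++ m) r).set .m ((mk ((D.cons a b).code ++ m) r).get .m).tail)
          = mk (a.code ++ (b.code ++ m)) r := by
        rw [mk_m, set_mk, code_cons, List.cons_append, List.tail_cons, List.append_assoc]
      refine (Runs.ite_true ?_ (Runs.seq ((Runs.pop .m).congr e) (drop_runs a))).mono ?_
      · simp [mk_m, code_cons, isT]
      · simp only [eval_add, eval_mul, eval_X, eval_ofNat, D.size_cons]
        omega
  · cases t with
    | nil => simp [D.tl]
    | cons a b => simp [D.tl]; omega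

theorem cond {F G H : Lang → D → D} (hF : PT F) (hG : PT G) (hH : PT H) :
    PT fun O t => if F O t = D.nil then H O t else G O t := by
  obtain ⟨p, T, h1, h2⟩ := hF
  obtain ⟨q, U, h3, h4⟩ := hG
  obtain ⟨s, V, h5, h6⟩ := hH
  refine ⟨.seq dup (.seq p (.ite .m isT (.seq drop q) (.seq drop s))),
    17 * T + U + V + 30 * X + 20, fun O t m r => ?_, fun O t => ?_⟩
  · have h7 := h2 O t
    have h8 := h4 O t
    have h9 := h6 O t
    by_cases hF : F O t = D.nil
    · simp only [hF, if_true]
      refine (Runs.seq (dup_runs t) (Runs.seq (h1 O t (t.code ++ m) r) (Runs.ite_false ?_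
        (Runs.seq (drop_runs _) (h5 O t m r))))).mono ?_
      · rw [hF]; simp [mk_m, code_nil, isT]
      · simp only [eval_add, eval_mul, eval_X, eval_ofNat]
        omega
    · simp only [hF, if_false]
      refine (Runs.seq (dup_runs t) (Runs.seq (h1 O t (t.code ++ m) r) (Runs.ite_true ?_
        (Runs.seq (drop_runs _) (h3 O t m r))))).mono ?_
      · rcases hFt : F O t with _ | ⟨a, b⟩
        · exact absurd hFt hF
        · simp [mk_m, code_cons, isT]
      · simp only [eval_add, eval_mul, eval_X, eval_ofNat]
        omega
  · have h8 := h4 O t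
    have h9 := h6 O t
    simp only [eval_add, eval_mul, eval_X, eval_ofNat]
    split_ifs <;> omega

end PT

/-! ## Equality test -/

theorem code_append_inj : ∀ {a b : D} {u v : Word}, a.code ++ u = b.code ++ v → a = b ∧ u = v
  | .nil, .nil, u, v, h => by simpa [code_nil] using h
  | .nil, .cons _ _, u, v, h => by simp [code_nil, code_cons] at h
  | .cons _ _, .nil, u, v, h => by simp [code_nil, code_cons] at h
  | .cons a b, .cons a' b', u, v, h => by
      simp only [code_cons, List.cons_append, List.cons.injEq, true_and, List.append_assoc] at h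
      obtain ⟨h1, h2⟩ := code_append_inj h
      obtain ⟨h3, h4⟩ := code_append_inj h2
      exact ⟨by rw [h1, h3], h4⟩

theorem code_inj {a b : D} (h : a.code = b.code) : a = b :=
  (code_append_inj (u := []) (v := []) (by simpa using h)).1

/-- Number of mismatches of two words. -/
def mis : Word → Word → ℕ
  | [], _ => 0
  | x :: u, v => (if v.head? = some x then 0 else 1) + mis u v.tail

theorem mis_eq_zero : ∀ {u v : Word}, mis u v = 0 → v.drop u.length = [] → u = v
  | [], v, _, h => by simpa using h.symm
  | x :: u, [], h, _ => by simp [mis] at h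
  | x :: u, y :: v, h, h' => by
      simp only [mis, List.head?_cons, List.tail_cons, Nat.add_eq_zero_iff] at h
      have h1 : y = x := by
        by_contra hne
        simp [hne] at h
      rw [h1, mis_eq_zero h.2 (by simpa using h')]

theorem mis_self : ∀ u : Word, mis u u = 0
  | [] => rfl
  | x :: u => by simp [mis, mis_self u]

def cmpBody : Prog := .seq (.ite .a isT
    (.ite .b isT (.pop .b) (.seq (.push .n true) (.pop .b)))
    (.ite .b (fun o => o == some false) (.pop .b) (.seq (.push .n true) (.pop .b)))) (.pop .a)

def cmp : Prog := .loop .a Option.isSome cmpBody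

theorem cmp_runs {O : Lang} {m q r : Word} (u : Word) : ∀ v n : Word,
    Runs O cmp ⟨m, q, r, u, v, n⟩ (10 * u.length + 1)
      ⟨m, q, r, [], v.drop u.length, List.replicate (mis u v) true ++ n⟩ := by
  induction u with
  | nil =>
    intro v n
    exact (Runs.loop_false (by simp [St.get])).congr' (by simp) (by simp [mis])
  | cons x u ih =>
    intro v n
    have h1 : Runs O cmpBody ⟨m, q, r, x :: u, v, n⟩ 9
        ⟨m, q, r, u, v.tail, if v.head? = some x then n else true :: n⟩ := by
      have key : ∀ (c : Option Bool → Bool), (∀ o, c o = true ↔ o = some x) →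
          Runs O (.ite .b c (.pop .b) (.seq (.push .n true) (.pop .b))) ⟨m, q, r, x :: u, v, n⟩ 4
            ⟨m, q, r, x :: u, v.tail, if v.head? = some x then n else true :: n⟩ := by
        intro c hc
        by_cases hv : v.head? = some x
        · exact (Runs.ite_true ((hc _).2 (by simpa [St.get] using hv)) (Runs.pop .b)).congr'
            (by norm_num) (by simp [St.set, St.get, hv])
        · exact (Runs.ite_false (by
            have := mt (hc ((⟨m, q, r, x :: u, v, n⟩ : St).get .b).head?).1
              (by simpa [St.get] using hv)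
            simpa using this) (Runs.seq (Runs.push .n true) (Runs.pop .b))).congr'
            (by norm_num) (by simp [St.set, St.get, hv])
      cases x with
      | true =>
        refine (Runs.seq (Runs.ite_true (by simp [St.get, isT]) (key isT (by simp [isT])))
          (Runs.pop .a)).congr' (by norm_num) (by simp [St.set, St.get])
      | false =>
        refine (Runs.seq (Runs.ite_false (by simp [St.get, isT])
          (key (fun o => o == some false) (by simp)))
          (Runs.pop .a)).congr' (by norm_num) (by simp [St.set, St.get])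
    have h2 := Runs.loop_true (s := .a) (c := Option.isSome) (by simp [St.get]) h1 (ih _ _)
    refine h2.congr' (by simp only [List.length_cons]; omega) ?_
    by_cases hv : v.head? = some x
    · simp [mis, hv]
    · simp only [List.drop_tail, hv, if_false, List.length_cons, mis, St.mk.injEq, true_and]
      rw [Nat.add_comm 1, List.replicate_succ', List.append_assoc, List.singleton_append]

def eqP : Prog := .seq (grab .m .a) (.seq (grab .m .b) (.seq cmp
  (.seq (.ite .b Option.isSome (.push .n true) (.pop .a))
    (.seq (clear .b) (.ite .n Option.isSome (.seq (clear .n) (.push .m false))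
      (pushW D.one.code))))))

theorem flag_runs {O : Lang} {m r w k : Word} :
    Runs O (.ite .b Option.isSome (.push .n true) (.pop .a)) ⟨m, [], r, [], w, k⟩ 2
      ⟨m, [], r, [], w, if w = [] then k else true :: k⟩ := by
  cases w with
  | nil =>
    exact (Runs.ite_false (by simp [St.get]) (Runs.pop .a)).congr' (by norm_num)
      (by simp [St.set, St.get])
  | cons x w =>
    exact (Runs.ite_true (by simp [St.get]) (Runs.push .n true)).congr' (by norm_num)
      (by simp [St.set, St.get])

theorem res_runs {O : Lang} {m r k : Word} :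
    Runs O (.ite .n Option.isSome (.seq (clear .n) (.push .m false)) (pushW D.one.code))
      ⟨m, [], r, [], [], k⟩ (2 * k.length + 8)
      (mk ((if k = [] then D.one else D.nil).code ++ m) r) := by
  cases k with
  | nil =>
    refine (Runs.ite_false (by simp [St.get, mk]) (pushW_runs (m := m) (r := r) D.one.code)).congr' ?_ ?_
    · simp [D.one, D.code]
    · simp
  | cons x k =>
    refine (Runs.ite_true (by simp [St.get]) (Runs.seq clear_n (Runs.push .m false))).congr' ?_ ?_
    · simp only [List.length_cons]; omega
    · simp [St.set, St.get, mk, D.code]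

open Classical in
theorem eqP_runs {O : Lang} {m r : Word} (s t : D) :
    Runs O eqP (mk (s.code ++ (t.code ++ m)) r) (30 * (s.size + t.size) + 40)
      (mk ((D.ofBool (decide (s = t))).code ++ m) r) := by
  have hmis : ∀ u v : Word, mis u v ≤ u.length := by
    intro u
    induction u with
    | nil => intro v; simp [mis]
    | cons x u ih =>
      intro v
      have := ih v.tail
      simp only [mis, List.length_cons]
      split_ifs <;> omega
  have hm := hmis s.code.reverse t.code.reverse
  have hul : s.code.reverse.length = s.size := by simp [D.size]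
  have hvl : t.code.reverse.length = t.size := by simp [D.size]
  have hd : (t.code.reverse.drop s.code.reverse.length).length ≤ t.size := by
    rw [List.length_drop, hvl]; omega
  rw [hul] at hm
  refine (Runs.seq (grab_ma s) (Runs.seq (grab_mb t) (Runs.seq (cmp_runs _ _ _) (Runs.seq flag_runs
    (Runs.seq clear_b res_runs))))).congr' ?_ ?_
  · simp only [List.append_nil]
    rw [hul] at hd ⊢
    split_ifs
    · rw [List.length_replicate]
      omega
    · rw [List.length_cons, List.length_replicate]
      omega
  · simp only [List.append_nil]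
    by_cases hst : s = t
    · subst hst
      simp [mis_self, D.ofBool]
    · have : ¬ (mis s.code.reverse t.code.reverse = 0 ∧
          t.code.reverse.drop s.code.reverse.length = []) := by
        rintro ⟨h1, h2⟩
        exact hst (code_inj (List.reverse_injective (mis_eq_zero h1 h2)))
      have h3 : (if t.code.reverse.drop s.code.reverse.length = [] then
          List.replicate (mis s.code.reverse t.code.reverse) true
          else true :: List.replicate (mis s.code.reverse t.code.reverse) true) ≠ [] := by
        split_ifs with h
        · intro h'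
          rw [List.replicate_eq_nil_iff] at h'
          exact this ⟨h', h⟩
        · simp
      rw [if_neg h3]
      simp [hst, D.ofBool]

open Classical in
theorem PT.eqHT : PT fun _ t => D.ofBool (decide (t.hd = t.tl)) := by
  refine ⟨.ite .m isT (.seq (.pop .m) eqP) (.seq (.pop .m) (pushW D.one.code)), 30 * X + 60,
    fun O t m r => ?_, fun O t => ?_⟩
  · cases t with
    | nil =>
      refine (Runs.ite_false ?_ (Runs.seq (Runs.pop .m) ((pushW_runs (m := m) (r := r)
        D.one.code)))).congr' ?_ ?_
      · simp [mk_m, code_nil, isT]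
      · simp [D.one, D.code]
      · simp [D.hd, D.tl, D.ofBool]
    | cons a b =>
      have e : ((mk ((D.cons a b).code ++ m) r).set .m ((mk ((D.cons a b).code ++ m) r).get .m).tail)
          = mk (a.code ++ (b.code ++ m)) r := by
        rw [mk_m, set_mk, code_cons, List.cons_append, List.tail_cons, List.append_assoc]
      refine (Runs.ite_true ?_ (Runs.seq ((Runs.pop .m).congr e) (eqP_runs a b))).mono ?_
      · simp [mk_m, code_cons, isT]
      · simp only [eval_add, eval_mul, eval_X, eval_ofNat, D.size_cons]
        omega
  · have : (D.ofBool (decide (t.hd = t.tl))).size ≤ 3 := by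
      cases decide (t.hd = t.tl) <;> simp [D.ofBool, D.one]
    simp only [eval_add, eval_mul, eval_X, eval_ofNat]
    omega

/-! ## Oracle queries -/

def spine : Prog := .loop .m isT (.seq (.pop .m)
  (.seq (.ite .m isT (.push .b true) (.push .b false)) drop))

theorem spine_runs {O : Lang} {m r : Word} (t : D) : ∀ b : Word,
    Runs O spine ⟨t.code ++ m, [], r, [], b, []⟩ (30 * t.size)
      ⟨false :: m, [], r, [], t.word.reverse ++ b, []⟩ := by
  induction t with
  | nil =>
    intro b
    exact (Runs.loop_false (by simp [St.get, code_nil, isT])).congr' (by simp)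
      (by simp [code_nil, D.word])
  | cons x y _ ih =>
    intro b
    have h1 : Runs O (.ite .m isT (.push .b true) (.push .b false))
        ⟨x.code ++ (y.code ++ m), [], r, [], b, []⟩ 2
        ⟨x.code ++ (y.code ++ m), [], r, [], (!decide (x = D.nil)) :: b, []⟩ := by
      cases x with
      | nil =>
        exact (Runs.ite_false (by simp [St.get, code_nil, isT]) (Runs.push .b false)).congr'
          (by norm_num) (by simp [St.set, St.get])
      | cons x1 x2 =>
        exact (Runs.ite_true (by simp [St.get, code_cons, isT]) (Runs.push .b true)).congr'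
          (by norm_num) (by simp [St.set, St.get])
    have h2 : Runs O drop ⟨x.code ++ (y.code ++ m), [], r, [], (!decide (x = D.nil)) :: b, []⟩
        (16 * x.size + 5) ⟨y.code ++ m, [], r, [], (!decide (x = D.nil)) :: b, []⟩ := by
      refine (Runs.seq (grab_ma x) clear_a).congr' ?_ (by simp)
      simp only [List.length_append, List.length_reverse, List.length_nil, D.size]
      omega
    have h3 : Runs O (.pop .m) ⟨(D.cons x y).code ++ m, [], r, [], b, []⟩ 1
        ⟨x.code ++ (y.code ++ m), [], r, [], b, []⟩ :=
      (Runs.pop .m).congr (by simp [St.set, St.get, code_cons])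
    have h4 := Runs.loop_true (s := .m) (c := isT) (by simp [St.get, code_cons, isT])
      (Runs.seq h3 (Runs.seq h1 h2)) (ih ((!decide (x = D.nil)) :: b))
    refine h4.congr' ?_ (by simp [D.word])
    have := x.size_pos
    rw [D.size_cons]
    omega

theorem word_length (t : D) : t.word.length ≤ t.size := by
  induction t with
  | nil => simp [D.word]
  | cons a b _ ih => simp [D.word]; omega

def askP : Prog := .seq spine (.seq (.pop .m) (.seq (pour .b .q)
  (.ask (.seq (clear .q) (pushW D.one.code)) (.seq (clear .q) (pushW D.nil.code)))))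

open Classical in
theorem PT.ask : PT fun O t => D.ofBool (decide (t.word ∈ O)) := by
  refine ⟨askP, 40 * X + 60, fun O t m r => ?_, fun O t => ?_⟩
  · have hw := word_length t
    have h1 : Runs O (.pop .m) ⟨false :: m, [], r, [], t.word.reverse ++ [], []⟩ 1
        ⟨m, [], r, [], t.word.reverse, []⟩ := (Runs.pop .m).congr (by simp [St.set, St.get])
    have h2 : Runs O (pour .b .q) ⟨m, [], r, [], t.word.reverse, []⟩ (5 * t.word.length + 1)
        ⟨m, t.word, r, [], [], []⟩ := pour_bq.congr' (by simp) (by simp)
    have h3 : Runs O (.ask (.seq (clear .q) (pushW D.one.code))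
        (.seq (clear .q) (pushW D.nil.code))) ⟨m, t.word, r, [], [], []⟩
        (2 * t.word.length + 12) (mk ((D.ofBool (decide (t.word ∈ O))).code ++ m) r) := by
      by_cases h : t.word ∈ O
      · refine (Runs.ask_yes h (Runs.seq clear_q (pushW_run _))).congr' ?_ ?_
        · simp [D.one, D.code]
        · simp [h, D.ofBool, mk]
      · refine (Runs.ask_no h (Runs.seq clear_q (pushW_run _))).congr' ?_ ?_
        · simp [D.code]
        · simp [h, D.ofBool, mk]
    refine (Runs.seq (spine_runs t []) (Runs.seq h1 (Runs.seq h2 h3))).mono ?_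
    simp only [eval_add, eval_mul, eval_X, eval_ofNat]
    omega
  · have : (D.ofBool (decide (t.word ∈ O))).size ≤ 3 := by
      cases decide (t.word ∈ O) <;> simp [D.ofBool, D.one]
    simp only [eval_add, eval_mul, eval_X, eval_ofNat]
    omega

/-! ## Folds -/

/-- Fold of a functional along a list. -/
def fold (F : D → D) (l : List D) (s : D) : D := l.foldl (fun s a => F (D.cons a s)) s

def foldBody (p : Prog) : Prog :=
  .seq (.pop .m) (.seq swap (.seq toR (.seq (.push .m true) (.seq p fromR))))

def foldLoop (p : Prog) : Prog := .loop .m isT (foldBody p)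

def foldP (p : Prog) : Prog :=
  .ite .m isT (.seq (.pop .m) (.seq (foldLoop p) (.pop .m))) nop

theorem toList_length (t : D) : t.toList.length ≤ t.size := by
  induction t with
  | nil => simp [D.toList]
  | cons a b _ ih => simp [D.toList]; omega

theorem foldLoop_runs {O : Lang} {p : Prog} {F : D → D} {B : ℕ} (l : D) : ∀ s : D,
    (∀ l₁ a l₂, l.toList = l₁ ++ a :: l₂ → ∀ m r,
      Runs O p (mk ((D.cons a (fold F l₁ s)).code ++ m) r) B
        (mk ((F (D.cons a (fold F l₁ s))).code ++ m) r)) →
    ∀ m r, Runs O (foldLoop p) (mk (l.code ++ (s.code ++ m)) r)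
      (l.toList.length * (B + 48 * l.size + 30) + 1)
      (mk (false :: ((fold F l.toList s).code ++ m)) r) := by
  induction l with
  | nil =>
    intro s _ m r
    exact (Runs.loop_false (by simp [mk_m, code_nil, isT])).congr' (by simp [D.toList])
      (by simp [code_nil, D.toList, fold])
  | cons x y _ ih =>
    intro s hs m r
    have h1 : Runs O (.pop .m) (mk ((D.cons x y).code ++ (s.code ++ m)) r) 1
        (mk (x.code ++ (y.code ++ (s.code ++ m))) r) :=
      (Runs.pop .m).congr (by simp [St.set, St.get, code_cons, mk])
    have h2 : Runs O (.push .m true) (mk (x.code ++ (s.code ++ m)) (y.code ++ r)) 1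
        (mk ((D.cons x s).code ++ m) (y.code ++ r)) :=
      (Runs.push .m true).congr (by simp [St.set, St.get, code_cons, mk])
    have h3 := hs [] x y.toList rfl m (y.code ++ r)
    have h4 := Runs.loop_true (s := .m) (c := isT) (by simp [mk_m, code_cons, isT])
      (Runs.seq h1 (Runs.seq (swap_runs x y) (Runs.seq (toR_runs y) (Runs.seq h2
        (Runs.seq h3 (fromR_runs y)))))) (ih (F (D.cons x s)) (by
          intro l₁ a l₂ hl m r
          exact hs (x :: l₁) a l₂ (by simp [D.toList, hl]) m r) m r)
    refine h4.congr' ?_ (by simp [D.toList, fold])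
    have h5 : y.toList.length * (B + 48 * y.size + 30) ≤
        y.toList.length * (B + 48 * (D.cons x y).size + 30) :=
      Nat.mul_le_mul_left _ (by rw [D.size_cons]; omega)
    have h6 : (D.cons x y).toList.length = y.toList.length + 1 := by simp [D.toList]
    rw [h6, Nat.add_mul, one_mul]
    rw [D.size_cons] at h5 ⊢
    omega

theorem foldP_runs {O : Lang} {p : Prog} {F : D → D} {B : ℕ} (t : D)
    (hs : ∀ l₁ a l₂, t.hd.toList = l₁ ++ a :: l₂ → ∀ m r,
      Runs O p (mk ((D.cons a (fold F l₁ t.tl)).code ++ m) r) B
        (mk ((F (D.cons a (fold F l₁ t.tl))).code ++ m) r)) (m r : Word) :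
    Runs O (foldP p) (mk (t.code ++ m) r) (t.size * (B + 48 * t.size + 30) + 6)
      (mk ((fold F t.hd.toList t.tl).code ++ m) r) := by
  cases t with
  | nil =>
    refine (Runs.ite_false (by simp [mk_m, code_nil, isT]) nop_run).congr' (by omega) ?_
    simp [D.hd, D.tl, D.toList, fold]
  | cons l s =>
    have h1 : Runs O (.pop .m) (mk ((D.cons l s).code ++ m) r) 1
        (mk (l.code ++ (s.code ++ m)) r) :=
      (Runs.pop .m).congr (by simp [St.set, St.get, code_cons, mk])
    have h2 := foldLoop_runs (O := O) (p := p) (F := F) (B := B) l s hs m r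
    refine (Runs.ite_true (by simp [mk_m, code_cons, isT]) (Runs.seq h1 (Runs.seq h2
      (Runs.pop .m)))).congr' ?_ (by simp [St.set, St.get, mk, D.hd, D.tl])
    have h3 : l.toList.length * (B + 48 * l.size + 30) ≤
        (D.cons l s).size * (B + 48 * (D.cons l s).size + 30) := by
      have := toList_length l
      rw [D.size_cons]
      exact Nat.mul_le_mul (by omega) (by omega)
    omega

theorem mem_toList_size {a : D} : ∀ {u : D}, a ∈ u.toList → a.size ≤ u.size := by
  intro u
  induction u with
  | nil => simp [D.toList]
  | cons x y _ ih =>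
    intro h
    simp only [D.toList, List.mem_cons] at h
    rw [D.size_cons]
    rcases h with rfl | h
    · omega
    · have := ih h; omega

theorem size_hd_le (t : D) : t.hd.size ≤ t.size := by
  cases t with
  | nil => simp [D.hd]
  | cons x y => simp [D.hd]; omega

theorem size_tl_le (t : D) : t.tl.size ≤ t.size := by
  cases t with
  | nil => simp [D.tl]
  | cons x y => simp [D.tl]; omega

theorem PT.fold {F P : Lang → D → D} (hF : PT F) (hP : PT P)
    (hS : ∃ S : ℕ[X], ∀ O t l₁, l₁ <+: (D.hd (P O t)).toList →
      (MP_6b6c7c_lc.fold (F O) l₁ (D.tl (P O t))).size ≤ S.eval t.size) :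
    PT fun O t => MP_6b6c7c_lc.fold (F O) (D.hd (P O t)).toList (D.tl (P O t)) := by
  obtain ⟨p, T, h1, h2⟩ := hF
  obtain ⟨q, U, h3, h4⟩ := hP
  obtain ⟨S, hS⟩ := hS
  refine ⟨.seq q (foldP p), U + U * (T.comp (U + S + 1) + 48 * U + 30) + 7 + S,
    fun O t m r => ?_, fun O t => ?_⟩
  · have h5 := h4 O t
    have h6 : Runs O (foldP p) (mk ((P O t).code ++ m) r)
        ((P O t).size * (T.eval (U.eval t.size + S.eval t.size + 1) + 48 * (P O t).size + 30) + 6)
        (mk ((MP_6b6c7c_lc.fold (F O) (D.hd (P O t)).toList (D.tl (P O t))).code ++ m) r) := by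
      refine foldP_runs _ ?_ m r
      intro l₁ a l₂ hl m r
      refine (h1 O _ m r).mono (eval_mono T ?_)
      have h7 := hS O t l₁ ⟨a :: l₂, hl.symm⟩
      have h8 : a.size ≤ (P O t).size :=
        (mem_toList_size (by rw [hl]; simp)).trans (size_hd_le _)
      rw [D.size_cons]
      omega
    refine (Runs.seq (h3 O t m r) h6).mono ?_
    simp only [eval_add, eval_mul, eval_X, eval_ofNat, eval_comp, eval_one]
    have h9 : (P O t).size * (T.eval (U.eval t.size + S.eval t.size + 1) + 48 * (P O t).size + 30) ≤
        U.eval t.size * (T.eval (U.eval t.size + S.eval t.size + 1) + 48 * U.eval t.size + 30) :=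
      Nat.mul_le_mul h5 (by omega)
    omega
  · have h3 := hS O t _ (List.prefix_refl _)
    simp only [eval_add, eval_mul, eval_X, eval_ofNat, eval_comp, eval_one]
    omega

/-! ## Whole programs -/

/-- Convert the input word on the main stack to a tree. -/
def conv : Prog := .seq (pour .m .a) (.seq (.push .m false) (.loop .a Option.isSome
  (.ite .a isT (.seq (.pop .a) (pushW [true, true, false, false]))
    (.seq (.pop .a) (pushW [true, false])))))

theorem conv_loop {O : Lang} (w : Word) : ∀ m : Word,
    Runs O (.loop .a Option.isSome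
      (.ite .a isT (.seq (.pop .a) (pushW [true, true, false, false]))
        (.seq (.pop .a) (pushW [true, false])))) ⟨m, [], [], w, [], []⟩ (13 * w.length + 1)
      ⟨(w.reverse.flatMap fun b => true :: (D.ofBool b).code) ++ m, [], [], [], [], []⟩ := by
  induction w with
  | nil =>
    intro m
    exact (Runs.loop_false (by simp [St.get])).congr' (by simp) (by simp)
  | cons x w ih =>
    intro m
    have h1 : Runs O (.ite .a isT (.seq (.pop .a) (pushW [true, true, false, false]))
        (.seq (.pop .a) (pushW [true, false]))) ⟨m, [], [], x :: w, [], []⟩ 12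
        ⟨(true :: (D.ofBool x).code) ++ m, [], [], w, [], []⟩ := by
      cases x with
      | true =>
        refine (Runs.ite_true (by simp [St.get, isT]) (Runs.seq (Runs.pop .a)
          (pushW_run _))).congr' (by simp) ?_
        simp [St.get, D.ofBool, D.one, D.code]
      | false =>
        refine (Runs.ite_false (by simp [St.get, isT]) (Runs.seq (Runs.pop .a)
          (pushW_run _))).congr' (by simp) ?_
        simp [St.get, D.ofBool, D.code]
    have h2 := Runs.loop_true (s := .a) (c := Option.isSome) (by simp [St.get]) h1 (ih _)
    refine h2.congr' (by simp only [List.length_cons]; omega) ?_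
    simp

theorem ofWord_code (x : Word) :
    (D.ofWord x).code = (x.flatMap fun b => true :: (D.ofBool b).code) ++ [false] := by
  induction x with
  | nil => rfl
  | cons b x ih => simp [D.ofWord, code_cons, ih]

theorem conv_runs {O : Lang} (x : Word) : Runs O conv (St.start x) (18 * x.length + 6)
    (mk (D.ofWord x).code []) := by
  have h1 : Runs O (pour .m .a) (St.start x) (5 * x.length + 1) ⟨[], [], [], x.reverse, [], []⟩ :=
    pour_ma.congr' le_rfl (by simp)
  have h2 : Runs O (.push .m false) ⟨[], [], [], x.reverse, [], []⟩ 1
      ⟨[false], [], [], x.reverse, [], []⟩ := (Runs.push .m false).congr rfl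
  refine (Runs.seq h1 (Runs.seq h2 (conv_loop x.reverse [false]))).congr' ?_ ?_
  · rw [List.length_reverse]; omega
  · rw [List.reverse_reverse, ofWord_code, mk]

/-- Whole program: convert, compute, and accept iff the result is not `nil`. -/
def whole (p : Prog) : Prog := .seq conv (.seq p (.ite .m isT .acc .rej))

theorem whole_run {O : Lang} {p : Prog} {x : Word} {n : ℕ} {y : D}
    (h : Runs O p (mk (D.ofWord x).code []) n (mk y.code [])) {T : ℕ}
    (hT : 2 * (n + 18 * x.length + 10) ≤ T) :
    (y ≠ D.nil → (comp (whole p)).Accepts O x T) ∧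
      (y = D.nil → (comp (whole p)).Rejects O x T) := by
  obtain ⟨t₁, ht₁, e₁⟩ := conv_runs (O := O) x [.seq p (.ite .m isT .acc .rej)]
  obtain ⟨t₂, ht₂, e₂⟩ := h [.ite .m isT .acc .rej]
  have key : ∀ q : Prog, q = (if y = D.nil then .rej else .acc) →
      (sstep O)^[1 + (t₂ + (1 + (t₁ + 1)))] ([whole p], St.start x) = ([q], mk y.code []) := by
    intro q hq
    rw [Function.iterate_add_apply, Function.iterate_add_apply, Function.iterate_add_apply,
      Function.iterate_add_apply]
    have e0 : (sstep O)^[1] ([whole p], St.start x) =
        (conv :: [.seq p (.ite .m isT .acc .rej)], St.start x) := rfl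
    have e3 : (sstep O)^[1] ([.seq p (.ite .m isT .acc .rej)], mk (D.ofWord x).code []) =
        (p :: [.ite .m isT .acc .rej], mk (D.ofWord x).code []) := rfl
    rw [e0, e₁, e3, e₂, hq]
    cases y with
    | nil => simp [sstep, mk_m, code_nil, isT]
    | cons a b => simp [sstep, mk_m, code_cons, isT]
  constructor
  · intro hy
    exact comp_accepts (whole p) (key .acc (by simp [hy])) (by omega)
  · intro hy
    exact comp_rejects (whole p) (key .rej (by simp [hy])) (by omega)

end Pool.Agent.Lib.MP_6b6c7c_lc
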