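import Pool.Agent.Lib.MP_6b6c7c_lc.Keys

/-! # Machines for polynomial-time functionals; completeness of the constructed set -/

namespace Pool.Agent.Lib.MP_6b6c7c_lc

open Polynomial

theorem eval_le (Q : ℕ[X]) {m : ℕ} (hm : 1 ≤ m) : Q.eval m ≤ Q.eval 1 * m ^ Q.natDegree := by
  rw [Polynomial.eval_eq_sum_range, Polynomial.eval_eq_sum_range, Finset.sum_mul]
  refine Finset.sum_le_sum fun i hi => ?_
  rw [one_pow, mul_one]
  refine Nat.mul_le_mul_left _ (Nat.pow_le_pow_right hm ?_)
  have := Finset.mem_range.1 hi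
  omega

theorem polyBound (Q : ℕ[X]) : ∃ c, ∀ n : ℕ, Q.eval n ≤ n ^ c + c := by
  refine ⟨Q.eval 0 + Q.eval 1 + Q.natDegree, fun n => ?_⟩
  rcases Nat.lt_trichotomy n 1 with h | h | h
  · have : n = 0 := by omega
    subst this
    exact le_trans (by omega) (Nat.le_add_left _ _)
  · subst h
    exact le_trans (by omega) (Nat.le_add_left _ _)
  · have h1 := eval_le Q h.le
    have h2 : Q.eval 1 ≤ n ^ (Q.eval 1) := (Nat.lt_pow_self h).le
    calc Q.eval n ≤ n ^ (Q.eval 1) * n ^ Q.natDegree :=
          h1.trans (Nat.mul_le_mul_right _ h2)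
      _ = n ^ (Q.eval 1 + Q.natDegree) := by rw [pow_add]
      _ ≤ n ^ (Q.eval 0 + Q.eval 1 + Q.natDegree) := Nat.pow_le_pow_right h.le (by omega)
      _ ≤ _ := by omega

theorem ofBool_ne (b : Bool) : Enc.enc b ≠ D.nil ↔ b = true := by
  cases b <;> simp [Enc.enc, D.ofBool, D.one]

theorem machine {f : Lang → Word → Bool} (hf : Poly f) : ∃ (M : OTM) (c : ℕ), M.PolyTime c ∧
    ∀ O : Lang, M.Decides O {x | f O x = true} fun n => n ^ c + c := by
  obtain ⟨F, ⟨p, T, hp, -⟩, hF⟩ := hf
  obtain ⟨c, hc⟩ := polyBound (2 * (T.comp (4 * X + 1) + 18 * X + 10))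
  have key : ∀ (O : Lang) (x : Word),
      (f O x = true → (comp (whole p)).Accepts O x (x.length ^ c + c)) ∧
      (f O x = false → (comp (whole p)).Rejects O x (x.length ^ c + c)) := by
    intro O x
    have h1 : Runs O p (mk (D.ofWord x).code []) (T.eval (sz x)) (mk (Enc.enc (f O x)).code []) := by
      have := hp O (Enc.enc x) [] []
      rw [hF, List.append_nil, List.append_nil, enc_word] at this
      rw [sz, enc_word]
      exact this
    have h2 := hc x.length
    simp only [eval_mul, eval_add, eval_ofNat, eval_comp, eval_X, eval_one] at h2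
    have h3 := eval_mono T (sz_word_le x)
    obtain ⟨h4, h5⟩ := whole_run h1 (T := x.length ^ c + c) (by omega)
    refine ⟨fun h => h4 ((ofBool_ne _).2 h), fun h => h5 ?_⟩
    rw [h]
    rfl
  refine ⟨comp (whole p), c, fun O x => ?_, fun O x => ⟨fun hx => (key O x).1 hx, fun hx => ?_⟩⟩
  · cases h : f O x
    · exact Or.inr ((key O x).2 h)
    · exact Or.inl ((key O x).1 h)
  · refine (key O x).2 ?_
    simpa using hx

/-! ## Membership in EXP -/

theorem expBound (Q : ℕ[X]) : ∃ c, ∀ n : ℕ, Q.eval (2 ^ n) ≤ c * 2 ^ n ^ 2 := by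
  refine ⟨Q.eval 1 * 2 ^ (Q.natDegree ^ 2), fun n => ?_⟩
  refine (eval_le Q Nat.one_le_two_pow).trans ?_
  rw [mul_assoc, ← pow_mul, ← pow_add]
  refine Nat.mul_le_mul_left _ (Nat.pow_le_pow_right (by norm_num) ?_)
  nlinarith [sq_nonneg ((n : ℤ) - Q.natDegree), sq_nonneg (n - Q.natDegree),
    Nat.le_total n Q.natDegree, mul_self_nonneg ((n : ℤ) - Q.natDegree)]

/-- Doubling step. -/
def dbl (p : Bool × (Word × ℕ)) : Word × ℕ := (p.2.1, p.2.2 + p.2.2)

theorem fold_dbl {F : D → D} (hF : ∀ p : Bool × (Word × ℕ), F (Enc.enc p) = Enc.enc (dbl p))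
    (l : Word) (x : Word) (N : ℕ) :
    fold F (l.map Enc.enc) (Enc.enc (x, N)) = Enc.enc (x, 2 ^ l.length * N) := by
  induction l generalizing N with
  | nil => simp [fold]
  | cons b l ih =>
    have h1 : F (D.cons (Enc.enc b) (Enc.enc (x, N))) = Enc.enc (x, N + N) := hF (b, (x, N))
    have h2 := ih (N + N)
    rw [fold] at h2 ⊢
    rw [List.map_cons, List.foldl_cons, h1, h2, List.length_cons, pow_succ]
    congr 2
    ring

theorem expMachine {f : Word → ℕ → Bool} (hf : Poly fun _ (p : Word × ℕ) => f p.1 p.2) :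
    InEXP {x | f x (2 ^ x.length) = true} := by
  obtain ⟨G, ⟨q, U, hq, -⟩, hG⟩ := hf
  have hd : Poly fun _ p => dbl p :=
    Poly.pair (Poly.fst Poly.snd') (Poly.add (Poly.snd Poly.snd') (Poly.snd Poly.snd'))
  obtain ⟨F, ⟨p, T, hp, -⟩, hF⟩ := hd
  have hi : Poly fun _ (x : Word) => (x, (x, 1)) := Poly.pair Poly.id (Poly.pair Poly.id (Poly.const 1))
  obtain ⟨I, ⟨s, V, hs, -⟩, hI⟩ := hi
  set P : Prog := .seq s (.seq (foldP p) q) with hP
  set B : ℕ[X] := T.comp (30 * X) with hB
  set Q : ℕ[X] := V.comp (30 * X) + (30 * X * (B + 48 * (30 * X) + 30) + 6) + U.comp (30 * X) + 10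
    with hQ
  obtain ⟨c, hc⟩ := expBound (2 * (Q + 18 * X + 10))
  have hrun : ∀ x : Word, Runs ∅ P (mk (D.ofWord x).code []) (Q.eval (2 ^ x.length))
      (mk (Enc.enc (f x (2 ^ x.length))).code []) := by
    intro x
    have hx : x.length < 2 ^ x.length := Nat.lt_two_pow_self
    have h0 := sz_word_le x
    have hone : sz (1 : ℕ) = 3 := rfl
    have h1 : Runs ∅ s (mk (D.ofWord x).code []) (V.eval (30 * 2 ^ x.length))
        (mk ((Enc.enc (x, (x, 1))).code ++ []) []) := by
      have h2 := hs ∅ (Enc.enc x) [] []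
      rw [hI, enc_word, List.append_nil] at h2
      refine h2.mono (eval_mono V ?_)
      rw [← enc_word]
      change sz x ≤ _
      omega
    have h3 : Runs ∅ (foldP p) (mk ((Enc.enc (x, (x, 1))).code ++ []) [])
        (30 * 2 ^ x.length * (B.eval (2 ^ x.length) + 48 * (30 * 2 ^ x.length) + 30) + 6)
        (mk ((Enc.enc (x, 2 ^ x.length)).code ++ []) []) := by
      have e1 : (Enc.enc (x, (x, 1)) : D).hd.toList = x.map Enc.enc := D.toList_ofList _
      have e2 : (Enc.enc (x, (x, 1)) : D).tl = Enc.enc (x, 1) := rfl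
      have h4 := foldP_runs (O := ∅) (p := p) (F := F ∅) (B := B.eval (2 ^ x.length))
        (Enc.enc (x, (x, 1))) (by
          intro l₁ a l₂ hl m r
          rw [e1] at hl
          obtain ⟨w₁, w₂, hw, rfl, hw₂⟩ := List.map_eq_append_iff.1 hl
          obtain ⟨b, w₃, rfl, rfl, -⟩ := List.map_eq_cons_iff.1 hw₂
          rw [e2, fold_dbl (hF ∅)]
          refine (hp ∅ _ m r).mono ?_
          simp only [hB, eval_comp, eval_mul, eval_ofNat, eval_X]
          refine eval_mono T ?_
          rw [D.size_cons]
          have h5 : (Enc.enc b).size ≤ 3 := Poly.sz_bool_le b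
          have h6 : (Enc.enc (x, 2 ^ w₁.length * 1)).size = sz x + sz (2 ^ w₁.length * 1) + 1 :=
            sz_pair _ _
          have h7 : 2 ^ w₁.length ≤ 2 ^ x.length :=
            Nat.pow_le_pow_right (by norm_num) (by rw [hw]; simp)
          rw [sz_nat] at h6
          omega) [] []
      rw [e1, e2, fold_dbl (hF ∅), mul_one] at h4
      refine h4.mono ?_
      have h5 : (Enc.enc (x, (x, 1))).size = sz x + (sz x + sz (1 : ℕ) + 1) + 1 := by
        rw [← sz_pair, ← sz_pair]; rfl
      have h6 : (Enc.enc (x, (x, 1))).size ≤ 30 * 2 ^ x.length := by omega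
      have h7 := Nat.mul_le_mul h6 (show B.eval (2 ^ x.length) + 48 * (Enc.enc (x, (x, 1))).size + 30
        ≤ B.eval (2 ^ x.length) + 48 * (30 * 2 ^ x.length) + 30 by omega)
      omega
    have h4 : Runs ∅ q (mk ((Enc.enc (x, 2 ^ x.length)).code ++ []) []) (U.eval (30 * 2 ^ x.length))
        (mk (Enc.enc (f x (2 ^ x.length))).code []) := by
      have h2 := hq ∅ (Enc.enc (x, 2 ^ x.length)) [] []
      rw [hG] at h2
      refine (h2.mono (eval_mono U ?_)).congr (by rw [List.append_nil])
      have h6 : (Enc.enc (x, 2 ^ x.length)).size = sz x + sz (2 ^ x.length) + 1 := sz_pair _ _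
      rw [sz_nat] at h6
      omega
    refine (Runs.seq h1 (Runs.seq h3 h4)).mono ?_
    simp only [hQ, eval_add, eval_mul, eval_comp, eval_X, eval_ofNat]
    omega
  refine ⟨comp (whole P), 2, c, fun x => ?_⟩
  have h2 := hc x.length
  have hx : x.length < 2 ^ x.length := Nat.lt_two_pow_self
  simp only [eval_mul, eval_add, eval_ofNat, eval_X] at h2
  obtain ⟨h4, h5⟩ := whole_run (hrun x) (T := c * 2 ^ x.length ^ 2) (by omega)
  refine ⟨fun h => h4 ((ofBool_ne _).2 h), fun h => h5 ?_⟩
  have : f x (2 ^ x.length) = false := by simpa using h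
  rw [this]
  rfl

theorem theA_inEXP : InEXP theA := by
  have h := expMachine (f := theF) (Poly.theF Poly.fst' Poly.snd')
  have e : theA = {x | theF x (2 ^ x.length) = true} := by
    ext x
    show _ ↔ theF x (2 ^ x.length) = true
    rw [theF_eq x _ le_rfl]
    rfl
  rw [e]
  exact h

/-! ## Membership in the constructed set -/

/-- The key of stage `i`. -/
def key (i : ℕ) : Word := skey (fun e => 2 ^ e) (tow i) (keys (fun e => 2 ^ e) i).2

theorem key_length (i : ℕ) : (key i).length = tow i := skey_length _ _ _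

theorem keys_get (i j : ℕ) (h : i < j) : (keys (fun e => 2 ^ e) j).2[i]? = some (key i) := by
  induction j with
  | zero => omega
  | succ j ih =>
    rw [keys_succ, kstep]
    simp only [keys_fst]
    rcases Nat.lt_succ_iff_lt_or_eq.1 h with h | h
    · rw [List.getElem?_append_left (by rw [keys_length]; exact h)]
      exact ih h
    · subst h
      rw [List.getElem?_append_right (by rw [keys_length]), keys_length, Nat.sub_self]
      rfl

theorem inA_iff {K : List Word} {z : Word} {i : ℕ} (hi : ix z.length = (i, tow i))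
    (hK : K[i]? = some (key i)) : inA (fun e => 2 ^ e) K z = true ↔
      (∃ b < tow i, z = wd (tow i) b ∧ ((key i)[b]?).getD false = true) ∨
      (z.head? = some true ∧ z.tail.take (tow i) = key i ∧
        cval (fun e => 2 ^ e) (z.tail.drop (tow i)) = true) := by
  unfold inA
  rw [hi, hK]
  simp only [Option.elim_some, Bool.or_eq_true, List.any_eq_true, List.mem_range, Bool.and_eq_true,
    decide_eq_true_eq, and_assoc]

theorem mem_theA {z : Word} {i : ℕ} (hi : ix z.length = (i, tow i)) : z ∈ theA ↔
      (∃ b < tow i, z = wd (tow i) b ∧ ((key i)[b]?).getD false = true) ∨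
      (z.head? = some true ∧ z.tail.take (tow i) = key i ∧
        cval (fun e => 2 ^ e) (z.tail.drop (tow i)) = true) := by
  have h : z ∈ theA ↔ inA (fun e => 2 ^ e) (keys (fun e => 2 ^ e) ((ix z.length).1 + 1)).2 z
    = true := Iff.rfl
  rw [h, inA_iff hi (keys_get _ _ (by rw [hi]; exact Nat.lt_succ_self i))]

theorem wd_length (n b : ℕ) : (wd n b).length = 2 * n + 1 := by
  simp [wd]; omega

theorem wd_inj {n b b' : ℕ} (hb : b < n) (h : wd n b = wd n b') : b = b' := by
  unfold wd at h
  rw [List.cons.injEq] at h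
  have h2 := congrArg (fun l : List Bool => l[b]?) h.2
  simp only [List.getElem?_map, List.getElem?_range (show b < n + n by omega), Option.map_some,
    Option.some.injEq] at h2
  simpa using h2.symm

theorem ix_wd (i b : ℕ) : ix (wd (tow i) b).length = (i, tow i) := by
  have := tow_lt_succ i
  rw [wd_length]
  exact ix_eq (by omega) (by omega)

theorem wd_mem {i b : ℕ} (hb : b < tow i) :
    wd (tow i) b ∈ theA ↔ ((key i)[b]?).getD false = true := by
  rw [mem_theA (ix_wd i b)]
  constructor
  · rintro (⟨b', hb', h1, h2⟩ | ⟨h1, -⟩)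
    · rw [wd_inj hb h1]
      exact h2
    · simp [wd] at h1
  · intro h
    exact Or.inl ⟨b, hb, rfl, h⟩

theorem code_mem {i : ℕ} {v : Word} (h1 : tow i ≤ v.length) (h2 : v.length < tow (i + 1)) :
    (true :: (key i ++ v)) ∈ theA ↔ cval (fun e => 2 ^ e) v = true := by
  have hl : (true :: (key i ++ v)).length = 1 + tow i + v.length := by
    rw [List.length_cons, List.length_append, key_length]; omega
  rw [mem_theA (i := i) (by rw [hl]; exact ix_eq (by omega) (by omega))]
  have e1 : (true :: (key i ++ v)).tail.take (tow i) = key i := by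
    rw [List.tail_cons, List.take_append_of_le_length (by rw [key_length]),
      List.take_of_length_le (by rw [key_length])]
  have e2 : (true :: (key i ++ v)).tail.drop (tow i) = v := by
    rw [List.tail_cons, List.drop_append_of_le_length (by rw [key_length]),
      List.drop_of_length_le (by rw [key_length]), List.nil_append]
  rw [e1, e2]
  constructor
  · rintro (⟨b, -, h, -⟩ | ⟨-, -, h⟩)
    · simp [wd] at h
    · exact h
  · intro h
    exact Or.inr ⟨rfl, rfl, h⟩

/-! ## Hardness -/

/-- Code of a word (as a tree). -/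
def codeW (x : Word) : Word :=
  x.reverse.foldl (fun acc b => (true :: (bif b then [true, false, false] else [false])) ++ acc) [false]

theorem codeW_eq (x : Word) : codeW x = (D.ofWord x).code := by
  unfold codeW
  rw [List.foldl_reverse]
  induction x with
  | nil => rfl
  | cons b x ih =>
    rw [List.foldr_cons, ih, D.ofWord, code_cons]
    cases b <;> rfl

theorem Poly.codeW {ι : Type} [Enc ι] {x : Lang → ι → Word} (hx : Poly x) :
    Poly fun O i => MP_6b6c7c_lc.codeW (x O i) := by
  have h : Poly fun _ (x : Word) => MP_6b6c7c_lc.codeW x := by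
    unfold MP_6b6c7c_lc.codeW
    refine foldlAdd (f := fun _ (p : Word × (Word × Bool)) =>
      (true :: (bif p.2.2 then [true, false, false] else [false])) ++ p.2.1)
      (s := fun _ _ => [false]) ?_ (const _) (reverse id) ⟨30, fun O i s a => ?_⟩
    · exact append (cons (const true) (condb (snd snd') (const _) (const _))) (fst snd')
    · have h1 := sz_bool_le true
      have h2 := sz_bool_le false
      rw [eval_ofNat]
      cases a <;> simp only [cond_true, cond_false, List.cons_append, List.nil_append, sz_cons] <;>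
        omega
  exact comp h hx

/-- Instance of the universal problem. -/
def hv (dc : Word) (k c : ℕ) (x : Word) : Word :=
  (true :: (dc ++ codeW x)) ++ List.replicate (x.length ^ k + c) false

theorem Poly.pow {ι : Type} [Enc ι] {f : Lang → ι → ℕ} (hf : Poly f) (k : ℕ) :
    Poly fun O i => f O i ^ k := by
  induction k with
  | zero => exact (const 1).congr fun O i => pow_zero _
  | succ k ih => exact (mul ih hf).congr fun O i => pow_succ _ _

theorem Poly.hv {dc : Word} {k c : ℕ} : Poly fun _ x => MP_6b6c7c_lc.hv dc k c x := by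
  unfold MP_6b6c7c_lc.hv
  exact append (cons (const true) (append (const dc) (Poly.codeW id)))
    (replicate (add (Poly.pow (length id) k) (const c)) (const false))

/-- Tower number of the stage used. -/
def stg (dc : Word) (k c : ℕ) (x : Word) : ℕ :=
  (ix ((hv dc k c x).length + (hv dc k c x).length)).2

theorem Poly.stg {dc : Word} {k c : ℕ} : Poly fun _ x => MP_6b6c7c_lc.stg dc k c x :=
  snd (Poly.ix (add (length Poly.hv) (length Poly.hv)))

open Classical in
/-- The reduction. -/
noncomputable def red (dc : Word) (k c : ℕ) (O : Lang) (x : Word) : Bool :=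
  decide ((true :: (((List.range (stg dc k c x)).map fun b =>
    decide (wd (stg dc k c x) b ∈ O)) ++ hv dc k c x)) ∈ O)

open Classical in
theorem Poly.red {dc : Word} {k c : ℕ} : Poly fun O x => MP_6b6c7c_lc.red dc k c O x := by
  unfold MP_6b6c7c_lc.red
  have h : Poly fun O (p : Word × ℕ) => decide (MP_6b6c7c_lc.wd (MP_6b6c7c_lc.stg dc k c p.1) p.2 ∈ O) :=
    ask (Poly.wd (n := fun _ (p : Word × ℕ) => MP_6b6c7c_lc.stg dc k c p.1)
      (b := fun _ (p : Word × ℕ) => p.2) (comp Poly.stg fst') snd')
  exact ask (cons (const true) (append (map (f := fun O x b => decide (MP_6b6c7c_lc.wd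
    (MP_6b6c7c_lc.stg dc k c x) b ∈ O)) h (range Poly.stg)) Poly.hv))

theorem red_iff {B : Lang} {M : OTM} {k c : ℕ} (hM : M.Decides ∅ B fun n => c * 2 ^ n ^ k)
    (x : Word) : red (Enc.enc (descOf M)).code k c theA x = true ↔ x ∈ B := by
  classical
  obtain ⟨v, hv'⟩ : ∃ v, v = hv (Enc.enc (descOf M)).code k c x := ⟨_, rfl⟩
  obtain ⟨h1, h2, h3⟩ := ix_spec (v.length + v.length)
  obtain ⟨i, hi⟩ : ∃ i, i = (ix (v.length + v.length)).1 := ⟨_, rfl⟩
  rw [← hi] at h1 h2 h3
  have e1 : ((List.range (tow i)).map fun b => decide (wd (tow i) b ∈ theA)) = key i := by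
    apply List.ext_getElem
    · rw [List.length_map, List.length_range, key_length]
    · intro b hb1 hb2
      rw [List.getElem_map, List.getElem_range]
      have hb3 : b < tow i := by rwa [key_length] at hb2
      rw [Bool.eq_iff_iff, decide_eq_true_iff, wd_mem hb3]
      simp [hb2]
  have e2 : red (Enc.enc (descOf M)).code k c theA x = true ↔ (true :: (key i ++ v)) ∈ theA := by
    unfold red stg
    rw [← hv', h1, decide_eq_true_iff]
    rw [show ((List.range (tow i)).map fun b => decide (wd (tow i) b ∈ theA)) = key i from e1]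
  rw [e2, code_mem (by omega) (by omega)]
  have e3 : v = (Enc.enc (descOf M, x) : D).code ++ List.replicate (x.length ^ k + c) false := by
    rw [hv', hv, codeW_eq, ← enc_word]
    rfl
  have e4 : x.length ^ k + c ≤ v.length := by
    rw [e3, List.length_append, List.length_replicate]
    omega
  have e5 : (Enc.dec (parse v) : Desc × Word) = (descOf M, x) := by
    rw [e3, parse_code, Enc.dec_enc]
  have e6 : c * 2 ^ x.length ^ k ≤ 2 ^ v.length := by
    calc c * 2 ^ x.length ^ k ≤ 2 ^ c * 2 ^ x.length ^ k :=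
          Nat.mul_le_mul_right _ Nat.lt_two_pow_self.le
      _ = 2 ^ (x.length ^ k + c) := by rw [pow_add, mul_comm]
      _ ≤ 2 ^ v.length := Nat.pow_le_pow_right (by norm_num) e4
  rw [cval, e5, simAcc_empty]
  obtain ⟨h4, h5⟩ := hM x
  constructor
  · intro h
    by_contra hx
    have h6 := h5 hx
    have h7 := after_mono M ∅ x e6 (Or.inr h6)
    rw [OTM.Accepts, h7] at h
    rw [OTM.Rejects, h] at h6
    exact absurd h6 (by simp)
  · intro hx
    have h6 := h4 hx
    have h7 := after_mono M ∅ x e6 (Or.inl h6)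
    rw [OTM.Accepts, h7]
    exact h6

theorem theA_hard (B : Lang) (hB : InEXP B) : TRed B theA := by
  obtain ⟨M, k, c, hM⟩ := hB
  obtain ⟨R, e, hR, hR'⟩ := machine (Poly.red (dc := (Enc.enc (descOf M)).code) (k := k) (c := c))
  refine ⟨R, e, hR, ?_⟩
  have h := hR' theA
  have e1 : {x | red (Enc.enc (descOf M)).code k c theA x = true} = B := by
    ext x
    exact red_iff hM x
  rw [e1] at h
  exact h

theorem theA_complete : TComplete theA := ⟨theA_inEXP, theA_hard⟩

end Pool.Agent.Lib.MP_6b6c7c_lc
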