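import Mathlib

/-! # Oracle Turing machines, P, EXP, Turing reductions and mitoticity -/

namespace Pool.Agent.Lib.MP_6b6c7c_lc

/-- Words over the alphabet `{0,1}`. -/
abbrev Word := List Bool

/-- Languages (sets of words). -/
abbrev Lang := Set Word

/-- Head movements. -/
inductive Move
  | left
  | stay
  | right
  deriving DecidableEq

/-- A two-way infinite tape, seen from its head: `t i` is the symbol in the cell that lies `i`
places to the right of the scanned cell (to the left for negative `i`); `none` is the blank. -/
abbrev Tape := ℤ → Option Bool

/-- The tape that holds the word `w`, its first symbol being scanned, and is blank elsewhere. -/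
def Tape.ofWord (w : Word) : Tape := fun i => if 0 ≤ i then w[i.toNat]? else none

/-- Write the symbol `s` in the scanned cell, then move the head. -/
def Tape.act (t : Tape) (s : Option Bool) : Move → Tape
  | .left => fun i => Function.update t 0 s (i - 1)
  | .stay => Function.update t 0 s
  | .right => fun i => Function.update t 0 s (i + 1)

/-- The word written on the tape from the scanned cell rightwards to the first blank is `w`. -/
def Tape.Holds (t : Tape) (w : Word) : Prop := ∀ i : ℕ, i ≤ w.length → t i = w[i]?

/-- The instruction attached to a state of a machine with `k` tapes and `n` states: an ordinary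
transition (new state and, for each tape, symbol written and head movement, as a function of the
scanned symbols), an oracle query with its two successor states, or a halting instruction. -/
inductive Instr (k n : ℕ)
  | act (δ : (Fin k → Option Bool) → Fin n × (Fin k → Option Bool × Move))
  | query (yes no : Fin n)
  | accept
  | reject

/-- Deterministic multitape oracle Turing machines over the tape alphabet `{0, 1, blank}`. Tape `0`
is the input tape, tape `1` is the oracle tape, and there are `k` further tapes. -/
structure OTM where
  /-- number of further tapes -/
  k : ℕ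
  /-- number of states -/
  n : ℕ
  /-- initial state -/
  start : Fin n
  /-- the instruction of each state -/
  prog : Fin n → Instr (k + 2) n

/-- Configurations of a machine. -/
structure OTM.Cfg (M : OTM) where
  /-- current state -/
  state : Fin M.n
  /-- current tapes -/
  tape : Fin (M.k + 2) → Tape

/-- Initial configuration on input `x`: the input tape holds `x`, all other tapes are blank. -/
def OTM.init (M : OTM) (x : Word) : M.Cfg :=
  ⟨M.start, fun i => if i = 0 then Tape.ofWord x else Tape.ofWord []⟩

open Classical in
/-- One step with oracle `O`. In a query state the machine asks whether the word held by the oracle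
tape belongs to `O`; halting configurations do not change. -/
noncomputable def OTM.step (M : OTM) (O : Lang) (c : M.Cfg) : M.Cfg :=
  match M.prog c.state with
  | .act δ =>
      ⟨(δ fun i => c.tape i 0).1,
        fun i => (c.tape i).act ((δ fun i => c.tape i 0).2 i).1 ((δ fun i => c.tape i 0).2 i).2⟩
  | .query yes no => ⟨if ∃ w ∈ O, (c.tape 1).Holds w then yes else no, c.tape⟩
  | .accept => c
  | .reject => c

/-- The configuration reached after `t` steps on input `x` with oracle `O`. -/
noncomputable def OTM.after (M : OTM) (O : Lang) (x : Word) (t : ℕ) : M.Cfg :=
  (M.step O)^[t] (M.init x)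

/-- With oracle `O`, machine `M` accepts `x` within `t` steps. -/
def OTM.Accepts (M : OTM) (O : Lang) (x : Word) (t : ℕ) : Prop :=
  M.prog (M.after O x t).state = .accept

/-- With oracle `O`, machine `M` rejects `x` within `t` steps. -/
def OTM.Rejects (M : OTM) (O : Lang) (x : Word) (t : ℕ) : Prop :=
  M.prog (M.after O x t).state = .reject

/-- Machine `M` with oracle `O` decides `L` in time `T`: every word `x` is accepted or rejected
within `T |x|` steps, according to whether `x ∈ L` or not. -/
def OTM.Decides (M : OTM) (O L : Lang) (T : ℕ → ℕ) : Prop :=
  ∀ x : Word, (x ∈ L → M.Accepts O x (T x.length)) ∧ (x ∉ L → M.Rejects O x (T x.length))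

/-- The class P: languages decided in polynomial time without an oracle (empty oracle). -/
def InP (L : Lang) : Prop := ∃ (M : OTM) (c : ℕ), M.Decides ∅ L fun n => n ^ c + c

/-- The class EXP, the union over `k` of DTIME(2^(n^k)). -/
def InEXP (L : Lang) : Prop :=
  ∃ (M : OTM) (k c : ℕ), M.Decides ∅ L fun n => c * 2 ^ n ^ k

/-- Polynomial-time oracle machines: for some `c`, every input `x` is accepted or rejected within
`|x|^c + c` steps, whatever the oracle is. -/
def OTM.PolyTime (M : OTM) (c : ℕ) : Prop :=
  ∀ (O : Lang) (x : Word), M.Accepts O x (x.length ^ c + c) ∨ M.Rejects O x (x.length ^ c + c)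

/-- `A` is polynomial-time Turing reducible to `B`. -/
def TRed (A B : Lang) : Prop :=
  ∃ (M : OTM) (c : ℕ), M.PolyTime c ∧ M.Decides B A fun n => n ^ c + c

/-- Polynomial-time Turing equivalence. -/
def TEquiv (A B : Lang) : Prop := TRed A B ∧ TRed B A

/-- `A` is polynomial-time Turing complete for EXP. -/
def TComplete (A : Lang) : Prop := InEXP A ∧ ∀ B : Lang, InEXP B → TRed B A

/-- `A` is polynomial-time Turing mitotic: some set `S` in P splits `A` into two parts, both
equivalent to `A`. -/
def TMitotic (A : Lang) : Prop :=
  ∃ S : Lang, InP S ∧ TEquiv A (A ∩ S) ∧ TEquiv (A ∩ S) (A ∩ Sᶜ) ∧ TEquiv A (A ∩ Sᶜ)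

end Pool.Agent.Lib.MP_6b6c7c_lc
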