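import Pool.Agent.Lib.MP_6b6c7c_lc.Stack

/-! # Binary trees on the main stack -/

namespace Pool.Agent.Lib.MP_6b6c7c_lc

/-- Binary trees. -/
inductive D
  | nil
  | cons (a b : D)
  deriving DecidableEq

namespace D

/-- Self-delimiting code of a tree. -/
def code : D → Word
  | nil => [false]
  | cons a b => true :: (a.code ++ b.code)

def size (t : D) : ℕ := t.code.length

@[simp] theorem size_nil : nil.size = 1 := rfl

@[simp] theorem size_cons (a b : D) : (cons a b).size = a.size + b.size + 1 := by
  simp [size, code]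

theorem size_pos (t : D) : 0 < t.size := by cases t <;> simp

def hd : D → D
  | nil => nil
  | cons a _ => a

def tl : D → D
  | nil => nil
  | cons _ b => b

/-- Elements on the spine. -/
def toList : D → List D
  | nil => []
  | cons a b => a :: b.toList

/-- The tree as a word: which elements of the spine are non-empty. -/
def word : D → Word
  | nil => []
  | cons a b => (!decide (a = nil)) :: b.word

/-- Tree `one`. -/
def one : D := cons nil nil

def ofBool : Bool → D
  | true => one
  | false => nil

def ofWord : Word → D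
  | [] => nil
  | x :: w => cons (ofBool x) (ofWord w)

end D

theorem Runs.congr {O : Lang} {p : Prog} {σ σ₁ σ₂ : St} {n : ℕ} (h : Runs O p σ n σ₁)
    (e : σ₁ = σ₂) : Runs O p σ n σ₂ := e ▸ h

theorem Runs.congr' {O : Lang} {p : Prog} {σ σ₁ σ₂ : St} {n m : ℕ} (h : Runs O p σ n σ₁)
    (hn : n ≤ m) (e : σ₁ = σ₂) : Runs O p σ m σ₂ := e ▸ h.mono hn

section Basic

variable {O : Lang}

/-- Return to the head of a loop. -/
def Back (O : Lang) (L : Prog) (σ : St) (n : ℕ) (σ' : St) : Prop :=
  ∀ K, ∃ t ≤ n, (sstep O)^[t] (L :: K, σ) = (L :: K, σ')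

theorem Back.trans {L : Prog} {σ σ₁ σ₂ : St} {n m : ℕ} (h₁ : Back O L σ n σ₁)
    (h₂ : Back O L σ₁ m σ₂) : Back O L σ (n + m) σ₂ := by
  intro K
  obtain ⟨t₁, ht₁, e₁⟩ := h₁ K
  obtain ⟨t₂, ht₂, e₂⟩ := h₂ K
  exact ⟨t₂ + t₁, by omega, by rw [Function.iterate_add_apply, e₁, e₂]⟩

theorem Back.mono {L : Prog} {σ σ₁ : St} {n m : ℕ} (h₁ : Back O L σ n σ₁) (h : n ≤ m) :
    Back O L σ m σ₁ := by
  intro K
  obtain ⟨t₁, ht₁, e₁⟩ := h₁ K
  exact ⟨t₁, ht₁.trans h, e₁⟩

theorem Back.congr' {L : Prog} {σ σ₁ σ₂ : St} {n m : ℕ} (h₁ : Back O L σ n σ₁) (h : n ≤ m)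
    (e : σ₁ = σ₂) : Back O L σ m σ₂ := e ▸ h₁.mono h

theorem Back.refl {L : Prog} {σ : St} : Back O L σ 0 σ := fun _ => ⟨0, le_rfl, rfl⟩

theorem Back.body {s : Sk} {c : Option Bool → Bool} {p : Prog} {σ σ₁ : St} {n : ℕ}
    (hc : c (σ.get s).head? = true) (h : Runs O p σ n σ₁) :
    Back O (.loop s c p) σ (n + 1) σ₁ := by
  intro K
  obtain ⟨t, ht, e⟩ := h (.loop s c p :: K)
  refine ⟨t + 1, by omega, ?_⟩
  rw [Function.iterate_succ_apply]
  have : sstep O (.loop s c p :: K, σ) = (p :: .loop s c p :: K, σ) := by simp [sstep, hc]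
  rw [this, e]

theorem Back.runs {L : Prog} {σ σ₁ σ₂ : St} {n m : ℕ} (h₁ : Back O L σ n σ₁)
    (h₂ : Runs O L σ₁ m σ₂) : Runs O L σ (n + m) σ₂ := by
  intro K
  obtain ⟨t₁, ht₁, e₁⟩ := h₁ K
  obtain ⟨t₂, ht₂, e₂⟩ := h₂ K
  exact ⟨t₂ + t₁, by omega, by rw [Function.iterate_add_apply, e₁, e₂]⟩

/-- top is `true` -/
def isT (o : Option Bool) : Bool := o == some true

def grabBody (s d : Sk) : Prog :=
  .seq (.pop .n) (.ite s isT
    (.seq (.pop s) (.seq (.push d true) (.seq (.push .n true) (.push .n true))))
    (.seq (.pop s) (.push d false)))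

/-- Move one item from stack `s` to stack `d` (reversed). -/
def grab (s d : Sk) : Prog := .seq (.push .n true) (.loop .n Option.isSome (grabBody s d))

theorem grab_back {s d : Sk} (hsd : s ≠ d) (hsn : s ≠ .n) (hdn : d ≠ .n) (t : D) :
    ∀ (σ : St) (rest N : Word), σ.get s = t.code ++ rest → σ.n = true :: N →
      Back O (.loop .n Option.isSome (grabBody s d)) σ (11 * t.size)
        (((σ.set s rest).set d (t.code.reverse ++ σ.get d)).set .n N) := by
  induction t with
  | nil =>
    intro σ rest N h1 h2
    have e : Runs O (grabBody s d) σ 10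
        (((σ.set s rest).set d (D.nil.code.reverse ++ σ.get d)).set .n N) := by
      have := Runs.seq (Runs.pop (O := O) (σ := σ) .n) (Runs.ite_false (s := s) (c := isT)
        (p := (.seq (.pop s) (.seq (.push d true) (.seq (.push .n true) (.push .n true)))))
        (q := (.seq (.pop s) (.push d false)))
        (by
          rw [get_set, if_neg hsn, h1]
          simp [D.code, isT])
        (Runs.seq (Runs.pop s) (Runs.push d false)))
      refine (this.mono (by norm_num)).congr ?_
      rcases s <;> rcases d <;> simp_all [St.set, St.get, D.code]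
    exact Back.body (by simp [St.get, h2]) e
  | cons a b iha ihb =>
    intro σ rest N h1 h2
    set σ1 : St := ((σ.set s (a.code ++ (b.code ++ rest))).set d (true :: σ.get d)).set .n
      (true :: true :: N) with hσ1
    have e : Runs O (grabBody s d) σ 10 σ1 := by
      have := Runs.seq (Runs.pop (O := O) (σ := σ) .n) (Runs.ite_true (s := s) (c := isT)
        (p := (.seq (.pop s) (.seq (.push d true) (.seq (.push .n true) (.push .n true)))))
        (q := (.seq (.pop s) (.push d false)))
        (by
          rw [get_set, if_neg hsn, h1]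
          simp [D.code, isT])
        (Runs.seq (Runs.pop s) (Runs.seq (Runs.push d true)
          (Runs.seq (Runs.push .n true) (Runs.push .n true)))))
      refine (this.mono (by norm_num)).congr ?_
      rw [hσ1]
      rcases s <;> rcases d <;> simp_all [St.set, St.get, D.code]
    have e1 := Back.body (O := O) (s := .n) (c := Option.isSome) (by simp [St.get, h2]) e
    have e2 := iha σ1 (b.code ++ rest) (true :: N)
      (by rw [hσ1]; rcases s <;> rcases d <;> simp_all [St.set, St.get])
      (by rw [hσ1]; simp [St.set])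
    set σ2 := (((σ1.set s (b.code ++ rest)).set d (a.code.reverse ++ σ1.get d)).set .n
      (true :: N)) with hσ2
    have e3 := ihb σ2 rest N
      (by rw [hσ2]; rcases s <;> rcases d <;> simp_all [St.set, St.get])
      (by rw [hσ2]; simp [St.set])
    refine ((e1.trans e2).trans e3).congr' (by rw [D.size_cons]; omega) ?_
    rw [hσ2, hσ1]
    rcases s <;> rcases d <;> simp_all [St.set, St.get, D.code]

theorem grab_runs {s d : Sk} (hsd : s ≠ d) (hsn : s ≠ .n) (hdn : d ≠ .n) (t : D)
    (σ : St) (rest : Word) (h : σ.get s = t.code ++ rest) (hn : σ.n = []) :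
    Runs O (grab s d) σ (11 * t.size + 3)
      ((σ.set s rest).set d (t.code.reverse ++ σ.get d)) := by
  have h1 := grab_back (O := O) hsd hsn hdn t (σ.set .n [true]) rest []
    (by rw [get_set, if_neg hsn, h]) (by simp [St.set])
  have h2 := h1.runs (Runs.loop_false (by rcases s <;> rcases d <;> simp_all [St.set, St.get]))
  have e : (σ.set .n (true :: σ.get .n)) = σ.set .n [true] := by simp [St.get, hn]
  have h4 := Runs.seq ((Runs.push (O := O) (σ := σ) .n true).congr e) h2
  refine h4.congr' (by omega) ?_
  rcases s <;> rcases d <;> simp_all [St.set, St.get]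

/-- Move the whole content of `s` to `d` (reversed). -/
def pour (s d : Sk) : Prog := .loop s Option.isSome (.ite s isT
  (.seq (.pop s) (.push d true)) (.seq (.pop s) (.push d false)))

theorem pour_runs {s d : Sk} (hsd : s ≠ d) (w : Word) : ∀ (σ : St), σ.get s = w →
    Runs O (pour s d) σ (5 * w.length + 1) ((σ.set s []).set d (w.reverse ++ σ.get d)) := by
  induction w with
  | nil =>
    intro σ h
    refine (Runs.loop_false (by simp [h])).congr' (by simp) ?_
    obtain ⟨sm, sq, sr, sa, sb, sn⟩ := σ
    rcases s <;> rcases d <;> simp_all [St.set, St.get]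
  | cons x w ih =>
    intro σ h
    have h1 : Runs O (.ite s isT
        (.seq (.pop s) (.push d true)) (.seq (.pop s) (.push d false))) σ 4
        ((σ.set s w).set d (x :: σ.get d)) := by
      cases x with
      | true =>
        refine (Runs.ite_true (by simp [h, isT]) (Runs.seq (Runs.pop s) (Runs.push d true))).congr' (by norm_num) ?_
        rcases s <;> rcases d <;> simp_all [St.set, St.get]
      | false =>
        refine (Runs.ite_false (by simp [h, isT]) (Runs.seq (Runs.pop s) (Runs.push d false))).congr' (by norm_num) ?_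
        rcases s <;> rcases d <;> simp_all [St.set, St.get]
    have h2 := Runs.loop_true (by simp [h]) h1 (ih ((σ.set s w).set d (x :: σ.get d))
      (by rcases s <;> rcases d <;> simp_all [St.set, St.get]))
    refine h2.congr' (by simp only [List.length_cons]; omega) ?_
    rcases s <;> rcases d <;> simp_all [St.set, St.get]

/-- Empty the stack `s`. -/
def clear (s : Sk) : Prog := .loop s Option.isSome (.pop s)

theorem clear_runs {s : Sk} (w : Word) : ∀ (σ : St), σ.get s = w →
    Runs O (clear s) σ (2 * w.length + 1) (σ.set s []) := by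
  induction w with
  | nil =>
    intro σ h
    refine (Runs.loop_false (by simp [h])).congr' (by simp) ?_
    obtain ⟨sm, sq, sr, sa, sb, sn⟩ := σ
    rcases s <;> simp_all [St.set, St.get]
  | cons x w ih =>
    intro σ h
    have h2 := Runs.loop_true (c := Option.isSome) (by simp [h]) (Runs.pop (O := O) (σ := σ) s)
      (ih (σ.set s (σ.get s).tail) (by rcases s <;> simp_all [St.set, St.get]))
    refine h2.congr' (by simp only [List.length_cons]; omega) ?_
    rcases s <;> simp_all [St.set, St.get]

variable {m q r a b n : Word}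

theorem grab_ma (t : D) : Runs O (grab .m .a) ⟨t.code ++ m, q, r, a, b, []⟩ (11 * t.size + 3)
    ⟨m, q, r, t.code.reverse ++ a, b, []⟩ :=
  grab_runs (by simp) (by simp) (by simp) t _ m rfl rfl

theorem grab_mb (t : D) : Runs O (grab .m .b) ⟨t.code ++ m, q, r, a, b, []⟩ (11 * t.size + 3)
    ⟨m, q, r, a, t.code.reverse ++ b, []⟩ :=
  grab_runs (by simp) (by simp) (by simp) t _ m rfl rfl

theorem grab_ra (t : D) : Runs O (grab .r .a) ⟨m, q, t.code ++ r, a, b, []⟩ (11 * t.size + 3)
    ⟨m, q, r, t.code.reverse ++ a, b, []⟩ :=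
  grab_runs (by simp) (by simp) (by simp) t _ r rfl rfl

theorem pour_am : Runs O (pour .a .m) ⟨m, q, r, a, b, n⟩ (5 * a.length + 1)
    ⟨a.reverse ++ m, q, r, [], b, n⟩ := pour_runs (by simp) a _ rfl

theorem pour_ma : Runs O (pour .m .a) ⟨m, q, r, a, b, n⟩ (5 * m.length + 1)
    ⟨[], q, r, m.reverse ++ a, b, n⟩ := pour_runs (by simp) m _ rfl

theorem pour_bm : Runs O (pour .b .m) ⟨m, q, r, a, b, n⟩ (5 * b.length + 1)
    ⟨b.reverse ++ m, q, r, a, [], n⟩ := pour_runs (by simp) b _ rfl

theorem pour_ar : Runs O (pour .a .r) ⟨m, q, r, a, b, n⟩ (5 * a.length + 1)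
    ⟨m, q, a.reverse ++ r, [], b, n⟩ := pour_runs (by simp) a _ rfl

theorem pour_ba : Runs O (pour .b .a) ⟨m, q, r, a, b, n⟩ (5 * b.length + 1)
    ⟨m, q, r, b.reverse ++ a, [], n⟩ := pour_runs (by simp) b _ rfl

theorem pour_bq : Runs O (pour .b .q) ⟨m, q, r, a, b, n⟩ (5 * b.length + 1)
    ⟨m, b.reverse ++ q, r, a, [], n⟩ := pour_runs (by simp) b _ rfl

/-! ## Main and return stack -/

/-- State with main stack `m` and return stack `r`, all other stacks being empty. -/
def mk (m r : Word) : St := ⟨m, [], r, [], [], []⟩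

def toR : Prog := .seq (grab .m .a) (pour .a .r)

theorem toR_runs (t : D) : Runs O toR (mk (t.code ++ m) r) (16 * t.size + 5)
    (mk m (t.code ++ r)) := by
  refine (Runs.seq (grab_ma t) pour_ar).congr' ?_ (by simp [mk])
  simp only [List.length_append, List.length_reverse, List.length_nil, D.size]
  omega

def fromR : Prog := .seq (grab .r .a) (pour .a .m)

theorem fromR_runs (t : D) : Runs O fromR (mk m (t.code ++ r)) (16 * t.size + 5)
    (mk (t.code ++ m) r) := by
  refine (Runs.seq (grab_ra t) pour_am).congr' ?_ (by simp [mk])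
  simp only [List.length_append, List.length_reverse, List.length_nil, D.size]
  omega

def swap : Prog := .seq (grab .m .a) (.seq (grab .m .b) (.seq (pour .a .m) (pour .b .m)))

theorem swap_runs (s t : D) : Runs O swap (mk (s.code ++ (t.code ++ m)) r)
    (16 * (s.size + t.size) + 11) (mk (t.code ++ (s.code ++ m)) r) := by
  refine (Runs.seq (grab_ma s) (Runs.seq (grab_mb t) (Runs.seq pour_am pour_bm))).congr' ?_
    (by simp [mk])
  simp only [List.length_append, List.length_reverse, List.length_nil, D.size]
  omega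

def drop : Prog := .seq (grab .m .a) (clear .a)

theorem clear_a : Runs O (clear .a) ⟨m, q, r, a, b, n⟩ (2 * a.length + 1)
    ⟨m, q, r, [], b, n⟩ := clear_runs a _ rfl

theorem clear_b : Runs O (clear .b) ⟨m, q, r, a, b, n⟩ (2 * b.length + 1)
    ⟨m, q, r, a, [], n⟩ := clear_runs b _ rfl

theorem clear_n : Runs O (clear .n) ⟨m, q, r, a, b, n⟩ (2 * n.length + 1)
    ⟨m, q, r, a, b, []⟩ := clear_runs n _ rfl

theorem clear_q : Runs O (clear .q) ⟨m, q, r, a, b, n⟩ (2 * q.length + 1)
    ⟨m, [], r, a, b, n⟩ := clear_runs q _ rfl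

theorem drop_runs (t : D) : Runs O drop (mk (t.code ++ m) r) (16 * t.size + 5) (mk m r) := by
  refine (Runs.seq (grab_ma t) clear_a).congr' ?_ (by simp [mk])
  simp only [List.length_append, List.length_reverse, List.length_nil, D.size]
  omega

/-- Move the content of `a` to both `m` and `b`. -/
def pour2 : Prog := .loop .a Option.isSome (.ite .a isT
  (.seq (.pop .a) (.seq (.push .m true) (.push .b true)))
  (.seq (.pop .a) (.seq (.push .m false) (.push .b false))))

theorem pour2_runs (w : Word) : ∀ m b : Word, Runs O pour2 ⟨m, q, r, w, b, n⟩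
    (7 * w.length + 1) ⟨w.reverse ++ m, q, r, [], w.reverse ++ b, n⟩ := by
  induction w with
  | nil =>
    intro m b
    exact (Runs.loop_false (by simp [St.get])).congr' (by simp) (by simp)
  | cons x w ih =>
    intro m b
    have h1 : Runs O (.ite .a isT
        (.seq (.pop .a) (.seq (.push .m true) (.push .b true)))
        (.seq (.pop .a) (.seq (.push .m false) (.push .b false)))) ⟨m, q, r, x :: w, b, n⟩ 6
        ⟨x :: m, q, r, w, x :: b, n⟩ := by
      cases x with
      | true =>
        exact (Runs.ite_true (by simp [St.get, isT]) (Runs.seq (Runs.pop .a)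
          (Runs.seq (Runs.push .m true) (Runs.push .b true)))).congr' (by norm_num)
          (by simp [St.get, St.set])
      | false =>
        exact (Runs.ite_false (by simp [St.get, isT]) (Runs.seq (Runs.pop .a)
          (Runs.seq (Runs.push .m false) (Runs.push .b false)))).congr' (by norm_num)
          (by simp [St.get, St.set])
    have h2 := Runs.loop_true (s := .a) (c := Option.isSome) (by simp [St.get]) h1
      (ih (x :: m) (x :: b))
    exact h2.congr' (by simp only [List.length_cons]; omega) (by simp)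

def dup : Prog := .seq (grab .m .a) (.seq pour2 (.seq (pour .b .a) (pour .a .m)))

theorem dup_runs (t : D) : Runs O dup (mk (t.code ++ m) r) (30 * t.size + 10)
    (mk (t.code ++ (t.code ++ m)) r) := by
  refine (Runs.seq (grab_ma t) (Runs.seq (pour2_runs _ _ _) (Runs.seq pour_ba pour_am))).congr'
    ?_ (by simp [mk])
  simp only [List.length_append, List.length_reverse, List.length_nil, D.size]
  omega

/-- Do nothing. -/
def nop : Prog := .loop .a (fun _ => false) (.pop .a)

theorem nop_run {σ : St} : Runs O nop σ 1 σ := Runs.loop_false rfl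

/-- Push a word. -/
def pushW : Word → Prog
  | [] => nop
  | x :: w => .seq (pushW w) (.push .m x)

theorem pushW_run (w : Word) : Runs O (pushW w) ⟨m, q, r, a, b, n⟩ (2 * w.length + 1)
    ⟨w ++ m, q, r, a, b, n⟩ := by
  induction w with
  | nil => exact nop_run.congr' (by simp) (by simp)
  | cons x w ih =>
    exact (Runs.seq ih (Runs.push .m x)).congr' (by simp only [List.length_cons]; omega)
      (by simp [St.set, St.get])

theorem pushW_runs (w : Word) : Runs O (pushW w) (mk m r) (2 * w.length + 1) (mk (w ++ m) r) :=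
  pushW_run w

end Basic

end Pool.Agent.Lib.MP_6b6c7c_lc
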