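import Pool.Agent.Lib.MP_6b6c7c_lc.Stage

/-! # Properties of the keys -/

namespace Pool.Agent.Lib.MP_6b6c7c_lc

open Polynomial

theorem skey_length (pw : ℕ → ℕ) (n : ℕ) (K : List Word) : (skey pw n K).length = n := by
  unfold skey
  rcases h : (cands pw n).find? (fun κ => valid pw n K κ && !(hit pw n K κ)) with _ | κ
  · simp
  · have h1 := List.mem_of_find?_eq_some h
    rw [Option.getD_some]
    unfold cands at h1
    rw [List.mem_map] at h1
    obtain ⟨t, -, rfl⟩ := h1
    simp

theorem keys_succ (pw : ℕ → ℕ) (i : ℕ) : keys pw (i + 1) = kstep pw (keys pw i) :=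
  Function.iterate_succ_apply' _ _ _

theorem keys_length (pw : ℕ → ℕ) (i : ℕ) : (keys pw i).2.length = i := by
  induction i with
  | zero => rfl
  | succ i ih => rw [keys_succ, kstep, List.length_append, ih]; rfl

theorem sz_word_le (w : Word) : sz w ≤ 4 * w.length + 1 := by
  induction w with
  | nil => exact le_rfl
  | cons b w ih =>
    have := Poly.sz_bool_le b
    rw [sz_cons, List.length_cons]
    omega

theorem sz_words_le (N : ℕ) (K : List Word) (h : ∀ w ∈ K, w.length ≤ N) :
    sz K ≤ (4 * N + 2) * K.length + 1 := by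
  induction K with
  | nil => exact le_rfl
  | cons w K ih =>
    have h1 := ih fun v hv => h v (List.mem_cons_of_mem _ hv)
    have h2 := h w List.mem_cons_self
    have h3 := sz_word_le w
    rw [sz_cons, List.length_cons, Nat.mul_succ]
    omega

theorem keys_bound (N i : ℕ) : (keys (pwt N) i).1 ≤ N ∧ ∀ w ∈ (keys (pwt N) i).2, w.length ≤ N := by
  induction i with
  | zero => exact ⟨Nat.zero_le _, fun w hw => by simp [keys] at hw⟩
  | succ i ih =>
    rw [keys_succ, kstep]
    refine ⟨pwt_le _ _, fun w hw => ?_⟩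
    simp only [List.mem_append, List.mem_singleton] at hw
    rcases hw with hw | rfl
    · exact ih.2 w hw
    · rw [skey_length]
      exact ih.1

theorem Poly.keys {ι : Type} [Enc ι] {N k : Lang → ι → ℕ} (hN : Poly N) (hk : Poly k) :
    Poly fun O i => MP_6b6c7c_lc.keys (MP_6b6c7c_lc.pwt (N O i)) (k O i) := by
  have h : Poly fun _ (p : ℕ × ℕ) => (kstep (MP_6b6c7c_lc.pwt p.1))^[p.2] (0, []) := by
    refine iterBd (f := fun _ (p : ℕ × ℕ) s => kstep (MP_6b6c7c_lc.pwt p.1) s)
      (s := fun _ _ => (0, [])) ?_ (const _) snd' ⟨X + (4 * X + 2) * X + 2, fun O i j hj => ?_⟩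
    · have h1 : Poly fun _ (p : (ℕ × ℕ) × (ℕ × List Word)) => MP_6b6c7c_lc.pwt p.1.1 p.2.1 :=
        Poly.pwt (fst fst') (fst snd')
      have h2 : Poly fun _ (p : (ℕ × ℕ) × (ℕ × List Word)) => MP_6b6c7c_lc.skey
          (MP_6b6c7c_lc.pwt p.1.1) p.2.1 p.2.2 :=
        Poly.skey (fst fst') (fst snd') (snd snd')
      exact pair h1 (append (snd snd') (cons h2 (const [])))
    · obtain ⟨N, k⟩ := i
      have h1 := keys_bound N j
      have h2 := keys_length (MP_6b6c7c_lc.pwt N) j
      have h3 := sz_words_le N _ h1.2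
      rw [h2] at h3
      have e : (fun s => kstep (MP_6b6c7c_lc.pwt N) s)^[j] (0, []) =
        MP_6b6c7c_lc.keys (MP_6b6c7c_lc.pwt N) j := rfl
      simp only at hj ⊢
      rw [e]
      have h4 : sz (MP_6b6c7c_lc.keys (MP_6b6c7c_lc.pwt N) j) =
          sz (MP_6b6c7c_lc.keys (MP_6b6c7c_lc.pwt N) j).1 +
          sz (MP_6b6c7c_lc.keys (MP_6b6c7c_lc.pwt N) j).2 + 1 := sz_pair _ _
      rw [h4, sz_nat]
      simp only [eval_add, eval_mul, eval_X, eval_ofNat, sz_pair, sz_nat]
      have h5 : (4 * N + 2) * j ≤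
          (4 * (2 * N + 1 + (2 * k + 1) + 1) + 2) * (2 * N + 1 + (2 * k + 1) + 1) :=
        Nat.mul_le_mul (by omega) (by omega)
      have := h1.1
      omega
  exact comp h (pair hN hk)

/-- The whole computation, from the input and a truncation bound. -/
def theF (x : Word) (N : ℕ) : Bool := inA (pwt N) (keys (pwt N) ((ix x.length).1 + 1)).2 x

theorem Poly.theF {ι : Type} [Enc ι] {x : Lang → ι → Word} {N : Lang → ι → ℕ} (hx : Poly x)
    (hN : Poly N) : Poly fun O i => MP_6b6c7c_lc.theF (x O i) (N O i) :=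
  Poly.inA hN (Poly.snd (Poly.keys hN (Poly.succ (Poly.fst (Poly.ix (Poly.length hx)))))) hx

/-! ## Independence of the truncation -/

theorem inA_congr {pw pw' : ℕ → ℕ} {K : List Word} {z : Word}
    (h : (ix z.length).1 < K.length → ∀ e ≤ z.length, pw e = pw' e) :
    inA pw K z = inA pw' K z := by
  unfold inA
  rcases hK : K[(ix z.length).1]? with _ | κ
  · rfl
  · have h1 : (ix z.length).1 < K.length := by
      by_contra hn
      rw [List.getElem?_eq_none (by omega)] at hK
      exact absurd hK (by simp)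
    have h2 : cval pw (z.tail.drop (ix z.length).2) = cval pw' (z.tail.drop (ix z.length).2) := by
      unfold cval
      rw [h h1 _ (by rw [List.length_drop, List.length_tail]; omega)]
    simp only [Option.elim_some, h2]

theorem ansF_congr {pw pw' : ℕ → ℕ} {n : ℕ} {K : List Word} (hn : n = tow K.length)
    (h : ∀ e ≤ 2 * n, pw e = pw' e) : ansF pw n K = ansF pw' n K := by
  funext z
  unfold ansF
  have h1 : tm pw n = tm pw' n := by
    unfold tm
    exact h _ (by omega)
  rw [h1, inA_congr]
  intro h2 e he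
  refine h e ?_
  obtain ⟨-, -, h3⟩ := ix_spec z.length
  have h4 : tow ((ix z.length).1 + 1) ≤ tow K.length := tow_strictMono.monotone h2
  omega

theorem skey_congr {pw pw' : ℕ → ℕ} {n : ℕ} {K : List Word} (hn : n = tow K.length)
    (h : ∀ e ≤ 2 * n, pw e = pw' e) : skey pw n K = skey pw' n K := by
  have h1 : tm pw n = tm pw' n := by
    unfold tm
    exact h _ (by omega)
  have h2 := ansF_congr hn h
  have h3 : dm pw n K = dm pw' n K := by unfold dm; rw [h1]
  have h4 : b0 pw n K = b0 pw' n K := by unfold b0; rw [h1]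
  have h5 : outc pw n K = outc pw' n K := by unfold outc; rw [h1, h2, h3, h4]
  have h6 : cands pw n = cands pw' n := by unfold cands; rw [h n (by omega)]
  have h7 : valid pw n K = valid pw' n K := by funext κ; unfold valid; rw [h1, h4, h5]
  have h8 : hit pw n K = hit pw' n K := by funext κ; unfold hit; rw [h1, h2, h3, h4]
  unfold skey
  rw [h6, h7, h8]

theorem keys_congr {pw : ℕ → ℕ} (i : ℕ) (h : ∀ e < 2 * tow i, pw e = 2 ^ e) :
    (keys pw i).1 = tow i ∧ (keys pw i).2 = (keys (fun e => 2 ^ e) i).2 := by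
  induction i with
  | zero => exact ⟨rfl, rfl⟩
  | succ i ih =>
    have h0 := tow_lt_succ i
    obtain ⟨h1, h2⟩ := ih fun e he => h e (by omega)
    have h3 : (keys (fun e => 2 ^ e) i).1 = tow i := by
      clear * -
      induction i with
      | zero => rfl
      | succ i ih => rw [keys_succ, kstep, ih]; rfl
    rw [keys_succ, keys_succ, kstep, kstep]
    simp only [h1, h2, h3]
    refine ⟨h _ (by omega), ?_⟩
    congr 2
    refine skey_congr (by rw [keys_length]) fun e he => h e ?_
    omega

theorem keys_fst (i : ℕ) : (keys (fun e => 2 ^ e) i).1 = tow i := (keys_congr i fun _ _ => rfl).1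

theorem theF_eq (x : Word) (N : ℕ) (hN : 2 ^ x.length ≤ N) :
    theF x N = inA (fun e => 2 ^ e) (keys (fun e => 2 ^ e) ((ix x.length).1 + 1)).2 x := by
  have h0 : ∀ e ≤ x.length, pwt N e = 2 ^ e := fun e he =>
    pwt_eq ((Nat.pow_le_pow_right (by norm_num) he).trans hN)
  obtain ⟨-, h2, h3⟩ := ix_spec x.length
  have h4 : (keys (pwt N) ((ix x.length).1 + 1)).2 =
      (keys (fun e => 2 ^ e) ((ix x.length).1 + 1)).2 := by
    obtain ⟨h5, h6⟩ := keys_congr (pw := pwt N) (ix x.length).1 fun e he => h0 e (by omega)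
    rw [keys_succ, keys_succ, kstep, kstep]
    simp only [h5, h6, keys_fst]
    congr 2
    exact skey_congr (by rw [keys_length]) fun e he => h0 e (by omega)
  rw [theF, h4]
  exact inA_congr fun _ e he => h0 e he

end Pool.Agent.Lib.MP_6b6c7c_lc
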