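import Pool.Agent.Lib.MP_6b6c7c_lc.Typed

/-! # Lists and unary numbers: polynomial-time operations -/

namespace Pool.Agent.Lib.MP_6b6c7c_lc

open Polynomial

variable {α β γ δ ι σ : Type}

namespace Poly

variable [Enc α] [Enc β] [Enc γ] [Enc δ] [Enc ι] [Enc σ]

theorem congr {f g : Lang → α → β} (hf : Poly f) (h : ∀ O a, g O a = f O a) : Poly g := by
  have : g = f := by funext O a; exact h O a
  rw [this]
  exact hf

/-! ### Projections of pairs -/

theorem fst' : Poly fun _ (a : α × β) => a.1 := fst id

theorem snd' : Poly fun _ (a : α × β) => a.2 := snd id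

/-- Composition with a fixed function of two arguments. -/
theorem comp₂ {h : Lang → α → β → γ} {f : Lang → ι → α} {g : Lang → ι → β}
    (hh : Poly fun O (p : α × β) => h O p.1 p.2) (hf : Poly f) (hg : Poly g) :
    Poly fun O i => h O (f O i) (g O i) := comp hh (pair hf hg)

theorem comp₃ {h : Lang → α → β → γ → δ} {f : Lang → ι → α} {g : Lang → ι → β}
    {k : Lang → ι → γ}
    (hh : Poly fun O (p : α × (β × γ)) => h O p.1 p.2.1 p.2.2) (hf : Poly f) (hg : Poly g)
    (hk : Poly k) : Poly fun O i => h O (f O i) (g O i) (k O i) := comp hh (pair hf (pair hg hk))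

theorem condb {b : Lang → α → Bool} {f g : Lang → α → β} (hb : Poly b) (hf : Poly f)
    (hg : Poly g) : Poly fun O a => bif b O a then f O a else g O a := by
  refine (cond hb hf hg).congr fun O a => ?_
  cases b O a <;> rfl

/-! ### Trees -/

theorem dhd {f : Lang → α → D} (hf : Poly f) : Poly fun O a => (f O a).hd := by
  obtain ⟨F, hF, h1⟩ := hf
  exact ⟨_, PT.comp PT.hd hF, fun O a => by rw [h1]; rfl⟩

theorem dtl {f : Lang → α → D} (hf : Poly f) : Poly fun O a => (f O a).tl := by
  obtain ⟨F, hF, h1⟩ := hf
  exact ⟨_, PT.comp PT.tl hF, fun O a => by rw [h1]; rfl⟩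

theorem dcons {f g : Lang → α → D} (hf : Poly f) (hg : Poly g) :
    Poly fun O a => D.cons (f O a) (g O a) := by
  obtain ⟨F, hF, h1⟩ := hf
  obtain ⟨G, hG, h2⟩ := hg
  exact ⟨_, PT.pair hF hG, fun O a => by rw [h1, h2]; rfl⟩

/-! ### Lists -/

theorem reverse {l : Lang → ι → List α} (hl : Poly l) : Poly fun O i => (l O i).reverse := by
  have h := foldlAdd (f := fun _ (p : ι × (List α × α)) => p.2.2 :: p.2.1)
    (s := fun _ (_ : ι) => ([] : List α)) (cons (snd (snd id)) (fst (snd id))) (const _) hl
    ⟨X + 1, fun O i s a => by
      simp only [sz_cons, eval_add, eval_X, eval_one]; omega⟩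
  refine h.congr fun O i => ?_
  have key : ∀ (l s : List α), l.foldl (fun s a => a :: s) s = l.reverse ++ s := by
    intro l
    induction l with
    | nil => intro s; rfl
    | cons a l ih => intro s; rw [List.foldl_cons, ih]; simp
  rw [key]
  simp

theorem map {f : Lang → ι → α → β} {l : Lang → ι → List α}
    (hf : Poly fun O (p : ι × α) => f O p.1 p.2) (hl : Poly l) :
    Poly fun O i => (l O i).map (f O i) := by
  obtain ⟨T, hT⟩ := hf.size_le
  have h := foldlAdd (f := fun O (p : ι × (List β × α)) => f O p.1 p.2.2 :: p.2.1)
    (s := fun _ (_ : ι) => ([] : List β))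
    (cons (comp hf (pair fst' (snd (snd id)))) (fst (snd id))) (const _) hl
    ⟨T.comp (X + 1) + 1, fun O i s a => by
      have := hT O (i, a)
      simp only [sz_cons, sz_pair, eval_add, eval_X, eval_one, eval_comp] at this ⊢
      omega⟩
  refine (reverse h).congr fun O i => ?_
  have key : ∀ (l : List α) (s : List β),
      l.foldl (fun s a => f O i a :: s) s = (l.map (f O i)).reverse ++ s := by
    intro l
    induction l with
    | nil => intro s; rfl
    | cons a l ih => intro s; rw [List.foldl_cons, ih]; simp
  rw [key]
  simp

theorem append {f g : Lang → ι → List α} (hf : Poly f) (hg : Poly g) :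
    Poly fun O i => f O i ++ g O i := by
  have h := foldlAdd (f := fun _ (p : ι × (List α × α)) => p.2.2 :: p.2.1)
    (s := g) (cons (snd (snd id)) (fst (snd id))) hg (reverse hf)
    ⟨X + 1, fun O i s a => by
      simp only [sz_cons, eval_add, eval_X, eval_one]; omega⟩
  refine h.congr fun O i => ?_
  have key : ∀ (l s : List α), l.foldl (fun s a => a :: s) s = l.reverse ++ s := by
    intro l
    induction l with
    | nil => intro s; rfl
    | cons a l ih => intro s; rw [List.foldl_cons, ih]; simp
  rw [key, List.reverse_reverse]

theorem length {l : Lang → ι → List α} (hl : Poly l) : Poly fun O i => (l O i).length := by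
  obtain ⟨F, hF, h1⟩ := hl
  refine ⟨_, PT.comp (PT.map (PT.const D.nil)) hF, fun O a => ?_⟩
  have e : (Enc.enc (l O a)).toList = (l O a).map Enc.enc := D.toList_ofList _
  rw [h1, e, List.map_map]
  show _ = D.ofList _
  congr 1
  rw [List.eq_replicate_iff]
  simp

theorem filter {p : Lang → ι → α → Bool} {l : Lang → ι → List α}
    (hp : Poly fun O (q : ι × α) => p O q.1 q.2) (hl : Poly l) :
    Poly fun O i => (l O i).filter (p O i) := by
  have h := foldlAdd (f := fun O (q : ι × (List α × α)) =>
      if p O q.1 q.2.2 = true then q.2.2 :: q.2.1 else q.2.1)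
    (s := fun _ (_ : ι) => ([] : List α))
    (cond (comp hp (pair fst' (snd (snd id)))) (cons (snd (snd id)) (fst (snd id)))
      (fst (snd id))) (const _) hl
    ⟨X + 1, fun O i s a => by
      simp only [eval_add, eval_X, eval_one]
      split_ifs
      · rw [sz_cons]; omega
      · omega⟩
  refine (reverse h).congr fun O i => ?_
  have key : ∀ (l : List α) (s : List α),
      l.foldl (fun s a => if p O i a = true then a :: s else s) s =
        (l.filter (p O i)).reverse ++ s := by
    intro l
    induction l with
    | nil => intro s; rfl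
    | cons a l ih =>
      intro s
      rw [List.foldl_cons, ih]
      by_cases h : p O i a = true <;> simp [h]
  rw [key]
  simp

theorem any {p : Lang → ι → α → Bool} {l : Lang → ι → List α}
    (hp : Poly fun O (q : ι × α) => p O q.1 q.2) (hl : Poly l) :
    Poly fun O i => (l O i).any (p O i) := by
  refine (not (eq (length (filter hp hl)) (const 0))).congr fun O i => ?_
  rw [Bool.eq_iff_iff]
  simp only [List.any_eq_true, Bool.not_eq_true', decide_eq_false_iff_not, List.length_eq_zero_iff,
    List.filter_eq_nil_iff]
  push Not
  rfl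

theorem all {p : Lang → ι → α → Bool} {l : Lang → ι → List α}
    (hp : Poly fun O (q : ι × α) => p O q.1 q.2) (hl : Poly l) :
    Poly fun O i => (l O i).all (p O i) := by
  refine (not (any (p := fun O i a => !(p O i a)) (not hp) hl)).congr fun O i => ?_
  rw [Bool.eq_iff_iff]
  simp

theorem find? {p : Lang → ι → α → Bool} {l : Lang → ι → List α}
    (hp : Poly fun O (q : ι × α) => p O q.1 q.2) (hl : Poly l) :
    Poly fun O i => (l O i).find? (p O i) := by
  refine (head? (filter hp hl)).congr fun O i => ?_
  rw [List.head?_filter]

/-- Iteration with bounded growth. -/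
theorem iterAdd {f : Lang → ι → σ → σ} {s : Lang → ι → σ} {n : Lang → ι → ℕ}
    (hf : Poly fun O (p : ι × σ) => f O p.1 p.2) (hs : Poly s) (hn : Poly n)
    (hS : ∃ S : ℕ[X], ∀ O i s, sz (f O i s) ≤ sz s + S.eval (sz i)) :
    Poly fun O i => (f O i)^[n O i] (s O i) := by
  obtain ⟨S, hS⟩ := hS
  have h := foldlAdd (f := fun O (p : ι × (σ × Unit)) => f O p.1 p.2.1) (s := s)
    (comp hf (pair fst' (fst (snd id)))) hs (units hn)
    ⟨S, fun O i s a => (hS O i s).trans (Nat.add_le_add_left (eval_mono S (Nat.le_add_right _ _)) _)⟩
  refine h.congr fun O i => ?_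
  have key : ∀ (k : ℕ) (s : σ),
      (List.replicate k ()).foldl (fun s _ => f O i s) s = (f O i)^[k] s := by
    intro k
    induction k with
    | zero => intro s; rfl
    | succ k ih =>
      intro s
      rw [List.replicate_succ, List.foldl_cons, ih, Function.iterate_succ_apply]
  rw [key]

/-- Iteration with an explicit size bound. -/
theorem iterBd {f : Lang → ι → σ → σ} {s : Lang → ι → σ} {n : Lang → ι → ℕ}
    (hf : Poly fun O (p : ι × σ) => f O p.1 p.2) (hs : Poly s) (hn : Poly n)
    (hS : ∃ S : ℕ[X], ∀ O i k, k ≤ n O i → sz ((f O i)^[k] (s O i)) ≤ S.eval (sz i)) :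
    Poly fun O i => (f O i)^[n O i] (s O i) := by
  obtain ⟨S, hS⟩ := hS
  have key : ∀ O i (k : ℕ) (s : σ),
      (List.replicate k ()).foldl (fun s _ => f O i s) s = (f O i)^[k] s := by
    intro O i k
    induction k with
    | zero => intro s; rfl
    | succ k ih =>
      intro s
      rw [List.replicate_succ, List.foldl_cons, ih, Function.iterate_succ_apply]
  have h := foldl (f := fun O (p : ι × (σ × Unit)) => f O p.1 p.2.1) (s := s)
    (comp hf (pair fst' (fst (snd id)))) hs (units hn)
    ⟨S, fun O i l₁ hl₁ => by
      have hl₂ : l₁ = List.replicate l₁.length () := by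
        rw [List.eq_replicate_iff]; simp
      have hl₃ := hl₁.length_le
      rw [List.length_replicate] at hl₃
      have := hS O i l₁.length hl₃
      rw [← key O i, ← hl₂] at this
      exact this⟩
  refine h.congr fun O i => ?_
  rw [key O i]

theorem sz_tail_le (l : List α) : sz l.tail ≤ sz l := by
  cases l with
  | nil => exact le_rfl
  | cons a l => rw [sz_cons, List.tail_cons]; omega

theorem drop {l : Lang → ι → List α} {n : Lang → ι → ℕ} (hn : Poly n) (hl : Poly l) :
    Poly fun O i => (l O i).drop (n O i) := by
  have h := iterAdd (f := fun _ (_ : ι) (l : List α) => l.tail) (tail snd') hl hn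
    ⟨0, fun O i s => by simpa using sz_tail_le s⟩
  refine h.congr fun O i => ?_
  have key : ∀ (k : ℕ) (l : List α), (fun l : List α => l.tail)^[k] l = l.drop k := by
    intro k
    induction k with
    | zero => intro l; rfl
    | succ k ih =>
      intro l
      rw [Function.iterate_succ_apply, ih, List.drop_tail]
  rw [key]

theorem get? {l : Lang → ι → List α} {n : Lang → ι → ℕ} (hl : Poly l) (hn : Poly n) :
    Poly fun O i => (l O i)[n O i]? := by
  refine (head? (drop hn hl)).congr fun O i => ?_
  simp

theorem optMap {o : Lang → ι → Option α} {f : Lang → ι → α → β} (ho : Poly o)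
    (hf : Poly fun O (p : ι × α) => f O p.1 p.2) : Poly fun O i => (o O i).map (f O i) := by
  have h := optElim ho (const (β := Option β) Option.none) (some hf)
  refine h.congr fun O i => ?_
  cases o O i <;> rfl

theorem getD {o : Lang → ι → Option α} {d : Lang → ι → α} (ho : Poly o) (hd : Poly d) :
    Poly fun O i => (o O i).getD (d O i) := by
  have h := optElim ho hd (g := fun _ p => p.2) snd'
  refine h.congr fun O i => ?_
  cases o O i <;> rfl

theorem elim {o : Lang → ι → Option α} {d : Lang → ι → β} {f : Lang → ι → α → β} (ho : Poly o)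
    (hd : Poly d) (hf : Poly fun O (p : ι × α) => f O p.1 p.2) :
    Poly fun O i => (o O i).elim (d O i) (f O i) := by
  have h := optElim ho hd hf
  exact h

/-- Zipping two lists. -/
theorem zip {f : Lang → ι → List α} {g : Lang → ι → List β} (hf : Poly f) (hg : Poly g) :
    Poly fun O i => (f O i).zip (g O i) := by
  have hF : Poly fun _ (p : ι × ((List β × List (α × β)) × α)) =>
      (p.2.1.1.head?).elim p.2.1 fun b => (p.2.1.1.tail, (p.2.2, b) :: p.2.1.2) := by
    refine elim (head? (fst (fst (snd id)))) (fst (snd id))
      (f := fun _ (p : ι × ((List β × List (α × β)) × α)) b =>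
        (p.2.1.1.tail, (p.2.2, b) :: p.2.1.2)) ?_
    exact pair (tail (fst (fst (snd (fst id)))))
      (cons (pair (snd (snd (fst id))) (snd id)) (snd (fst (snd (fst id)))))
  have h := foldlAdd (s := fun O i => (g O i, ([] : List (α × β)))) hF (pair hg (const _)) hf
    ⟨X + 2, fun O i s a => by
      obtain ⟨l, acc⟩ := s
      cases l with
      | nil => simp
      | cons b l =>
        simp only [List.head?_cons, Option.elim_some, List.tail_cons, sz_pair, sz_cons, eval_add,
          eval_X, eval_ofNat]
        omega⟩
  refine (reverse (snd h)).congr fun O i => ?_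
  have key : ∀ (l : List α) (m : List β) (acc : List (α × β)),
      (l.foldl (fun (s : List β × List (α × β)) a =>
        (s.1.head?).elim s fun b => (s.1.tail, (a, b) :: s.2)) (m, acc)).2 =
        (l.zip m).reverse ++ acc := by
    intro l
    induction l with
    | nil => intro m acc; rfl
    | cons a l ih =>
      intro m acc
      cases m with
      | nil =>
        have h0 : ∀ l : List α, l.foldl (fun (s : List β × List (α × β)) a =>
            (s.1.head?).elim s fun b => (s.1.tail, (a, b) :: s.2)) ([], acc) = ([], acc) := by
          intro l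
          induction l with
          | nil => rfl
          | cons a l ih => simpa using ih
        rw [h0]
        simp
      | cons b m =>
        rw [List.foldl_cons]
        simp only [List.head?_cons, Option.elim_some, List.tail_cons]
        rw [ih]
        simp
  rw [key]
  simp

theorem take {l : Lang → ι → List α} {n : Lang → ι → ℕ} (hn : Poly n) (hl : Poly l) :
    Poly fun O i => (l O i).take (n O i) := by
  refine (map (f := fun _ _ p => p.1) (fst (snd id)) (zip hl (units hn))).congr fun O i => ?_
  have key : ∀ (l : List α) (n : ℕ), l.take n = (l.zip (List.replicate n ())).map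
      fun p => p.1 := by
    intro l
    induction l with
    | nil => intro n; simp
    | cons a l ih =>
      intro n
      cases n with
      | zero => simp
      | succ n => rw [List.take_succ_cons, ih, List.replicate_succ, List.zip_cons_cons]; rfl
  exact key _ _

/-! ### Unary numbers -/

theorem add {f g : Lang → ι → ℕ} (hf : Poly f) (hg : Poly g) : Poly fun O i => f O i + g O i := by
  have h := iterAdd (f := fun _ (_ : ι) (k : ℕ) => k + 1) (succ snd') hf hg
    ⟨2, fun O i s => by simp only [sz_nat, eval_ofNat]; omega⟩
  refine h.congr fun O i => ?_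
  have key : ∀ n k : ℕ, (fun k : ℕ => k + 1)^[n] k = k + n := by
    intro n
    induction n with
    | zero => intro k; rfl
    | succ n ih => intro k; rw [Function.iterate_succ_apply, ih]; omega
  rw [key]

theorem mul {f g : Lang → ι → ℕ} (hf : Poly f) (hg : Poly g) : Poly fun O i => f O i * g O i := by
  have h : Poly fun _ (p : ℕ × ℕ) => (fun k : ℕ => k + p.1)^[p.2] 0 :=
    iterAdd (f := fun _ (p : ℕ × ℕ) (k : ℕ) => k + p.1) (add snd' (fst fst')) (const 0) snd'
      ⟨X, fun O i s => by
        obtain ⟨a, b⟩ := i
        simp only [sz_pair, sz_nat, eval_X]; omega⟩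
  refine (comp h (pair hf hg)).congr fun O i => ?_
  have key : ∀ n a k : ℕ, (fun k : ℕ => k + a)^[n] k = k + a * n := by
    intro n a
    induction n with
    | zero => intro k; rfl
    | succ n ih => intro k; rw [Function.iterate_succ_apply, ih]; ring
  rw [key]
  simp

theorem sub {f g : Lang → ι → ℕ} (hf : Poly f) (hg : Poly g) : Poly fun O i => f O i - g O i := by
  have h := iterAdd (f := fun _ (_ : ι) (k : ℕ) => k - 1) (pred snd') hf hg
    ⟨0, fun O i s => by simp only [sz_nat, eval_zero]; omega⟩
  refine h.congr fun O i => ?_
  have key : ∀ n k : ℕ, (fun k : ℕ => k - 1)^[n] k = k - n := by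
    intro n
    induction n with
    | zero => intro k; rfl
    | succ n ih => intro k; rw [Function.iterate_succ_apply, ih]; omega
  rw [key]

theorem le {f g : Lang → ι → ℕ} (hf : Poly f) (hg : Poly g) :
    Poly fun O i => decide (f O i ≤ g O i) := by
  refine (eq (sub hf hg) (const 0)).congr fun O i => ?_
  rw [decide_eq_decide]
  omega

theorem min {f g : Lang → ι → ℕ} (hf : Poly f) (hg : Poly g) :
    Poly fun O i => Nat.min (f O i) (g O i) := by
  refine (cond (le hf hg) hf hg).congr fun O i => ?_
  simp only [decide_eq_true_eq]
  rfl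

theorem range {n : Lang → ι → ℕ} (hn : Poly n) : Poly fun O i => List.range (n O i) := by
  have key : ∀ k : ℕ, (fun l : List ℕ => l.length :: l)^[k] [] = (List.range k).reverse := by
    intro k
    induction k with
    | zero => rfl
    | succ k ih =>
      rw [Function.iterate_succ_apply', ih, List.range_succ]
      simp
  have hsz : ∀ k : ℕ, sz ((List.range k).reverse) = k * k + k + 1 := by
    intro k
    induction k with
    | zero => rfl
    | succ k ih =>
      rw [List.range_succ, List.reverse_append, List.reverse_singleton, List.singleton_append,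
        sz_cons, ih, sz_nat]
      ring
  have h : Poly fun _ (n : ℕ) => (fun l : List ℕ => l.length :: l)^[n] [] :=
    iterBd (f := fun _ (_ : ℕ) (l : List ℕ) => l.length :: l) (cons (length snd') snd')
      (const []) id ⟨X * X + X + 1, fun O i k hk => by
        rw [key, hsz]
        simp only [eval_add, eval_mul, eval_X, eval_one, sz_nat]
        nlinarith⟩
  refine (reverse (comp h hn)).congr fun O i => ?_
  rw [key, List.reverse_reverse]

theorem replicate {n : Lang → ι → ℕ} {f : Lang → ι → α} (hn : Poly n) (hf : Poly f) :
    Poly fun O i => List.replicate (n O i) (f O i) := by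
  refine (map (f := fun O i _ => f O i) (comp hf fst') (units hn)).congr fun O i => ?_
  simp

end Poly

end Pool.Agent.Lib.MP_6b6c7c_lc
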