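import Pool.Agent.Lib.MP_6b6c7c_lc.Complete

/-! # The constructed set is not mitotic -/

namespace Pool.Agent.Lib.MP_6b6c7c_lc

open Filter Asymptotics

theorem timeBound (c : ℕ) : ∃ L, ∀ n, L ≤ n → (2 * n + 1) ^ c + c ≤ 2 ^ (n / 2 / 2) := by
  have h1 : (fun q : ℕ => ((15 ^ c + c : ℕ) : ℝ) * (q : ℝ) ^ c) =o[atTop] fun q => (2 : ℝ) ^ q :=
    (isLittleO_pow_const_const_pow_of_one_lt c (one_lt_two)).const_mul_left _
  have h2 := h1.bound one_pos
  rw [eventually_atTop] at h2
  obtain ⟨L, hL⟩ := h2
  have h3 : ∀ q, L ≤ q → (15 ^ c + c) * q ^ c ≤ 2 ^ q := by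
    intro q hq
    have h4 := hL q hq
    rw [one_mul, Real.norm_of_nonneg (by positivity), Real.norm_of_nonneg (by positivity)] at h4
    exact_mod_cast h4
  refine ⟨4 * L + 4, fun n hn => ?_⟩
  obtain ⟨q, hq⟩ : ∃ q, q = n / 2 / 2 := ⟨_, rfl⟩
  rw [← hq]
  have h5 : 1 ≤ q := by omega
  have h6 : 2 * n + 1 ≤ 15 * q := by omega
  calc (2 * n + 1) ^ c + c ≤ (15 * q) ^ c + c * q ^ c :=
        Nat.add_le_add (Nat.pow_le_pow_left h6 c) (Nat.le_mul_of_pos_right c (Nat.pow_pos h5))
    _ = (15 ^ c + c) * q ^ c := by rw [mul_pow]; ring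
    _ ≤ 2 ^ q := h3 q (by omega)

theorem mem_cands {n : ℕ} {κ : Word} (h : κ.length = n) : κ ∈ cands (fun e => 2 ^ e) n := by
  unfold cands
  rw [List.mem_map]
  let f : Fin n → Bool := fun j => κ.getD j false
  refine ⟨Nat.ofBits f, ?_, ?_⟩
  · rw [List.mem_range]
    exact Nat.ofBits_lt_two_pow f
  · apply List.ext_getElem
    · rw [List.length_map, List.length_range, h]
    · intro j h1 h2
      rw [List.getElem_map, List.getElem_range, Nat.testBit_ofBits_lt f j (by omega)]
      simp [f, h2]

section Diag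

variable {n : ℕ} {K : List Word}

/-- Abbreviation: the weak side. -/
def wk (n : ℕ) (K : List Word) (z : Word) : Bool :=
  side (tm (fun e => 2 ^ e) n) (tri K.length).1 n z

theorem wk_count (n : ℕ) (K : List Word) :
    2 * ((List.range n).filter fun b => wk n K (wd n b)).length ≤ n := by
  obtain ⟨T, hT⟩ : ∃ T, T = tm (fun e => 2 ^ e) n := ⟨_, rfl⟩
  obtain ⟨d, hd⟩ : ∃ d, d = (tri K.length).1 := ⟨_, rfl⟩
  unfold wk side
  rw [← hT, ← hd]
  cases h : flg T d n with
  | true =>
    unfold flg at h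
    rw [decide_eq_true_iff] at h
    simp only [cond_true]
    unfold cnt at h
    omega
  | false =>
    unfold flg at h
    rw [decide_eq_false_iff_not] at h
    simp only [cond_false]
    unfold cnt at h
    have h1 := List.length_eq_length_filter_add (l := List.range n) fun b => vis T d (wd n b)
    rw [List.length_range] at h1
    omega

theorem b0_spec (hn : 1 ≤ n) : b0 (fun e => 2 ^ e) n K < n ∧
    wk n K (wd n (b0 (fun e => 2 ^ e) n K)) = false := by
  have h0 : b0 (fun e => 2 ^ e) n K =
      ((List.range n).find? fun b => !(wk n K (wd n b))).getD 0 := rfl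
  rw [h0]
  rcases h : (List.range n).find? (fun b => !(wk n K (wd n b))) with _ | b
  · exfalso
    rw [List.find?_eq_none] at h
    have h1 := wk_count n K
    have h2 : (List.range n).filter (fun b => wk n K (wd n b)) = List.range n := by
      rw [List.filter_eq_self]
      intro b hb
      have := h b hb
      simpa using this
    rw [h2, List.length_range] at h1
    omega
  · rw [Option.getD_some]
    have h1 := List.mem_of_find?_eq_some h
    have h2 := List.find?_some h
    rw [List.mem_range] at h1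
    exact ⟨h1, by simpa using h2⟩

/-- Possible keys. -/
def kU (n : ℕ) (K : List Word) (U : Finset ℕ) : Word :=
  (List.range n).map fun b => if b = b0 (fun e => 2 ^ e) n K then !(outc (fun e => 2 ^ e) n K)
    else decide (b ∈ U)

theorem kU_get {U : Finset ℕ} {b : ℕ} (hb : b < n) : ((kU n K U)[b]?).getD false =
    if b = b0 (fun e => 2 ^ e) n K then !(outc (fun e => 2 ^ e) n K) else decide (b ∈ U) := by
  unfold kU
  rw [List.getElem?_map, List.getElem?_range hb]
  rfl

theorem exists_key (hn : 8 ≤ n) : ∃ κ ∈ cands (fun e => 2 ^ e) n,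
    (valid (fun e => 2 ^ e) n K κ && !(hit (fun e => 2 ^ e) n K κ)) = true := by
  classical
  by_contra hcon
  push Not at hcon
  obtain ⟨hb1, hb2⟩ := b0_spec (n := n) (K := K) (by omega)
  set I : Finset ℕ := (Finset.range n).filter
    (fun b => wk n K (wd n b) = false ∧ b ≠ b0 (fun e => 2 ^ e) n K) with hI
  have hlen : ∀ U, (kU n K U).length = n := fun U => by simp [kU]
  have hvalid : ∀ U ∈ I.powerset, valid (fun e => 2 ^ e) n K (kU n K U) = true := by
    intro U hU
    rw [Finset.mem_powerset] at hU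
    unfold valid
    rw [Bool.and_eq_true, List.all_eq_true, decide_eq_true_iff]
    constructor
    · intro b hb
      rw [List.mem_range] at hb
      rw [kU_get hb]
      change (!(wk n K (wd n b)) || _) = true
      cases hw : wk n K (wd n b) with
      | false => rfl
      | true =>
        have h1 : b ≠ b0 (fun e => 2 ^ e) n K := by
          rintro rfl
          rw [hw] at hb2
          exact absurd hb2 (by simp)
        have h2 : b ∉ U := by
          intro hbU
          have := hU hbU
          rw [hI, Finset.mem_filter, hw] at this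
          exact absurd this.2.1 (by simp)
        simp [h1, h2]
    · rw [kU_get hb1, if_pos rfl]
  have hhit : ∀ U ∈ I.powerset, hit (fun e => 2 ^ e) n K (kU n K U) = true := by
    intro U hU
    have h1 := hcon _ (mem_cands (hlen U))
    rw [hvalid U hU] at h1
    simpa using h1
  have hcard : I.powerset.card ≤ (Finset.range (tm (fun e => 2 ^ e) n)).card := by
    refine le_trans ?_ (Finset.card_image_le (f := fun s => (oword (simRun
      (ansF (fun e => 2 ^ e) n K) (dm (fun e => 2 ^ e) n K)
      (wd n (b0 (fun e => 2 ^ e) n K)) s)).tail.take n))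
    refine Finset.card_le_card_of_injOn (kU n K) ?_ ?_
    · intro U hU
      have h1 := hhit U hU
      unfold hit at h1
      rw [List.any_eq_true] at h1
      obtain ⟨s, hs, h2⟩ := h1
      rw [decide_eq_true_iff] at h2
      rw [Finset.mem_coe, Finset.mem_image]
      exact ⟨s, by simpa using hs, h2⟩
    · intro U hU V hV hUV
      rw [Finset.mem_coe, Finset.mem_powerset] at hU hV
      ext b
      by_cases hb : b ∈ I
      · have hb' := hb
        rw [hI, Finset.mem_filter, Finset.mem_range] at hb'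
        have h1 := kU_get (n := n) (K := K) (U := U) hb'.1
        have h2 := kU_get (n := n) (K := K) (U := V) hb'.1
        rw [hUV, h2, if_neg hb'.2.2, if_neg hb'.2.2, decide_eq_decide] at h1
        exact h1.symm
      · exact ⟨fun h => absurd (hU h) hb, fun h => absurd (hV h) hb⟩
  rw [Finset.card_powerset, Finset.card_range] at hcard
  have h1 : tm (fun e => 2 ^ e) n = 2 ^ (n / 2 / 2) := rfl
  rw [h1] at hcard
  have h2 : I.card ≤ n / 2 / 2 := (Nat.pow_le_pow_iff_right (by norm_num)).1 hcard
  have h3 := wk_count n K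
  have h4 : ((List.range n).filter fun b => wk n K (wd n b)).length =
      ((Finset.range n).filter fun b => wk n K (wd n b) = true).card := by
    rw [← List.toFinset_card_of_nodup (List.nodup_range.filter _)]
    congr 1
    ext b
    simp
  have h5 := Finset.card_filter_add_card_filter_not (s := Finset.range n)
    (fun b => wk n K (wd n b) = true)
  rw [Finset.card_range] at h5
  have h6 : ((Finset.range n).filter fun b => ¬ wk n K (wd n b) = true) ⊆
      insert (b0 (fun e => 2 ^ e) n K) I := by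
    intro b hb
    rw [Finset.mem_filter] at hb
    rw [Finset.mem_insert, hI, Finset.mem_filter]
    by_cases hb3 : b = b0 (fun e => 2 ^ e) n K
    · exact Or.inl hb3
    · exact Or.inr ⟨hb.1, by simpa using hb.2, hb3⟩
  have h7 := Finset.card_le_card h6
  have h8 := Finset.card_insert_le (b0 (fun e => 2 ^ e) n K) I
  omega

theorem skey_spec (hn : 8 ≤ n) :
    valid (fun e => 2 ^ e) n K (skey (fun e => 2 ^ e) n K) = true ∧
    hit (fun e => 2 ^ e) n K (skey (fun e => 2 ^ e) n K) = false := by
  obtain ⟨κ, h1, h2⟩ := exists_key (K := K) hn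
  unfold skey
  rcases h : (cands (fun e => 2 ^ e) n).find? (fun κ => valid (fun e => 2 ^ e) n K κ &&
    !(hit (fun e => 2 ^ e) n K κ)) with _ | κ'
  · rw [List.find?_eq_none] at h
    exact absurd h2 (h κ h1)
  · rw [Option.getD_some]
    have h3 := List.find?_some h
    rw [Bool.and_eq_true, Bool.not_eq_true'] at h3
    exact h3

end Diag

theorem accepts_iff {M : OTM} {O B : Lang} {c : ℕ} (hM : M.Decides O B fun n => n ^ c + c)
    (x : Word) {T : ℕ} (hT : x.length ^ c + c ≤ T) : M.Accepts O x T ↔ x ∈ B := by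
  obtain ⟨h4, h5⟩ := hM x
  constructor
  · intro h
    by_contra hx
    have h6 := h5 hx
    have h7 := after_mono M O x hT (Or.inr h6)
    rw [OTM.Accepts, h7] at h
    rw [OTM.Rejects, h] at h6
    exact absurd h6 (by simp)
  · intro hx
    have h6 := h4 hx
    have h7 := after_mono M O x hT (Or.inl h6)
    rw [OTM.Accepts, h7]
    exact h6

theorem diagonal {S : Lang} {MS M₁ M₂ : OTM} {cS c₁ c₂ : ℕ}
    (hS : MS.Decides ∅ S fun n => n ^ cS + cS)
    (h₁ : M₁.Decides (theA ∩ S) theA fun n => n ^ c₁ + c₁)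
    (h₂ : M₂.Decides (theA ∩ Sᶜ) theA fun n => n ^ c₂ + c₂) : False := by
  obtain ⟨LS, hLS⟩ := timeBound cS
  obtain ⟨L₁, hL₁⟩ := timeBound c₁
  obtain ⟨L₂, hL₂⟩ := timeBound c₂
  obtain ⟨i, hi, htri⟩ := exists_ibits (Enc.enc (descOf MS, (descOf M₁, descOf M₂)))
    (LS + L₁ + L₂ + 8)
  have htri' : tri i = (descOf MS, (descOf M₁, descOf M₂)) := by
    rw [tri, htri, Enc.dec_enc]
  obtain ⟨n, hn⟩ : ∃ n, n = tow i := ⟨_, rfl⟩
  have hni : i ≤ n := hn ▸ le_tow i
  obtain ⟨K, hK⟩ : ∃ K, K = (keys (fun e => 2 ^ e) i).2 := ⟨_, rfl⟩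
  have hKl : K.length = i := by rw [hK, keys_length]
  have hT : tm (fun e => 2 ^ e) n = 2 ^ (n / 2 / 2) := rfl
  have hkey : key i = skey (fun e => 2 ^ e) n K := by rw [key, hn, hK]
  have htr : tri K.length = (descOf MS, (descOf M₁, descOf M₂)) := by rw [hKl, htri']
  have hpow : ∀ c m, (2 * n + 1) ^ c + c ≤ 2 ^ (n / 2 / 2) → m ≤ 2 * n + 1 →
      m ^ c + c ≤ tm (fun e => 2 ^ e) n := by
    intro c m h h'
    have := Nat.pow_le_pow_left h' c
    rw [hT]
    omega
  have hvis : ∀ z : Word, z.length ≤ 2 * n + 1 →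
      (vis (tm (fun e => 2 ^ e) n) (descOf MS) z = true ↔ z ∈ S) := by
    intro z hz
    rw [vis, simAcc_empty]
    exact accepts_iff hS z (hpow cS _ (hLS n (by omega)) hz)
  -- the weak side
  obtain ⟨σ, M, c, hM, hdm, hσ, hc⟩ : ∃ (σ : Lang) (M : OTM) (c : ℕ),
      M.Decides (theA ∩ σ) theA (fun n => n ^ c + c) ∧ dm (fun e => 2 ^ e) n K = descOf M ∧
      (∀ z : Word, z.length ≤ 2 * n + 1 → (wk n K z = true ↔ z ∈ σ)) ∧
      (2 * n + 1) ^ c + c ≤ 2 ^ (n / 2 / 2) := by
    cases hf : flg (tm (fun e => 2 ^ e) n) (descOf MS) n with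
    | true =>
      refine ⟨S, M₁, c₁, h₁, ?_, fun z hz => ?_, hL₁ n (by omega)⟩
      · rw [dm, htr]
        simp only [hf, cond_true]
      · rw [wk, htr, side]
        simp only [hf, cond_true]
        exact hvis z hz
    | false =>
      refine ⟨Sᶜ, M₂, c₂, h₂, ?_, fun z hz => ?_, hL₂ n (by omega)⟩
      · rw [dm, htr]
        simp only [hf, cond_false]
      · rw [wk, htr, side]
        simp only [hf, cond_false]
        rw [Bool.not_eq_true', ← Bool.not_eq_true, hvis z hz]
        rfl
  obtain ⟨hb1, hb2⟩ := b0_spec (n := n) (K := K) (by omega)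
  obtain ⟨hv, hh⟩ := skey_spec (K := K) (show 8 ≤ n by omega)
  rw [← hkey] at hv hh
  unfold valid at hv
  rw [Bool.and_eq_true, List.all_eq_true, decide_eq_true_iff] at hv
  obtain ⟨hv1, hv2⟩ := hv
  have hv3 : ∀ b < n, wk n K (wd n b) = true → ((key i)[b]?).getD false = false := by
    intro b hb hw
    have h1 := hv1 b (List.mem_range.2 hb)
    change (!(wk n K (wd n b)) || !((key i)[b]?).getD false) = true at h1
    rw [hw] at h1
    simpa using h1
  have hcons : ∀ s < tm (fun e => 2 ^ e) n,
      (ansF (fun e => 2 ^ e) n K (oword (simRun (ansF (fun e => 2 ^ e) n K) (descOf M)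
        (wd n (b0 (fun e => 2 ^ e) n K)) s)) = true ↔
      oword (simRun (ansF (fun e => 2 ^ e) n K) (descOf M)
        (wd n (b0 (fun e => 2 ^ e) n K)) s) ∈ theA ∩ σ) := by
    intro s hs
    obtain ⟨q, hq⟩ : ∃ q, q = oword (simRun (ansF (fun e => 2 ^ e) n K) (descOf M)
      (wd n (b0 (fun e => 2 ^ e) n K)) s) := ⟨_, rfl⟩
    have hql := oword_length (ansF (fun e => 2 ^ e) n K) (descOf M)
      (wd n (b0 (fun e => 2 ^ e) n K)) s
    rw [← hq] at hql
    rw [← hq]
    have hqh : q.tail.take n ≠ key i := by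
      intro h
      unfold hit at hh
      rw [List.any_eq_false] at hh
      have h1 := hh s (List.mem_range.2 hs)
      rw [hdm, ← hq] at h1
      simp [h] at h1
    obtain ⟨h1, h2, h3⟩ := ix_spec q.length
    obtain ⟨j, hj⟩ : ∃ j, j = (ix q.length).1 := ⟨_, rfl⟩
    rw [← hj] at h1 h2 h3
    have hixq : ix q.length = (j, tow j) := by
      ext
      · exact hj.symm
      · exact h1
    have h4 : 2 ^ (n / 2 / 2) ≤ tow (i + 1) := by
      rw [tow, ← hn]
      exact Nat.pow_le_pow_right (by norm_num) (by omega)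
    have h5 : j ≤ i := by
      have : tow j < tow (i + 1) := by
        rw [hT] at hs
        omega
      rw [tow_strictMono.lt_iff_lt] at this
      omega
    have hans : ansF (fun e => 2 ^ e) n K q = true ↔
        wk n K q = true ∧ inA (fun e => 2 ^ e) K q = true := by
      unfold ansF
      rw [Bool.and_eq_true]
      rfl
    rw [hans]
    rcases Nat.lt_or_eq_of_le h5 with h6 | h6
    · have h7 : tow (j + 1) ≤ tow i := tow_strictMono.monotone h6
      rw [hσ q (by omega), inA_iff hixq (by rw [hK]; exact keys_get j i h6), ← mem_theA hixq]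
      exact and_comm
    · subst h6
      have h7 : inA (fun e => 2 ^ e) K q = false := by
        unfold inA
        rw [hixq, List.getElem?_eq_none (by rw [hKl])]
        rfl
      rw [h7]
      constructor
      · rintro ⟨-, h⟩
        exact absurd h (by simp)
      · rintro ⟨h8, h9⟩
        exfalso
        rw [mem_theA hixq, ← hn] at h8
        rcases h8 with ⟨b, hb, rfl, h10⟩ | ⟨-, h10, -⟩
        · have h11 := (hσ (wd n b) (by rw [wd_length])).2 h9
          rw [hv3 b hb h11] at h10
          exact absurd h10 (by simp)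
        · exact hqh h10
  have hfin := simAcc_iff M (theA ∩ σ) (ansF (fun e => 2 ^ e) n K)
    (wd n (b0 (fun e => 2 ^ e) n K)) (tm (fun e => 2 ^ e) n) hcons
  rw [accepts_iff hM _ (hpow c _ hc (by rw [wd_length])), hn, wd_mem (by rw [← hn]; exact hb1),
    ← hn, hv2] at hfin
  have hout : simAcc (ansF (fun e => 2 ^ e) n K) (descOf M) (wd n (b0 (fun e => 2 ^ e) n K))
      (tm (fun e => 2 ^ e) n) = outc (fun e => 2 ^ e) n K := by
    unfold outc
    rw [hdm]
  rw [hout] at hfin
  cases ho : outc (fun e => 2 ^ e) n K <;> rw [ho] at hfin <;> simp at hfin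

theorem theA_split (S : Lang) (hS : InP S) : ¬ TRed theA (theA ∩ S) ∨ ¬ TRed theA (theA ∩ Sᶜ) := by
  by_contra h
  push Not at h
  obtain ⟨⟨M₁, c₁, -, h₁⟩, M₂, c₂, -, h₂⟩ := h
  obtain ⟨MS, cS, hMS⟩ := hS
  exact diagonal hMS h₁ h₂

theorem theA_not_mitotic : ¬ TMitotic theA := by
  rintro ⟨S, hS, h₁, -, h₂⟩
  rcases theA_split S hS with h | h
  · exact h h₁.1
  · exact h h₂.1

end Pool.Agent.Lib.MP_6b6c7c_lc
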