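import Pool.Agent.Lib.MP_6b6c7c_lc.Arith

/-! # Machine descriptions and their step-by-step simulation -/

namespace Pool.Agent.Lib.MP_6b6c7c_lc

open Polynomial

/-- Tape symbols. -/
abbrev Sym := Option Bool

/-- Finite tapes: cells to the left of the head (nearest first), cells from the head rightwards. -/
abbrev TpD := List Sym × List Sym

/-- Rows of a transition table. -/
abbrev RowD := List Sym × (ℕ × List (Sym × Sym))

/-- Instructions: kind, (yes, no), rows. -/
abbrev InsD := ℕ × ((ℕ × ℕ) × List RowD)

/-- Descriptions: (number of tapes but one, initial state), program. -/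
abbrev Desc := (ℕ × ℕ) × List InsD

/-- Configurations: state, tapes. -/
abbrev CfgD := ℕ × List TpD

def scan (t : TpD) : Sym := (t.2.head?).getD none

def actD (a : Sym × Sym) (t : TpD) : TpD :=
  a.2.elim (t.1, a.1 :: t.2.tail) fun b =>
    bif b then (a.1 :: t.1, t.2.tail) else (t.1.tail, (t.1.head?).getD none :: (a.1 :: t.2.tail))

/-- The word at the beginning of a list of symbols. -/
def wordOf : List Sym → Word
  | [] => []
  | none :: _ => []
  | some b :: l => b :: wordOf l

/-- The word on the oracle tape. -/
def oword (c : CfgD) : Word := wordOf ((c.2[1]?).getD ([], [])).2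

/-- Effect of a row. -/
def rowD (row : RowD) (c : CfgD) : CfgD :=
  (row.2.1, (row.2.2.zip c.2).map fun p => actD p.1 p.2)

def simStep (ans : Word → Bool) (d : Desc) (c : CfgD) : CfgD :=
  (d.2[c.1]?).elim c fun ins =>
    bif decide (ins.1 = 0) then
      (ins.2.2.find? fun row => decide (row.1 = c.2.map scan)).elim c fun row => rowD row c
    else bif decide (ins.1 = 1) then
      (bif ans (oword c) then (ins.2.1.1, c.2) else (ins.2.1.2, c.2))
    else c

def simInit (d : Desc) (x : Word) : CfgD :=
  (d.1.2, ([], x.map some) :: List.replicate d.1.1 ([], []))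

def accD (d : Desc) (c : CfgD) : Bool :=
  (d.2[c.1]?).elim false fun ins => decide (ins.1 = 2)

def simRun (ans : Word → Bool) (d : Desc) (x : Word) (T : ℕ) : CfgD :=
  (simStep ans d)^[T] (simInit d x)

def simAcc (ans : Word → Bool) (d : Desc) (x : Word) (T : ℕ) : Bool := accD d (simRun ans d x T)

/-! ## Polynomial-time computability -/

section PolyTime

variable {ι : Type} [Enc ι]

theorem Poly.scan {f : Lang → ι → TpD} (hf : Poly f) :
    Poly fun O i => MP_6b6c7c_lc.scan (f O i) := by
  have h : Poly fun _ (n : TpD) => MP_6b6c7c_lc.scan n := by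
    unfold MP_6b6c7c_lc.scan
    apply_rules (maxDepth := 400) [Poly.id, Poly.fst, Poly.snd, Poly.getD, Poly.head?, Poly.const]
  exact comp h hf

theorem Poly.actD {f : Lang → ι → Sym × Sym} {g : Lang → ι → TpD} (hf : Poly f) (hg : Poly g) :
    Poly fun O i => MP_6b6c7c_lc.actD (f O i) (g O i) := by
  have h : Poly fun _ (n : (Sym × Sym) × TpD) => MP_6b6c7c_lc.actD n.1 n.2 := by
    unfold MP_6b6c7c_lc.actD
    apply_rules (maxDepth := 400) [Poly.id, Poly.fst, Poly.snd, Poly.getD, Poly.head?, Poly.const,
      Poly.elim, Poly.condb, Poly.cons, Poly.tail, Poly.pair]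
  exact comp h (pair hf hg)

theorem Poly.wordOf {f : Lang → ι → List Sym} (hf : Poly f) :
    Poly fun O i => MP_6b6c7c_lc.wordOf (f O i) := by
  have h : Poly fun _ (l : List Sym) => l.foldl (fun (s : Bool × Word) a =>
      bif s.1 then a.elim (false, s.2) (fun b => (true, b :: s.2)) else s) (true, []) := by
    refine foldlAdd (f := fun _ (p : List Sym × ((Bool × Word) × Sym)) =>
      bif p.2.1.1 then p.2.2.elim (false, p.2.1.2) (fun b => (true, b :: p.2.1.2)) else p.2.1)
      (s := fun _ (_ : List Sym) => ((true, []) : Bool × Word)) ?_ (const _) id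
      ⟨10, fun O i s a => ?_⟩
    · apply_rules (maxDepth := 400) [Poly.id, Poly.fst, Poly.snd, Poly.const,
        Poly.elim, Poly.condb, Poly.cons, Poly.pair]
    · obtain ⟨b, w⟩ := s
      have h1 := sz_bool_le true
      have h2 := sz_bool_le false
      have h3 := sz_pos b
      rw [eval_ofNat]
      cases b with
      | false => simp only [cond_false]; omega
      | true =>
        cases a with
        | none => simp only [cond_true, Option.elim_none, sz_pair]; omega
        | some b =>
          have h4 := sz_bool_le b
          simp only [cond_true, Option.elim_some, sz_pair, sz_cons]; omega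
  refine (reverse (snd (comp h hf))).congr fun O i => ?_
  have key0 : ∀ (l : List Sym) (w : Word), l.foldl (fun (s : Bool × Word) a =>
      bif s.1 then a.elim (false, s.2) (fun b => (true, b :: s.2)) else s) (false, w) =
        (false, w) := by
    intro l
    induction l with
    | nil => intro w; rfl
    | cons a l ih => intro w; rw [List.foldl_cons]; exact ih w
  have key : ∀ (l : List Sym) (w : Word), (l.foldl (fun (s : Bool × Word) a =>
      bif s.1 then a.elim (false, s.2) (fun b => (true, b :: s.2)) else s) (true, w)).2 =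
        (MP_6b6c7c_lc.wordOf l).reverse ++ w := by
    intro l
    induction l with
    | nil => intro w; rfl
    | cons a l ih =>
      intro w
      rw [List.foldl_cons]
      cases a with
      | none =>
        simp only [cond_true, Option.elim_none]
        rw [key0]
        rfl
      | some b =>
        simp only [cond_true, Option.elim_some]
        rw [ih]
        simp [MP_6b6c7c_lc.wordOf]
  rw [key]
  simp

theorem Poly.oword {f : Lang → ι → CfgD} (hf : Poly f) :
    Poly fun O i => MP_6b6c7c_lc.oword (f O i) := by
  have h : Poly fun _ (n : CfgD) => MP_6b6c7c_lc.oword n := by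
    unfold MP_6b6c7c_lc.oword
    apply_rules (maxDepth := 400) [Poly.id, Poly.fst, Poly.snd, Poly.getD, Poly.get?, Poly.const,
      Poly.wordOf]
  exact comp h hf

theorem Poly.rowD {f : Lang → ι → RowD} {g : Lang → ι → CfgD} (hf : Poly f) (hg : Poly g) :
    Poly fun O i => MP_6b6c7c_lc.rowD (f O i) (g O i) := by
  have h : Poly fun _ (n : RowD × CfgD) => MP_6b6c7c_lc.rowD n.1 n.2 := by
    unfold MP_6b6c7c_lc.rowD
    apply_rules (maxDepth := 400) [Poly.id, Poly.fst, Poly.snd, Poly.actD, Poly.map, Poly.zip,
      Poly.pair]
  exact comp h (pair hf hg)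

theorem Poly.simStep {ans : Lang → ι → Word → Bool} {d : Lang → ι → Desc} {c : Lang → ι → CfgD}
    (hans : Poly fun O (p : ι × Word) => ans O p.1 p.2) (hd : Poly d) (hc : Poly c) :
    Poly fun O i => MP_6b6c7c_lc.simStep (ans O i) (d O i) (c O i) := by
  have h : Poly fun O (q : ι × (Desc × CfgD)) => MP_6b6c7c_lc.simStep (ans O q.1) q.2.1 q.2.2 := by
    unfold MP_6b6c7c_lc.simStep
    have h1 : Poly fun O (p : (ι × (Desc × CfgD)) × InsD) => ans O p.1.1
        (MP_6b6c7c_lc.oword p.1.2.2) :=
      comp hans (pair (fst fst') (Poly.oword (snd (snd fst'))))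
    apply_rules (maxDepth := 400) [Poly.id, Poly.fst, Poly.snd, Poly.elim, Poly.get?, Poly.condb,
      Poly.find?, Poly.map, Poly.scan, Poly.rowD, Poly.eq, Poly.const, Poly.pair]
  exact comp h (pair id (pair hd hc))

theorem sz_sym_le (a : Sym) : sz a ≤ 5 := by
  rcases a with _ | _ | _ <;> decide

theorem sz_pair_fst_le {α β : Type} [Enc α] [Enc β] (p : α × β) : sz p.1 ≤ sz p := by
  obtain ⟨a, b⟩ := p
  have := sz_pair a b
  dsimp only
  omega

theorem sz_pair_snd_le {α β : Type} [Enc α] [Enc β] (p : α × β) : sz p.2 ≤ sz p := by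
  obtain ⟨a, b⟩ := p
  have := sz_pair a b
  dsimp only
  omega

theorem sz_actD (a : Sym × Sym) (t : TpD) : sz (actD a t) ≤ sz t + 20 := by
  obtain ⟨x, m⟩ := a
  obtain ⟨l, r⟩ := t
  have h1 := sz_sym_le x
  have h2 := sz_sym_le ((l.head?).getD none)
  have h3 := Poly.sz_tail_le l
  have h4 := Poly.sz_tail_le r
  have h5 := sz_pos l
  rcases m with _ | _ | _ <;>
    simp only [actD, Option.elim_none, Option.elim_some, cond_true, cond_false, sz_pair,
      sz_cons] <;> omega

theorem sz_zipmap (as : List (Sym × Sym)) : ∀ ts : List TpD,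
    sz ((as.zip ts).map fun p => actD p.1 p.2) ≤ sz ts + 20 * as.length := by
  induction as with
  | nil =>
    intro ts
    have := sz_pos ts
    have h : sz ([] : List TpD) = 1 := rfl
    simp only [List.zip_nil_left, List.map_nil]
    rw [h]
    omega
  | cons a as ih =>
    intro ts
    cases ts with
    | nil =>
      have h : sz ([] : List TpD) = 1 := rfl
      simp only [List.zip_nil_right, List.map_nil]
      omega
    | cons t ts =>
      have h1 := ih ts
      have h2 := sz_actD a t
      simp only [List.zip_cons_cons, List.map_cons, sz_cons, List.length_cons]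
      omega

theorem sz_simStep (ans : Word → Bool) (d : Desc) (c : CfgD) :
    sz (simStep ans d c) ≤ sz c + (21 * sz d + 1) := by
  unfold simStep
  rcases h : d.2[c.1]? with _ | ins
  · simp only [Option.elim_none]; omega
  · have h1 : sz ins ≤ sz d := (Poly.sz_le_of_mem (List.mem_of_getElem? h)).trans (sz_pair_snd_le d)
    simp only [Option.elim_some]
    obtain ⟨s, ts⟩ := c
    obtain ⟨k, ⟨yes, no⟩, rows⟩ := ins
    rw [sz_pair, sz_pair, sz_pair] at h1
    dsimp only
    cases h2 : decide (k = 0) with
    | true =>
      simp only [cond_true]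
      have key : ∀ o : Option RowD, (∀ row, o = some row → sz row ≤ sz rows) →
          sz (o.elim (s, ts) fun row => rowD row (s, ts)) ≤ sz (s, ts) + (21 * sz d + 1) := by
        rintro (_ | ⟨v, st, as⟩) ho
        · simp only [Option.elim_none]; omega
        · simp only [Option.elim_some, rowD]
          have h4 := ho _ rfl
          rw [sz_pair, sz_pair] at h4
          have h5 := sz_zipmap as ts
          have h6 := Poly.length_le_sz as
          rw [sz_pair, sz_pair]
          omega
      exact key _ fun row hr => Poly.sz_le_of_mem (List.mem_of_find?_eq_some hr)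
    | false =>
      cases h3 : decide (k = 1) with
      | true =>
        simp only [cond_true, cond_false]
        cases ans (oword (s, ts)) <;> simp only [cond_true, cond_false, sz_pair] <;> omega
      | false => simp only [cond_false]; omega

theorem Poly.simInit {d : Lang → ι → Desc} {x : Lang → ι → Word} (hd : Poly d) (hx : Poly x) :
    Poly fun O i => MP_6b6c7c_lc.simInit (d O i) (x O i) := by
  have h : Poly fun _ (n : Desc × Word) => MP_6b6c7c_lc.simInit n.1 n.2 := by
    unfold MP_6b6c7c_lc.simInit
    apply_rules (maxDepth := 400) [Poly.id, Poly.fst, Poly.snd, Poly.map, Poly.replicate,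
      Poly.const, Poly.some, Poly.cons, Poly.pair]
  exact comp h (pair hd hx)

theorem Poly.accD {d : Lang → ι → Desc} {c : Lang → ι → CfgD} (hd : Poly d) (hc : Poly c) :
    Poly fun O i => MP_6b6c7c_lc.accD (d O i) (c O i) := by
  have h : Poly fun _ (n : Desc × CfgD) => MP_6b6c7c_lc.accD n.1 n.2 := by
    unfold MP_6b6c7c_lc.accD
    apply_rules (maxDepth := 400) [Poly.id, Poly.fst, Poly.snd, Poly.elim, Poly.get?, Poly.eq,
      Poly.const]
  exact comp h (pair hd hc)

theorem Poly.simRun {ans : Lang → ι → Word → Bool} {d : Lang → ι → Desc} {x : Lang → ι → Word}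
    {T : Lang → ι → ℕ} (hans : Poly fun O (p : ι × Word) => ans O p.1 p.2) (hd : Poly d)
    (hx : Poly x) (hT : Poly T) :
    Poly fun O i => MP_6b6c7c_lc.simRun (ans O i) (d O i) (x O i) (T O i) := by
  obtain ⟨U, hU⟩ := hd.size_le
  refine iterAdd (f := fun O i c => MP_6b6c7c_lc.simStep (ans O i) (d O i) c) ?_
    (Poly.simInit hd hx) hT ⟨21 * U + 1, fun O i s => ?_⟩
  · exact Poly.simStep (ans := fun O (p : ι × CfgD) w => ans O p.1 w)
      (d := fun O (p : ι × CfgD) => d O p.1)
      (comp hans (pair (fst fst') snd')) (comp hd fst') snd'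
  · have := sz_simStep (ans O i) (d O i) s
    have := hU O i
    simp only [eval_add, eval_mul, eval_ofNat, eval_one]
    omega

theorem Poly.simAcc {ans : Lang → ι → Word → Bool} {d : Lang → ι → Desc} {x : Lang → ι → Word}
    {T : Lang → ι → ℕ} (hans : Poly fun O (p : ι × Word) => ans O p.1 p.2) (hd : Poly d)
    (hx : Poly x) (hT : Poly T) :
    Poly fun O i => MP_6b6c7c_lc.simAcc (ans O i) (d O i) (x O i) (T O i) :=
  Poly.accD hd (Poly.simRun hans hd hx hT)

end PolyTime

/-! ## Correctness -/

/-- The tape represented by a finite tape. -/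
def tapeOf (t : TpD) : Tape := fun i =>
  if 0 ≤ i then (t.2[i.toNat]?).getD none else (t.1[(-i - 1).toNat]?).getD none

theorem tapeOf_zero (t : TpD) : tapeOf t 0 = scan t := by
  simp [tapeOf, scan, List.head?_eq_getElem?]

/-- Moves as symbols. -/
def moveD : Move → Sym
  | .left => some false
  | .stay => none
  | .right => some true

theorem tapeOf_act (t : TpD) (s : Sym) (m : Move) :
    tapeOf (actD (s, moveD m) t) = (tapeOf t).act s m := by
  obtain ⟨l, r⟩ := t
  funext i
  cases m with
  | left =>
    simp only [actD, moveD, Option.elim_some, cond_false, Tape.act]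
    rcases lt_trichotomy i 0 with h | h | h
    · have h1 : i - 1 ≠ 0 := by omega
      rw [Function.update_of_ne h1]
      have h2 : ¬ 0 ≤ i := by omega
      have h3 : ¬ 0 ≤ i - 1 := by omega
      have h4 : (-(i - 1) - 1).toNat = (-i - 1).toNat + 1 := by omega
      simp only [tapeOf, h2, h3, if_false, h4, List.getElem?_tail]
    · subst h
      have h1 : (0 : ℤ) - 1 ≠ 0 := by omega
      rw [Function.update_of_ne h1]
      simp [tapeOf, List.head?_eq_getElem?]
    · by_cases h1 : i = 1
      · subst h1
        simp [tapeOf]
      · have h2 : i - 1 ≠ 0 := by omega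
        rw [Function.update_of_ne h2]
        obtain ⟨j, hj⟩ : ∃ j : ℕ, i = j + 2 := ⟨(i - 2).toNat, by omega⟩
        subst hj
        have h3 : (0 : ℤ) ≤ (j : ℤ) + 2 := by omega
        have h4 : (0 : ℤ) ≤ (j : ℤ) + 2 - 1 := by omega
        have h5 : ((j : ℤ) + 2).toNat = j + 1 + 1 := by omega
        have h6 : ((j : ℤ) + 2 - 1).toNat = j + 1 := by omega
        simp only [tapeOf, h3, h4, if_true, h5, h6, List.getElem?_cons_succ, List.getElem?_tail]
  | stay =>
    simp only [actD, moveD, Option.elim_none, Tape.act]
    by_cases h : i = 0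
    · subst h
      simp [tapeOf]
    · rw [Function.update_of_ne h]
      by_cases h1 : 0 ≤ i
      · obtain ⟨j, hj⟩ : ∃ j : ℕ, i = j + 1 := ⟨(i - 1).toNat, by omega⟩
        subst hj
        have h3 : (0 : ℤ) ≤ (j : ℤ) + 1 := by omega
        have h5 : ((j : ℤ) + 1).toNat = j + 1 := by omega
        simp [tapeOf, h3, h5]
      · simp [tapeOf, h1]
  | right =>
    simp only [actD, moveD, Option.elim_some, cond_true, Tape.act]
    by_cases h : i + 1 = 0
    · have : i = -1 := by omega
      subst this
      simp [tapeOf]
    · rw [Function.update_of_ne h]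
      by_cases h1 : 0 ≤ i
      · have h2 : 0 ≤ i + 1 := by omega
        have h3 : (i + 1).toNat = i.toNat + 1 := by omega
        simp only [tapeOf, h1, h2, if_true, h3, List.getElem?_tail]
      · have h2 : ¬ 0 ≤ i + 1 := by omega
        have h3 : (-i - 1).toNat = (-(i + 1) - 1).toNat + 1 := by omega
        simp only [tapeOf, h1, h2, if_false, h3, List.getElem?_cons_succ]

theorem holds_wordOf (l r : List Sym) (w : Word) : (tapeOf (l, r)).Holds w ↔ w = wordOf r := by
  have h0 : ∀ i : ℕ, tapeOf (l, r) i = (r[i]?).getD none := by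
    intro i
    simp [tapeOf]
  simp only [Tape.Holds, h0]
  clear h0
  induction r generalizing w with
  | nil =>
    cases w with
    | nil => simp [wordOf]
    | cons b w =>
      simp only [wordOf, reduceCtorEq, iff_false, not_forall]
      exact ⟨0, by simp, by simp⟩
  | cons a r ih =>
    cases a with
    | none =>
      cases w with
      | nil => simp [wordOf]
      | cons b w =>
        simp only [wordOf, reduceCtorEq, iff_false, not_forall]
        exact ⟨0, by simp, by simp⟩
    | some b =>
      cases w with
      | nil =>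
        simp only [wordOf, reduceCtorEq, iff_false, not_forall]
        exact ⟨0, by simp, by simp⟩
      | cons c w =>
        rw [wordOf, List.cons.injEq]
        constructor
        · intro h
          refine ⟨by simpa using (h 0 (by simp)).symm, (ih w).1 fun i hi => ?_⟩
          simpa using h (i + 1) (by simpa using hi)
        · rintro ⟨rfl, h⟩ i hi
          cases i with
          | zero => simp
          | succ i => simpa using (ih w).2 h i (by simpa using hi)

end Pool.Agent.Lib.MP_6b6c7c_lc
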