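import Pool.Agent.Lib.MP_6b6c7c_lc.Defs

/-! # A structured language of six stacks, and its compilation to oracle Turing machines -/

namespace Pool.Agent.Lib.MP_6b6c7c_lc

/-- Stack names. -/
inductive Sk
  | m
  | q
  | r
  | a
  | b
  | n
  deriving DecidableEq

/-- Contents of the six stacks (top first). -/
@[ext] structure St where
  m : Word
  q : Word
  r : Word
  a : Word
  b : Word
  n : Word

def St.get (σ : St) : Sk → Word
  | .m => σ.m
  | .q => σ.q
  | .r => σ.r
  | .a => σ.a
  | .b => σ.b
  | .n => σ.n

def St.set (σ : St) : Sk → Word → St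
  | .m, w => ⟨w, σ.q, σ.r, σ.a, σ.b, σ.n⟩
  | .q, w => ⟨σ.m, w, σ.r, σ.a, σ.b, σ.n⟩
  | .r, w => ⟨σ.m, σ.q, w, σ.a, σ.b, σ.n⟩
  | .a, w => ⟨σ.m, σ.q, σ.r, w, σ.b, σ.n⟩
  | .b, w => ⟨σ.m, σ.q, σ.r, σ.a, w, σ.n⟩
  | .n, w => ⟨σ.m, σ.q, σ.r, σ.a, σ.b, w⟩

/-- Structured programs. -/
inductive Prog
  | push (s : Sk) (x : Bool)
  | pop (s : Sk)
  | seq (p q : Prog)
  | ite (s : Sk) (c : Option Bool → Bool) (p q : Prog)
  | loop (s : Sk) (c : Option Bool → Bool) (p : Prog)
  | ask (p q : Prog)
  | acc
  | rej

open Classical in
/-- Small steps on (control stack, stacks). -/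
noncomputable def sstep (O : Lang) : List Prog × St → List Prog × St
  | ([], σ) => ([], σ)
  | (.push s x :: K, σ) => (K, σ.set s (x :: σ.get s))
  | (.pop s :: K, σ) => (K, σ.set s (σ.get s).tail)
  | (.seq p q :: K, σ) => (p :: q :: K, σ)
  | (.ite s c p q :: K, σ) => (if c (σ.get s).head? then p :: K else q :: K, σ)
  | (.loop s c p :: K, σ) => (if c (σ.get s).head? then p :: .loop s c p :: K else K, σ)
  | (.ask p q :: K, σ) => (if σ.q ∈ O then p :: K else q :: K, σ)
  | (.acc :: K, σ) => (.acc :: K, σ)
  | (.rej :: K, σ) => (.rej :: K, σ)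

/-- Program `p` transforms `σ` to `σ'` in at most `n` small steps. -/
def Runs (O : Lang) (p : Prog) (σ : St) (n : ℕ) (σ' : St) : Prop :=
  ∀ K, ∃ t ≤ n, (sstep O)^[t] (p :: K, σ) = (K, σ')

namespace Runs

variable {O : Lang} {p q : Prog} {σ σ₁ σ₂ : St} {n m : ℕ}

theorem mono (h : Runs O p σ n σ₁) (hn : n ≤ m) : Runs O p σ m σ₁ := by
  intro K
  obtain ⟨t, ht, e⟩ := h K
  exact ⟨t, ht.trans hn, e⟩

theorem push (s : Sk) (x : Bool) : Runs O (.push s x) σ 1 (σ.set s (x :: σ.get s)) :=
  fun _ => ⟨1, le_rfl, rfl⟩

theorem pop (s : Sk) : Runs O (.pop s) σ 1 (σ.set s (σ.get s).tail) :=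
  fun _ => ⟨1, le_rfl, rfl⟩

theorem seq (h₁ : Runs O p σ n σ₁) (h₂ : Runs O q σ₁ m σ₂) :
    Runs O (.seq p q) σ (n + m + 1) σ₂ := by
  intro K
  obtain ⟨t₁, ht₁, e₁⟩ := h₁ (q :: K)
  obtain ⟨t₂, ht₂, e₂⟩ := h₂ K
  refine ⟨t₂ + (t₁ + 1), by omega, ?_⟩
  rw [Function.iterate_add_apply, Function.iterate_succ_apply]
  change (sstep O)^[t₂] ((sstep O)^[t₁] (p :: q :: K, σ)) = _
  rw [e₁, e₂]

theorem ite_true {s : Sk} {c : Option Bool → Bool} (hc : c (σ.get s).head? = true)
    (h : Runs O p σ n σ₁) : Runs O (.ite s c p q) σ (n + 1) σ₁ := by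
  intro K
  obtain ⟨t, ht, e⟩ := h K
  refine ⟨t + 1, by omega, ?_⟩
  rw [Function.iterate_succ_apply]
  simpa [sstep, hc] using e

theorem ite_false {s : Sk} {c : Option Bool → Bool} (hc : c (σ.get s).head? = false)
    (h : Runs O q σ n σ₁) : Runs O (.ite s c p q) σ (n + 1) σ₁ := by
  intro K
  obtain ⟨t, ht, e⟩ := h K
  refine ⟨t + 1, by omega, ?_⟩
  rw [Function.iterate_succ_apply]
  simpa [sstep, hc] using e

theorem loop_false {s : Sk} {c : Option Bool → Bool} (hc : c (σ.get s).head? = false) :
    Runs O (.loop s c p) σ 1 σ := by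
  intro K
  refine ⟨1, le_rfl, ?_⟩
  simp [sstep, hc]

theorem loop_true {s : Sk} {c : Option Bool → Bool} (hc : c (σ.get s).head? = true)
    (h₁ : Runs O p σ n σ₁) (h₂ : Runs O (.loop s c p) σ₁ m σ₂) :
    Runs O (.loop s c p) σ (n + m + 1) σ₂ := by
  intro K
  obtain ⟨t₁, ht₁, e₁⟩ := h₁ (.loop s c p :: K)
  obtain ⟨t₂, ht₂, e₂⟩ := h₂ K
  refine ⟨t₂ + (t₁ + 1), by omega, ?_⟩
  rw [Function.iterate_add_apply, Function.iterate_succ_apply]
  have : sstep O (.loop s c p :: K, σ) = (p :: .loop s c p :: K, σ) := by simp [sstep, hc]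
  rw [this, e₁, e₂]

theorem ask_yes (hc : σ.q ∈ O) (h : Runs O p σ n σ₁) : Runs O (.ask p q) σ (n + 1) σ₁ := by
  intro K
  obtain ⟨t, ht, e⟩ := h K
  refine ⟨t + 1, by omega, ?_⟩
  rw [Function.iterate_succ_apply]
  simpa [sstep, hc] using e

theorem ask_no (hc : σ.q ∉ O) (h : Runs O q σ n σ₁) : Runs O (.ask p q) σ (n + 1) σ₁ := by
  intro K
  obtain ⟨t, ht, e⟩ := h K
  refine ⟨t + 1, by omega, ?_⟩
  rw [Function.iterate_succ_apply]
  simpa [sstep, hc] using e

end Runs

/-! ## Control states of a program -/

/-- All controls met while executing `p` with continuation `K`. -/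
def ctl : Prog → List Prog → List (List Prog)
  | .push s x, K => [.push s x :: K]
  | .pop s, K => [.pop s :: K]
  | .seq p q, K => (.seq p q :: K) :: (ctl p (q :: K) ++ ctl q K)
  | .ite s c p q, K => (.ite s c p q :: K) :: (ctl p K ++ ctl q K)
  | .loop s c p, K => (.loop s c p :: K) :: ctl p (.loop s c p :: K)
  | .ask p q, K => (.ask p q :: K) :: (ctl p K ++ ctl q K)
  | .acc, K => [.acc :: K]
  | .rej, K => [.rej :: K]

/-- Possible successors of a control. -/
def nexts : List Prog → List (List Prog)
  | [] => [[]]
  | .push _ _ :: K => [K]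
  | .pop _ :: K => [K]
  | .seq p q :: K => [p :: q :: K]
  | .ite _ _ p q :: K => [p :: K, q :: K]
  | .loop s c p :: K => [p :: .loop s c p :: K, K]
  | .ask p q :: K => [p :: K, q :: K]
  | .acc :: K => [.acc :: K]
  | .rej :: K => [.rej :: K]

theorem sstep_mem_nexts (O : Lang) (L : List Prog) (σ : St) :
    (sstep O (L, σ)).1 ∈ nexts L := by
  rcases L with _ | ⟨p, K⟩
  · simp [sstep, nexts]
  · cases p with
    | ite s c p q =>
      simp only [sstep, nexts]
      cases c (List.head? (σ.get s)) <;> simp
    | loop s c p =>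
      simp only [sstep, nexts]
      cases c (List.head? (σ.get s)) <;> simp
    | ask p q =>
      simp only [sstep, nexts]
      by_cases h : σ.q ∈ O <;> simp [h]
    | _ => simp [sstep, nexts]

theorem self_mem_ctl (p : Prog) (K : List Prog) : p :: K ∈ ctl p K := by
  cases p <;> simp [ctl]

theorem nexts_ctl (p : Prog) : ∀ (K L : List Prog), L ∈ ctl p K → ∀ L' ∈ nexts L,
    L' ∈ ctl p K ∨ L' = K := by
  induction p with
  | push s x =>
    intro K L hL L' hL'
    simp only [ctl, List.mem_singleton] at hL
    subst hL
    simp only [nexts, List.mem_singleton] at hL'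
    exact Or.inr hL'
  | pop s =>
    intro K L hL L' hL'
    simp only [ctl, List.mem_singleton] at hL
    subst hL
    simp only [nexts, List.mem_singleton] at hL'
    exact Or.inr hL'
  | seq p q ihp ihq =>
    intro K L hL L' hL'
    simp only [ctl, List.mem_cons, List.mem_append] at hL
    rcases hL with rfl | h | h
    · simp only [nexts, List.mem_singleton] at hL'
      subst hL'
      left
      simp only [ctl, List.mem_cons, List.mem_append]
      exact Or.inr (Or.inl (self_mem_ctl _ _))
    · rcases ihp _ _ h _ hL' with h' | h'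
      · left; simp only [ctl, List.mem_cons, List.mem_append]; exact Or.inr (Or.inl h')
      · left; simp only [ctl, List.mem_cons, List.mem_append]; subst h'
        exact Or.inr (Or.inr (self_mem_ctl _ _))
    · rcases ihq _ _ h _ hL' with h' | h'
      · left; simp only [ctl, List.mem_cons, List.mem_append]; exact Or.inr (Or.inr h')
      · exact Or.inr h'
  | ite s c p q ihp ihq =>
    intro K L hL L' hL'
    simp only [ctl, List.mem_cons, List.mem_append] at hL
    rcases hL with rfl | h | h
    · simp only [nexts, List.mem_cons, List.not_mem_nil, or_false] at hL'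
      left
      simp only [ctl, List.mem_cons, List.mem_append]
      rcases hL' with rfl | rfl
      · exact Or.inr (Or.inl (self_mem_ctl _ _))
      · exact Or.inr (Or.inr (self_mem_ctl _ _))
    · rcases ihp _ _ h _ hL' with h' | h'
      · left; simp only [ctl, List.mem_cons, List.mem_append]; exact Or.inr (Or.inl h')
      · exact Or.inr h'
    · rcases ihq _ _ h _ hL' with h' | h'
      · left; simp only [ctl, List.mem_cons, List.mem_append]; exact Or.inr (Or.inr h')
      · exact Or.inr h'
  | loop s c p ih =>
    intro K L hL L' hL'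
    simp only [ctl, List.mem_cons] at hL
    rcases hL with rfl | h
    · simp only [nexts, List.mem_cons, List.not_mem_nil, or_false] at hL'
      rcases hL' with rfl | rfl
      · left; simp only [ctl, List.mem_cons]; exact Or.inr (self_mem_ctl _ _)
      · exact Or.inr rfl
    · rcases ih _ _ h _ hL' with h' | h'
      · left; simp only [ctl, List.mem_cons]; exact Or.inr h'
      · left; simp only [ctl, List.mem_cons]; exact Or.inl h'
  | ask p q ihp ihq =>
    intro K L hL L' hL'
    simp only [ctl, List.mem_cons, List.mem_append] at hL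
    rcases hL with rfl | h | h
    · simp only [nexts, List.mem_cons, List.not_mem_nil, or_false] at hL'
      left
      simp only [ctl, List.mem_cons, List.mem_append]
      rcases hL' with rfl | rfl
      · exact Or.inr (Or.inl (self_mem_ctl _ _))
      · exact Or.inr (Or.inr (self_mem_ctl _ _))
    · rcases ihp _ _ h _ hL' with h' | h'
      · left; simp only [ctl, List.mem_cons, List.mem_append]; exact Or.inr (Or.inl h')
      · exact Or.inr h'
    · rcases ihq _ _ h _ hL' with h' | h'
      · left; simp only [ctl, List.mem_cons, List.mem_append]; exact Or.inr (Or.inr h')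
      · exact Or.inr h'
  | acc =>
    intro K L hL L' hL'
    simp only [ctl, List.mem_singleton] at hL
    subst hL
    simp only [nexts, List.mem_singleton] at hL'
    left; simpa [ctl] using hL'
  | rej =>
    intro K L hL L' hL'
    simp only [ctl, List.mem_singleton] at hL
    subst hL
    simp only [nexts, List.mem_singleton] at hL'
    left; simpa [ctl] using hL'

/-- Controls of the whole program, with the empty control. -/
def ctls (P : Prog) : List (List Prog) := [] :: ctl P []

theorem nexts_ctls {P : Prog} {L : List Prog} (hL : L ∈ ctls P) {L' : List Prog}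
    (h : L' ∈ nexts L) : L' ∈ ctls P := by
  simp only [ctls, List.mem_cons] at hL ⊢
  rcases hL with rfl | hL
  · simp only [nexts, List.mem_singleton] at h
    exact Or.inl h
  · rcases nexts_ctl _ _ _ hL _ h with h' | h'
    · exact Or.inr h'
    · exact Or.inl h'

/-! ## The compiled machine -/

section Compile

variable (P : Prog)

/-- State type of the compiled machine. -/
abbrev CS : Type := {L : List Prog // L ∈ ctls P} × Bool

noncomputable instance : Fintype (CS P) := by
  classical
  exact inferInstanceAs (Fintype ({L : List Prog // L ∈ ctls P} × Bool))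

/-- State of a control and a phase. -/
noncomputable def cst (L : List Prog) (ph : Bool) : Fin (Fintype.card (CS P)) :=
  letI := Classical.dec (L ∈ ctls P)
  Fintype.equivFin (CS P) (if h : L ∈ ctls P then (⟨L, h⟩, ph) else (⟨[], by simp [ctls]⟩, ph))

/-- Tape of a stack. -/
def Sk.tape : Sk → Fin (4 + 2)
  | .m => 0
  | .q => 1
  | .r => 2
  | .a => 3
  | .b => 4
  | .n => 5

/-- Stack of a tape. -/
def stk : Fin (4 + 2) → Sk
  | 0 => .m
  | 1 => .q
  | 2 => .r
  | 3 => .a
  | 4 => .b
  | 5 => .n

@[simp] theorem stk_tape (s : Sk) : stk s.tape = s := by cases s <;> rfl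

@[simp] theorem tape_stk (i : Fin (4 + 2)) : (stk i).tape = i := by
  revert i; decide

/-- Do nothing. -/
def idle {n : ℕ} (nxt : (Fin (4 + 2) → Option Bool) → Fin n) : Instr (4 + 2) n :=
  .act fun s => (nxt s, fun i => (s i, .stay))

/-- Act on a single tape. -/
def on {n : ℕ} (j : Fin (4 + 2)) (w : Option Bool → Option Bool × Move) (nxt : Fin n) :
    Instr (4 + 2) n :=
  .act fun s => (nxt, fun i => if i = j then w (s i) else (s i, .stay))

/-- The instruction of a control and phase. -/
noncomputable def cinstr : List Prog → Bool → Instr (4 + 2) (Fintype.card (CS P))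
  | [], _ => .reject
  | .acc :: _, _ => .accept
  | .rej :: _, _ => .reject
  | .push s x :: K, false =>
      on s.tape (fun o => (o, if o.isSome then .left else .stay)) (cst P (.push s x :: K) true)
  | .push s x :: K, true => on s.tape (fun _ => (some x, .stay)) (cst P K false)
  | L@(.pop _ :: _), false => idle fun _ => cst P L true
  | .pop s :: K, true => on s.tape (fun _ => (none, .right)) (cst P K false)
  | L@(.seq _ _ :: _), false => idle fun _ => cst P L true
  | .seq p q :: K, true => idle fun _ => cst P (p :: q :: K) false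
  | L@(.ite _ _ _ _ :: _), false => idle fun _ => cst P L true
  | .ite s c p q :: K, true =>
      idle fun f => if c (f s.tape) then cst P (p :: K) false else cst P (q :: K) false
  | L@(.loop _ _ _ :: _), false => idle fun _ => cst P L true
  | .loop s c p :: K, true =>
      idle fun f => if c (f s.tape) then cst P (p :: .loop s c p :: K) false else cst P K false
  | L@(.ask _ _ :: _), false => idle fun _ => cst P L true
  | .ask p q :: K, true => .query (cst P (p :: K) false) (cst P (q :: K) false)

/-- The instruction table of the compiled machine. -/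
noncomputable def cprog (i : Fin (Fintype.card (CS P))) :
    Instr (4 + 2) (Fintype.card (CS P)) :=
  cinstr P ((Fintype.equivFin (CS P)).symm i).1.1 ((Fintype.equivFin (CS P)).symm i).2

/-- The compiled machine. -/
@[reducible] noncomputable def comp : OTM where
  k := 4
  n := Fintype.card (CS P)
  start := cst P [P] false
  prog := cprog P

theorem comp_prog {L : List Prog} (hL : L ∈ ctls P) (ph : Bool) :
    cprog P (cst P L ph) = cinstr P L ph := by
  simp [cprog, cst, hL]

/-- Tape of a stack in the resting state. -/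
def tp (w : Word) : Tape := Tape.ofWord w

/-- Tape of a stack with the head on the cell left of the top. -/
def tu (w : Word) : Tape := fun i => if 1 ≤ i then w[(i - 1).toNat]? else none

theorem tp_zero (w : Word) : tp w 0 = w.head? := by
  cases w <;> simp [tp, Tape.ofWord]

theorem tp_stay (w : Word) : (tp w).act (tp w 0) .stay = tp w := by
  simp [Tape.act]

theorem act_stay (t : Tape) : t.act (t 0) .stay = t := by
  simp [Tape.act]

theorem tp_pop (w : Word) : (tp w).act none .right = tp w.tail := by
  funext i
  simp only [Tape.act, tp, Tape.ofWord, Function.update_apply]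
  rcases lt_trichotomy i (-1) with h | h | h
  · have h1 : ¬ i + 1 = 0 := by omega
    have h2 : ¬ 0 ≤ i + 1 := by omega
    have h3 : ¬ 0 ≤ i := by omega
    simp [h1, h2, h3]
  · subst h
    simp
  · have h1 : ¬ i + 1 = 0 := by omega
    have h2 : 0 ≤ i + 1 := by omega
    have h3 : 0 ≤ i := by omega
    have h4 : (i + 1).toNat = i.toNat + 1 := by omega
    simp [h1, h2, h3, h4]

theorem tp_left (a : Bool) (w : Word) : (tp (a :: w)).act (some a) .left = tu (a :: w) := by
  funext i
  simp only [Tape.act, tp, tu, Tape.ofWord, Function.update_apply]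
  rcases lt_trichotomy i 1 with h | h | h
  · have h1 : ¬ i - 1 = 0 := by omega
    have h2 : ¬ 0 ≤ i - 1 := by omega
    have h3 : ¬ 1 ≤ i := by omega
    simp [h1, h2, h3]
  · subst h
    simp
  · have h1 : ¬ i - 1 = 0 := by omega
    have h2 : 0 ≤ i - 1 := by omega
    have h3 : 1 ≤ i := by omega
    rw [if_neg h1, if_pos h2, if_pos h3]

theorem tp_nil : tp [] = tu [] := by
  funext i
  simp [tp, tu, Tape.ofWord]

theorem tu_put (x : Bool) (w : Word) : (tu w).act (some x) .stay = tp (x :: w) := by
  funext i
  simp only [Tape.act, tp, tu, Tape.ofWord, Function.update_apply]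
  rcases lt_trichotomy i 0 with h | h | h
  · have h1 : ¬ i = 0 := by omega
    have h2 : ¬ 0 ≤ i := by omega
    have h3 : ¬ 1 ≤ i := by omega
    rw [if_neg h1, if_neg h2, if_neg h3]
  · subst h
    simp
  · have h1 : ¬ i = 0 := by omega
    have h2 : 0 ≤ i := by omega
    have h3 : 1 ≤ i := by omega
    have h4 : i.toNat = (i - 1).toNat + 1 := by omega
    rw [if_neg h1, if_pos h2, if_pos h3, h4, List.getElem?_cons_succ]

theorem holds_tp (v w : Word) : (tp v).Holds w ↔ w = v := by
  constructor
  · intro h
    apply List.ext_getElem?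
    intro i
    by_cases hi : i ≤ w.length
    · have := h i hi
      simpa [tp, Tape.ofWord] using this.symm
    · push Not at hi
      have h1 := h w.length le_rfl
      simp only [tp, Tape.ofWord, Int.natCast_nonneg, if_true, Int.toNat_natCast] at h1
      rw [List.getElem?_eq_none (le_refl w.length), List.getElem?_eq_none_iff] at h1
      rw [List.getElem?_eq_none hi.le, List.getElem?_eq_none (h1.trans hi.le)]
  · rintro rfl i _
    simp [tp, Tape.ofWord]

/-- Resting configuration. -/
noncomputable def ccfg (c : List Prog × St) : (comp P).Cfg :=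
  ⟨cst P c.1 false, fun i => tp (c.2.get (stk i))⟩

theorem get_set (σ : St) (s s' : Sk) (w : Word) :
    (σ.set s w).get s' = if s' = s then w else σ.get s' := by
  cases s <;> cases s' <;> simp [St.get, St.set]

theorem tape_eq_iff (i : Fin (4 + 2)) (s : Sk) : i = s.tape ↔ stk i = s := by
  constructor
  · rintro rfl; simp
  · rintro rfl; simp

theorem step_idle (O : Lang) {L : List Prog} (hL : L ∈ ctls P) (ph : Bool)
    (nxt : (Fin (4 + 2) → Option Bool) → Fin (Fintype.card (CS P)))
    (h : cinstr P L ph = idle nxt) (t : Fin (4 + 2) → Tape) :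
    (comp P).step O ⟨cst P L ph, t⟩ = ⟨nxt fun i => t i 0, t⟩ := by
  have h1 := comp_prog P hL ph
  rw [h] at h1
  simp only [OTM.step, h1, idle]
  congr 1
  funext i
  exact act_stay _

theorem step_on (O : Lang) {L : List Prog} (hL : L ∈ ctls P) (ph : Bool)
    (s : Sk) (w : Option Bool → Option Bool × Move) (nxt : Fin (Fintype.card (CS P)))
    (h : cinstr P L ph = on s.tape w nxt) (t : Fin (4 + 2) → Tape) :
    (comp P).step O ⟨cst P L ph, t⟩ =
      ⟨nxt, fun i => if stk i = s then (t i).act (w (t i 0)).1 (w (t i 0)).2 else t i⟩ := by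
  have h1 := comp_prog P hL ph
  rw [h] at h1
  simp only [OTM.step, h1, on]
  congr 1
  funext i
  by_cases hi : stk i = s
  · rw [if_pos hi, if_pos ((tape_eq_iff i s).2 hi)]
  · rw [if_neg hi, if_neg (fun h => hi ((tape_eq_iff i s).1 h))]
    exact act_stay _

theorem step_two (O : Lang) (c : List Prog × St) (hc : c.1 ∈ ctls P) :
    ((comp P).step O)^[2] (ccfg P c) = ccfg P (sstep O c) := by
  obtain ⟨L, σ⟩ := c
  simp only [Function.iterate_succ, Function.iterate_zero, Function.comp_apply, id_eq]
  have hhalt : ∀ (h : cinstr P L false = .accept ∨ cinstr P L false = .reject),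
      (comp P).step O (ccfg P (L, σ)) = ccfg P (L, σ) := by
    intro h
    have h1 := comp_prog P hc false
    rcases h with h | h <;> rw [h] at h1 <;> simp only [OTM.step, ccfg, h1]
  rcases L with _ | ⟨p, K⟩
  · rw [hhalt (Or.inr rfl), hhalt (Or.inr rfl)]
    rfl
  cases p with
  | push s x =>
    have e1 : (comp P).step O (ccfg P (.push s x :: K, σ)) = ⟨cst P (.push s x :: K) true,
        fun i => if stk i = s then tu (σ.get (stk i)) else tp (σ.get (stk i))⟩ := by
      rw [ccfg, step_on P O hc false s (fun o => (o, if o.isSome then .left else .stay)) _ rfl]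
      congr 1
      funext i
      by_cases hi : stk i = s
      · simp only [hi, if_true]
        rcases h : σ.get s with _ | ⟨a, w⟩
        · simp only [tp_zero, List.head?_nil, Option.isSome_none, Bool.false_eq_true, if_false]
          have := tp_stay []
          rw [tp_zero] at this
          simp only [List.head?_nil] at this
          rw [this, tp_nil]
        · simp only [tp_zero, List.head?_cons, Option.isSome_some, if_true]
          exact tp_left a w
      · simp only [hi, if_false]
    rw [e1, step_on P O hc true s (fun _ => (some x, .stay)) _ rfl]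
    simp only [sstep, ccfg]
    congr 1
    funext i
    rw [get_set]
    by_cases hi : stk i = s
    · simp only [hi, if_true]
      exact tu_put _ _
    · simp only [hi, if_false]
  | pop s =>
    rw [ccfg, step_idle P O hc false _ rfl, step_on P O hc true s (fun _ => (none, .right)) _ rfl]
    simp only [sstep, ccfg]
    congr 1
    funext i
    rw [get_set]
    by_cases hi : stk i = s
    · simp only [hi, if_true]
      exact tp_pop _
    · simp only [hi, if_false]
  | seq p q =>
    rw [ccfg, step_idle P O hc false _ rfl, step_idle P O hc true _ rfl]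
    simp only [sstep, ccfg]
  | ite s c p q =>
    rw [ccfg, step_idle P O hc false _ rfl, step_idle P O hc true _ rfl]
    simp only [sstep, ccfg, stk_tape, tp_zero]
    split_ifs <;> rfl
  | loop s c p =>
    rw [ccfg, step_idle P O hc false _ rfl, step_idle P O hc true _ rfl]
    simp only [sstep, ccfg, stk_tape, tp_zero]
    split_ifs <;> rfl
  | ask p q =>
    rw [ccfg, step_idle P O hc false _ rfl]
    have h1 := comp_prog P hc true
    rw [cinstr] at h1
    simp only [OTM.step, h1, sstep, ccfg]
    have h2 : (∃ w ∈ O, (tp (σ.get (stk 1))).Holds w) ↔ σ.q ∈ O := by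
      simp only [holds_tp]
      constructor
      · rintro ⟨w, hw, rfl⟩
        exact hw
      · intro h
        exact ⟨_, h, rfl⟩
    by_cases h3 : σ.q ∈ O
    · simp only [h2.2 h3, if_true, h3]
    · simp only [if_neg (fun h => h3 (h2.1 h)), h3, if_false]
  | acc =>
    rw [hhalt (Or.inl rfl), hhalt (Or.inl rfl)]
    rfl
  | rej =>
    rw [hhalt (Or.inr rfl), hhalt (Or.inr rfl)]
    rfl

theorem steps_two (O : Lang) (t : ℕ) : ∀ c : List Prog × St, c.1 ∈ ctls P →
    ((comp P).step O)^[2 * t] (ccfg P c) = ccfg P ((sstep O)^[t] c) ∧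
      ((sstep O)^[t] c).1 ∈ ctls P := by
  induction t with
  | zero => intro c hc; exact ⟨rfl, hc⟩
  | succ t ih =>
    intro c hc
    have h1 : (sstep O c).1 ∈ ctls P := nexts_ctls hc (sstep_mem_nexts O c.1 c.2)
    have h2 := ih (sstep O c) h1
    rw [show 2 * (t + 1) = 2 * t + 2 by ring, Function.iterate_add_apply, step_two P O c hc,
      Function.iterate_succ_apply]
    exact h2

/-- State with input. -/
def St.start (x : Word) : St := ⟨x, [], [], [], [], []⟩

theorem comp_init (x : Word) : (comp P).init x = ccfg P ([P], St.start x) := by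
  simp only [OTM.init, ccfg, comp]
  congr 1
  funext i
  by_cases hi : i = 0
  · subst hi; rfl
  · rw [if_neg hi]
    have : ∀ i : Fin (4 + 2), i ≠ 0 → (St.start x).get (stk i) = [] := by
      intro i hi
      fin_cases i <;> first | rfl | exact absurd rfl hi
    rw [this i hi]
    rfl

theorem self_mem_ctls : [P] ∈ ctls P := by
  simp only [ctls, List.mem_cons]
  exact Or.inr (self_mem_ctl _ _)

theorem comp_after (O : Lang) (x : Word) (t : ℕ) :
    (comp P).after O x (2 * t) = ccfg P ((sstep O)^[t] ([P], St.start x)) := by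
  rw [OTM.after, comp_init]
  exact (steps_two P O t _ (self_mem_ctls P)).1

/-- halting configurations are fixed -/
theorem step_halt (M : OTM) (O : Lang) (c : M.Cfg)
    (h : M.prog c.state = .accept ∨ M.prog c.state = .reject) : M.step O c = c := by
  rcases h with h | h <;> simp [OTM.step, h]

theorem after_mono (M : OTM) (O : Lang) (x : Word) {s t : ℕ} (hst : s ≤ t)
    (h : M.prog (M.after O x s).state = .accept ∨ M.prog (M.after O x s).state = .reject) :
    M.after O x t = M.after O x s := by
  obtain ⟨d, rfl⟩ := Nat.exists_eq_add_of_le' hst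
  rw [OTM.after, Function.iterate_add_apply]
  have : Function.IsFixedPt (M.step O) (M.after O x s) := step_halt M O _ h
  exact Function.IsFixedPt.iterate this d

theorem comp_accepts {O : Lang} {x : Word} {t : ℕ} {K : List Prog} {σ : St}
    (h : (sstep O)^[t] ([P], St.start x) = (.acc :: K, σ)) {T : ℕ} (hT : 2 * t ≤ T) :
    (comp P).Accepts O x T := by
  have hm := (steps_two P O t ([P], St.start x) (self_mem_ctls P)).2
  rw [h] at hm
  have h1 : (comp P).prog ((comp P).after O x (2 * t)).state = .accept := by
    rw [comp_after, h, ccfg]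
    exact comp_prog P hm false
  have h2 := after_mono (comp P) O x hT (Or.inl h1)
  rw [OTM.Accepts, h2, h1]

theorem comp_rejects {O : Lang} {x : Word} {t : ℕ} {K : List Prog} {σ : St}
    (h : (sstep O)^[t] ([P], St.start x) = (.rej :: K, σ)) {T : ℕ} (hT : 2 * t ≤ T) :
    (comp P).Rejects O x T := by
  have hm := (steps_two P O t ([P], St.start x) (self_mem_ctls P)).2
  rw [h] at hm
  have h1 : (comp P).prog ((comp P).after O x (2 * t)).state = .reject := by
    rw [comp_after, h, ccfg]
    exact comp_prog P hm false
  have h2 := after_mono (comp P) O x hT (Or.inr h1)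
  rw [OTM.Rejects, h2, h1]

end Compile

end Pool.Agent.Lib.MP_6b6c7c_lc
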