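import Pool.Agent.Lib.MP_6b6c7c_lc.Univ

/-! # The construction -/

namespace Pool.Agent.Lib.MP_6b6c7c_lc

open Polynomial

/-- Key words. -/
def wd (n b : ℕ) : Word := false :: (List.range (n + n)).map fun j => decide (j = b)

/-- The described computation accepts within `pw |v|` steps. -/
def cval (pw : ℕ → ℕ) (v : Word) : Bool :=
  simAcc (fun _ => false) (Enc.dec (parse v) : Desc × Word).1 (Enc.dec (parse v) : Desc × Word).2
    (pw v.length)

/-- Membership in the set determined by the keys `K`. -/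
def inA (pw : ℕ → ℕ) (K : List Word) (z : Word) : Bool :=
  (K[(ix z.length).1]?).elim false fun κ =>
    ((List.range (ix z.length).2).any fun b =>
      decide (z = wd (ix z.length).2 b) && (κ[b]?).getD false) ||
    ((decide (z.head? = some true) && decide (z.tail.take (ix z.length).2 = κ)) &&
      cval pw (z.tail.drop (ix z.length).2))

/-- The triple of descriptions treated at stage `i`. -/
def tri (i : ℕ) : Desc × (Desc × Desc) := Enc.dec (parse (ibits i))

def vis (T : ℕ) (d : Desc) (z : Word) : Bool := simAcc (fun _ => false) d z T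

/-- Number of key words accepted by `d`. -/
def cnt (T : ℕ) (d : Desc) (n : ℕ) : ℕ := ((List.range n).filter fun b => vis T d (wd n b)).length

/-- Whether at most half of the key words are accepted. -/
def flg (T : ℕ) (d : Desc) (n : ℕ) : Bool := decide (cnt T d n + cnt T d n ≤ n)

/-- The weak side. -/
def side (T : ℕ) (d : Desc) (n : ℕ) (z : Word) : Bool :=
  bif flg T d n then vis T d z else !(vis T d z)

/-- Time bound of a stage. -/
def tm (pw : ℕ → ℕ) (n : ℕ) : ℕ := pw (n / 2 / 2)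

/-- Oracle answers of a stage. -/
def ansF (pw : ℕ → ℕ) (n : ℕ) (K : List Word) (z : Word) : Bool :=
  side (tm pw n) (tri K.length).1 n z && inA pw K z

/-- The reduction to the weak side. -/
def dm (pw : ℕ → ℕ) (n : ℕ) (K : List Word) : Desc :=
  bif flg (tm pw n) (tri K.length).1 n then (tri K.length).2.1 else (tri K.length).2.2

/-- First position that is not on the weak side. -/
def b0 (pw : ℕ → ℕ) (n : ℕ) (K : List Word) : ℕ :=
  ((List.range n).find? fun b => !(side (tm pw n) (tri K.length).1 n (wd n b))).getD 0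

/-- Result of the reduction. -/
def outc (pw : ℕ → ℕ) (n : ℕ) (K : List Word) : Bool :=
  simAcc (ansF pw n K) (dm pw n K) (wd n (b0 pw n K)) (tm pw n)

/-- Key parts of the possible queries. -/
def hit (pw : ℕ → ℕ) (n : ℕ) (K : List Word) (κ : Word) : Bool :=
  (List.range (tm pw n)).any fun s =>
    decide ((oword (simRun (ansF pw n K) (dm pw n K) (wd n (b0 pw n K)) s)).tail.take n = κ)

def valid (pw : ℕ → ℕ) (n : ℕ) (K : List Word) (κ : Word) : Bool :=
  ((List.range n).all fun b =>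
    !(side (tm pw n) (tri K.length).1 n (wd n b)) || !((κ[b]?).getD false)) &&
  decide ((κ[b0 pw n K]?).getD false = !(outc pw n K))

def cands (pw : ℕ → ℕ) (n : ℕ) : List Word :=
  (List.range (pw n)).map fun t => (List.range n).map fun j => t.testBit j

/-- The key of a stage. -/
def skey (pw : ℕ → ℕ) (n : ℕ) (K : List Word) : Word :=
  ((cands pw n).find? fun κ => valid pw n K κ && !(hit pw n K κ)).getD (List.replicate n false)

def kstep (pw : ℕ → ℕ) (s : ℕ × List Word) : ℕ × List Word :=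
  (pw s.1, s.2 ++ [skey pw s.1 s.2])

/-- Tower number and list of keys before stage `i`. -/
def keys (pw : ℕ → ℕ) (i : ℕ) : ℕ × List Word := (kstep pw)^[i] (0, [])

/-- The complete set. -/
def theA : Lang := {z | inA (fun e => 2 ^ e) (keys (fun e => 2 ^ e) ((ix z.length).1 + 1)).2 z = true}

/-! ## Polynomial-time computability -/

section PolyTime

attribute [local irreducible] pwt ix parse ibits scan actD wordOf oword rowD simStep simInit accD
  simRun simAcc wd cval inA tri vis cnt flg side tm ansF dm b0 outc hit valid cands skey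

variable {ι : Type} [Enc ι]

theorem Poly.wd {n b : Lang → ι → ℕ} (hn : Poly n) (hb : Poly b) :
    Poly fun O i => MP_6b6c7c_lc.wd (n O i) (b O i) := by
  have h : Poly fun _ (p : ℕ × ℕ) => MP_6b6c7c_lc.wd p.1 p.2 := by
    unfold MP_6b6c7c_lc.wd
    apply_rules (maxDepth := 400) [Poly.id, Poly.fst, Poly.snd, Poly.map, Poly.range, Poly.eq,
      Poly.add, Poly.cons, Poly.const]
  exact comp h (pair hn hb)

theorem Poly.cval {N : Lang → ι → ℕ} {v : Lang → ι → Word} (hN : Poly N) (hv : Poly v) :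
    Poly fun O i => MP_6b6c7c_lc.cval (MP_6b6c7c_lc.pwt (N O i)) (v O i) := by
  have h : Poly fun _ (p : ℕ × Word) => MP_6b6c7c_lc.cval (MP_6b6c7c_lc.pwt p.1) p.2 := by
    unfold MP_6b6c7c_lc.cval
    exact Poly.simAcc (Poly.const false) (Poly.fst (Poly.dec (Poly.parse Poly.snd')))
      (Poly.snd (Poly.dec (Poly.parse Poly.snd'))) (Poly.pwt Poly.fst' (Poly.length Poly.snd'))
  exact comp h (pair hN hv)

theorem Poly.inA {N : Lang → ι → ℕ} {K : Lang → ι → List Word} {z : Lang → ι → Word}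
    (hN : Poly N) (hK : Poly K) (hz : Poly z) :
    Poly fun O i => MP_6b6c7c_lc.inA (MP_6b6c7c_lc.pwt (N O i)) (K O i) (z O i) := by
  have h : Poly fun _ (p : ℕ × (List Word × Word)) =>
      MP_6b6c7c_lc.inA (MP_6b6c7c_lc.pwt p.1) p.2.1 p.2.2 := by
    unfold MP_6b6c7c_lc.inA
    apply_rules (maxDepth := 400) [Poly.id, Poly.fst, Poly.snd, Poly.elim, Poly.get?, Poly.ix,
      Poly.length, Poly.or, Poly.and, Poly.any, Poly.range, Poly.eq, Poly.getD, Poly.head?,
      Poly.take, Poly.tail, Poly.drop, Poly.wd, Poly.cval, Poly.const]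
  exact comp h (pair hN (pair hK hz))

theorem Poly.tri {i : Lang → ι → ℕ} (hi : Poly i) : Poly fun O a => MP_6b6c7c_lc.tri (i O a) := by
  have h : Poly fun _ (p : ℕ) => MP_6b6c7c_lc.tri p := by
    unfold MP_6b6c7c_lc.tri
    exact dec (Poly.parse (Poly.ibits id))
  exact comp h hi

theorem Poly.vis {T : Lang → ι → ℕ} {d : Lang → ι → Desc} {z : Lang → ι → Word}
    (hT : Poly T) (hd : Poly d) (hz : Poly z) :
    Poly fun O i => MP_6b6c7c_lc.vis (T O i) (d O i) (z O i) := by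
  unfold MP_6b6c7c_lc.vis
  exact Poly.simAcc (const false) hd hz hT

theorem Poly.cnt {T : Lang → ι → ℕ} {d : Lang → ι → Desc} {n : Lang → ι → ℕ}
    (hT : Poly T) (hd : Poly d) (hn : Poly n) :
    Poly fun O i => MP_6b6c7c_lc.cnt (T O i) (d O i) (n O i) := by
  have h : Poly fun _ (p : ℕ × (Desc × ℕ)) => MP_6b6c7c_lc.cnt p.1 p.2.1 p.2.2 := by
    unfold MP_6b6c7c_lc.cnt
    apply_rules (maxDepth := 400) [Poly.id, Poly.fst, Poly.snd, Poly.length, Poly.filter,
      Poly.range, Poly.vis, Poly.wd]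
  exact comp h (pair hT (pair hd hn))

theorem Poly.flg {T : Lang → ι → ℕ} {d : Lang → ι → Desc} {n : Lang → ι → ℕ}
    (hT : Poly T) (hd : Poly d) (hn : Poly n) :
    Poly fun O i => MP_6b6c7c_lc.flg (T O i) (d O i) (n O i) := by
  unfold MP_6b6c7c_lc.flg
  exact Poly.le (Poly.add (Poly.cnt hT hd hn) (Poly.cnt hT hd hn)) hn

theorem Poly.side {T : Lang → ι → ℕ} {d : Lang → ι → Desc} {n : Lang → ι → ℕ} {z : Lang → ι → Word}
    (hT : Poly T) (hd : Poly d) (hn : Poly n) (hz : Poly z) :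
    Poly fun O i => MP_6b6c7c_lc.side (T O i) (d O i) (n O i) (z O i) := by
  unfold MP_6b6c7c_lc.side
  exact Poly.condb (Poly.flg hT hd hn) (Poly.vis hT hd hz) (Poly.not (Poly.vis hT hd hz))

theorem Poly.tm {N n : Lang → ι → ℕ} (hN : Poly N) (hn : Poly n) :
    Poly fun O i => MP_6b6c7c_lc.tm (MP_6b6c7c_lc.pwt (N O i)) (n O i) := by
  unfold MP_6b6c7c_lc.tm
  exact Poly.pwt hN (Poly.half (Poly.half hn))

variable {N n : Lang → ι → ℕ} {K : Lang → ι → List Word}

theorem Poly.ansF {z : Lang → ι → Word} (hN : Poly N) (hn : Poly n) (hK : Poly K) (hz : Poly z) :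
    Poly fun O i => MP_6b6c7c_lc.ansF (MP_6b6c7c_lc.pwt (N O i)) (n O i) (K O i) (z O i) := by
  unfold MP_6b6c7c_lc.ansF
  exact Poly.and (Poly.side (Poly.tm hN hn) (Poly.fst (Poly.tri (Poly.length hK))) hn hz)
    (Poly.inA hN hK hz)

theorem Poly.dm (hN : Poly N) (hn : Poly n) (hK : Poly K) :
    Poly fun O i => MP_6b6c7c_lc.dm (MP_6b6c7c_lc.pwt (N O i)) (n O i) (K O i) := by
  have h := Poly.tri (Poly.length hK)
  unfold MP_6b6c7c_lc.dm
  exact Poly.condb (Poly.flg (Poly.tm hN hn) (Poly.fst h) hn) (Poly.fst (Poly.snd h))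
    (Poly.snd (Poly.snd h))

theorem Poly.b0 (hN : Poly N) (hn : Poly n) (hK : Poly K) :
    Poly fun O i => MP_6b6c7c_lc.b0 (MP_6b6c7c_lc.pwt (N O i)) (n O i) (K O i) := by
  have h : Poly fun _ (p : ℕ × (ℕ × List Word)) =>
      MP_6b6c7c_lc.b0 (MP_6b6c7c_lc.pwt p.1) p.2.1 p.2.2 := by
    unfold MP_6b6c7c_lc.b0
    apply_rules (maxDepth := 400) [Poly.id, Poly.fst, Poly.snd, Poly.getD, Poly.find?, Poly.range,
      Poly.not, Poly.side, Poly.tm, Poly.tri, Poly.length, Poly.wd, Poly.const]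
  exact comp h (pair hN (pair hn hK))

theorem Poly.outc (hN : Poly N) (hn : Poly n) (hK : Poly K) :
    Poly fun O i => MP_6b6c7c_lc.outc (MP_6b6c7c_lc.pwt (N O i)) (n O i) (K O i) := by
  unfold MP_6b6c7c_lc.outc
  exact Poly.simAcc (ans := fun O i z =>
      MP_6b6c7c_lc.ansF (MP_6b6c7c_lc.pwt (N O i)) (n O i) (K O i) z)
    (Poly.ansF (Poly.comp hN Poly.fst') (Poly.comp hn Poly.fst') (Poly.comp hK Poly.fst')
      Poly.snd') (Poly.dm hN hn hK)
    (Poly.wd hn (Poly.b0 hN hn hK)) (Poly.tm hN hn)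

theorem Poly.runS {s : Lang → ι → ℕ} (hN : Poly N) (hn : Poly n) (hK : Poly K) (hs : Poly s) :
    Poly fun O i => MP_6b6c7c_lc.simRun (MP_6b6c7c_lc.ansF (MP_6b6c7c_lc.pwt (N O i)) (n O i)
      (K O i)) (MP_6b6c7c_lc.dm (MP_6b6c7c_lc.pwt (N O i)) (n O i) (K O i))
      (MP_6b6c7c_lc.wd (n O i) (MP_6b6c7c_lc.b0 (MP_6b6c7c_lc.pwt (N O i)) (n O i) (K O i)))
      (s O i) :=
  Poly.simRun (ans := fun O i z =>
      MP_6b6c7c_lc.ansF (MP_6b6c7c_lc.pwt (N O i)) (n O i) (K O i) z)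
    (Poly.ansF (Poly.comp hN Poly.fst') (Poly.comp hn Poly.fst') (Poly.comp hK Poly.fst')
      Poly.snd') (Poly.dm hN hn hK)
    (Poly.wd hn (Poly.b0 hN hn hK)) hs

theorem Poly.hit {κ : Lang → ι → Word} (hN : Poly N) (hn : Poly n) (hK : Poly K) (hκ : Poly κ) :
    Poly fun O i => MP_6b6c7c_lc.hit (MP_6b6c7c_lc.pwt (N O i)) (n O i) (K O i) (κ O i) := by
  have h : Poly fun _ (p : (ℕ × (ℕ × List Word)) × Word) =>
      MP_6b6c7c_lc.hit (MP_6b6c7c_lc.pwt p.1.1) p.1.2.1 p.1.2.2 p.2 := by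
    unfold MP_6b6c7c_lc.hit
    apply_rules (maxDepth := 400) [Poly.id, Poly.fst, Poly.snd, Poly.any, Poly.range,
      Poly.tm, Poly.eq, Poly.take, Poly.tail, Poly.oword, Poly.runS]
  exact comp h (pair (pair hN (pair hn hK)) hκ)

theorem Poly.valid {κ : Lang → ι → Word} (hN : Poly N) (hn : Poly n) (hK : Poly K) (hκ : Poly κ) :
    Poly fun O i => MP_6b6c7c_lc.valid (MP_6b6c7c_lc.pwt (N O i)) (n O i) (K O i) (κ O i) := by
  have h : Poly fun _ (p : (ℕ × (ℕ × List Word)) × Word) =>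
      MP_6b6c7c_lc.valid (MP_6b6c7c_lc.pwt p.1.1) p.1.2.1 p.1.2.2 p.2 := by
    unfold MP_6b6c7c_lc.valid
    apply_rules (maxDepth := 400) [Poly.id, Poly.fst, Poly.snd, Poly.and, Poly.or, Poly.not,
      Poly.all, Poly.range, Poly.side, Poly.tm, Poly.tri, Poly.length, Poly.wd, Poly.eq,
      Poly.getD, Poly.get?, Poly.b0, Poly.outc, Poly.const]
  exact comp h (pair (pair hN (pair hn hK)) hκ)

theorem Poly.cands (hN : Poly N) (hn : Poly n) :
    Poly fun O i => MP_6b6c7c_lc.cands (MP_6b6c7c_lc.pwt (N O i)) (n O i) := by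
  have h : Poly fun _ (p : ℕ × ℕ) => MP_6b6c7c_lc.cands (MP_6b6c7c_lc.pwt p.1) p.2 := by
    unfold MP_6b6c7c_lc.cands
    apply_rules (maxDepth := 400) [Poly.id, Poly.fst, Poly.snd, Poly.map, Poly.range, Poly.pwt,
      Poly.testBit]
  exact comp h (pair hN hn)

theorem Poly.skey (hN : Poly N) (hn : Poly n) (hK : Poly K) :
    Poly fun O i => MP_6b6c7c_lc.skey (MP_6b6c7c_lc.pwt (N O i)) (n O i) (K O i) := by
  have h : Poly fun _ (p : ℕ × (ℕ × List Word)) =>
      MP_6b6c7c_lc.skey (MP_6b6c7c_lc.pwt p.1) p.2.1 p.2.2 := by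
    unfold MP_6b6c7c_lc.skey
    apply_rules (maxDepth := 400) [Poly.id, Poly.fst, Poly.snd, Poly.getD, Poly.find?, Poly.cands,
      Poly.and, Poly.not, Poly.valid, Poly.hit, Poly.replicate, Poly.const]
  exact comp h (pair hN (pair hn hK))

end PolyTime

end Pool.Agent.Lib.MP_6b6c7c_lc
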