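import Pool.Agent.Lib.MP_6b6c7c_lc.Comb

/-! # Polynomial-time functionals between encoded types -/

namespace Pool.Agent.Lib.MP_6b6c7c_lc

open Polynomial

/-! ## Lists as trees -/

theorem D.hd_cons (a b : D) : (D.cons a b).hd = a := rfl

theorem D.tl_cons (a b : D) : (D.cons a b).tl = b := rfl

def D.ofList (l : List D) : D := l.foldr D.cons D.nil

@[simp] theorem D.ofList_nil : D.ofList [] = D.nil := rfl

@[simp] theorem D.ofList_cons (a : D) (l : List D) : D.ofList (a :: l) = D.cons a (D.ofList l) :=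
  rfl

@[simp] theorem D.toList_ofList (l : List D) : (D.ofList l).toList = l := by
  induction l with
  | nil => rfl
  | cons a l ih => simp [D.toList, ih]

theorem D.ofList_toList (t : D) : D.ofList t.toList = t := by
  induction t with
  | nil => rfl
  | cons a b _ ih => simp [D.toList, ih]

theorem fold_cons_eq (F : D → D) (l s : List D) :
    fold (fun u => D.cons (F u.hd) u.tl) l (D.ofList s) = D.ofList ((l.map F).reverse ++ s) := by
  induction l generalizing s with
  | nil => simp [fold]
  | cons a l ih =>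
    have := ih (F a :: s)
    simp only [fold, List.foldl_cons, D.hd, D.tl] at this ⊢
    rw [← D.ofList_cons, this]
    simp

theorem size_ofList (l : List D) : (D.ofList l).size = (l.map fun a => a.size + 1).sum + 1 := by
  induction l with
  | nil => rfl
  | cons a l ih => simp [ih]; omega

theorem size_map_le {F : D → D} {T : ℕ[X]} (hT : ∀ a, (F a).size ≤ T.eval a.size) {t : D}
    {l : List D} (hl : l <+: t.toList) (f : List D → List D) (hf : ∀ l, (f l).Perm l) :
    (D.ofList (f (l.map F))).size ≤ t.size * (T.eval t.size + 1) + 1 := by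
  have h1 : ((f (l.map F)).map fun a => a.size + 1).sum = ((l.map F).map fun a => a.size + 1).sum :=
    ((hf _).map _).sum_eq
  rw [size_ofList, h1, List.map_map]
  have h2 : ((l.map ((fun a => a.size + 1) ∘ F))).sum ≤ l.length * (T.eval t.size + 1) := by
    rw [← List.length_map (f := (fun a => a.size + 1) ∘ F), ← smul_eq_mul]
    refine List.sum_le_card_nsmul _ _ ?_
    intro x hx
    rw [List.mem_map] at hx
    obtain ⟨a, ha, rfl⟩ := hx
    have h3 : a.size ≤ t.size := mem_toList_size (hl.subset ha)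
    have h4 := (hT a).trans (eval_mono T h3)
    simp only [Function.comp_apply]
    omega
  have h5 : l.length ≤ t.size := hl.length_le.trans (toList_length t)
  have h6 := Nat.mul_le_mul_right (T.eval t.size + 1) h5
  omega

namespace PT

theorem revMap {F : Lang → D → D} (hF : PT F) :
    PT fun O t => D.ofList ((t.toList.map (F O)).reverse) := by
  have hF' := hF
  obtain ⟨p, T, h1, h2⟩ := hF'
  have h3 : PT fun O u => D.cons (F O u.hd) u.tl := pair (comp hF hd) tl
  have h4 := PT.fold (P := fun _ t => D.cons t D.nil) h3 (pair PT.id (const _))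
    ⟨X * (T + 1) + 1, fun O t l₁ hl => by
      have e := fold_cons_eq (F O) l₁ []
      simp only [D.ofList_nil, List.append_nil] at e
      rw [D.hd_cons] at hl
      rw [D.tl_cons, e]
      simp only [eval_add, eval_mul, eval_X, eval_one]
      exact size_map_le (h2 O) hl List.reverse List.reverse_perm⟩
  have e : (fun O t => D.ofList ((t.toList.map (F O)).reverse)) = fun O t =>
      MP_6b6c7c_lc.fold ((fun O u => D.cons (F O u.hd) u.tl) O) (D.cons t D.nil).hd.toList
        (D.cons t D.nil).tl := by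
    funext O t
    have e := fold_cons_eq (F O) t.toList []
    simp only [D.ofList_nil, List.append_nil] at e
    rw [D.hd_cons, D.tl_cons, e]
  rw [e]
  exact h4

theorem map {F : Lang → D → D} (hF : PT F) :
    PT fun O t => D.ofList (t.toList.map (F O)) := by
  have h1 := comp (revMap (F := fun _ t => t) PT.id) (revMap hF)
  have e : (fun O (t : D) => D.ofList (t.toList.map (F O))) = fun O t =>
      D.ofList (((D.ofList ((t.toList.map (F O)).reverse)).toList.map fun t => t).reverse) := by
    funext O t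
    rw [D.toList_ofList, List.map_id', List.reverse_reverse]
  rw [e]
  exact h1

end PT

/-! ## Encoded types -/

/-- Types encoded by trees, with a total polynomial-time decoding. -/
class Enc (α : Type) where
  enc : α → D
  dec : D → α
  dec_enc : ∀ a, dec (enc a) = a
  norm : PT fun _ t => enc (dec t)

export Enc (enc dec)

variable {α β γ δ ι σ : Type}

theorem enc_inj [Enc α] {a b : α} (h : enc a = enc b) : a = b := by
  rw [← Enc.dec_enc a, h, Enc.dec_enc]

/-- Size of an encoded object. -/
def sz [Enc α] (a : α) : ℕ := (enc a).size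

instance : Enc D where
  enc := fun t => t
  dec := fun t => t
  dec_enc := fun _ => rfl
  norm := PT.id

instance : Enc Bool where
  enc := D.ofBool
  dec := fun t => !decide (t = D.nil)
  dec_enc := by intro a; cases a <;> simp [D.ofBool, D.one]
  norm := by
    have h := PT.cond PT.id (PT.const D.one) (PT.const D.nil)
    have e : (fun (_ : Lang) (t : D) => D.ofBool (!decide (t = D.nil))) =
        fun _ t => if t = D.nil then D.nil else D.one := by
      funext _ t
      by_cases ht : t = D.nil <;> simp [ht, D.ofBool]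
    rw [e]
    exact h

instance [Enc α] [Enc β] : Enc (α × β) where
  enc := fun x => D.cons (enc x.1) (enc x.2)
  dec := fun t => (dec t.hd, dec t.tl)
  dec_enc := by intro x; simp [D.hd, D.tl, Enc.dec_enc]
  norm := PT.pair (PT.comp (Enc.norm (α := α)) PT.hd) (PT.comp (Enc.norm (α := β)) PT.tl)

instance [Enc α] : Enc (Option α) where
  enc := fun x => x.elim D.nil fun a => D.cons (enc a) D.nil
  dec := fun t => if t = D.nil then none else some (dec t.hd)
  dec_enc := by
    intro x
    cases x <;> simp [D.hd, Enc.dec_enc]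
  norm := by
    have h := PT.cond PT.id (PT.pair (PT.comp (Enc.norm (α := α)) PT.hd) (PT.const D.nil))
      (PT.const D.nil)
    have e : (fun (_ : Lang) (t : D) => ((if t = D.nil then none else some (dec t.hd) :
        Option α)).elim D.nil fun a => D.cons (enc a) D.nil) =
        fun _ t => if t = D.nil then D.nil else D.cons (enc (dec t.hd : α)) D.nil := by
      funext _ t
      by_cases ht : t = D.nil <;> simp [ht]
    rw [e]
    exact h

instance [Enc α] : Enc (List α) where
  enc := fun l => D.ofList (l.map enc)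
  dec := fun t => t.toList.map dec
  dec_enc := by
    intro l
    simp [Function.comp_def, Enc.dec_enc]
  norm := by
    have h := PT.map (Enc.norm (α := α))
    simpa [Function.comp_def] using h

instance : Enc ℕ where
  enc := fun n => D.ofList (List.replicate n D.nil)
  dec := fun t => t.toList.length
  dec_enc := by intro n; simp
  norm := by
    have h := PT.map (PT.const D.nil)
    simpa using h

instance : Enc Unit where
  enc := fun _ => D.nil
  dec := fun _ => ()
  dec_enc := fun _ => rfl
  norm := PT.const D.nil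

theorem enc_pair [Enc α] [Enc β] (a : α) (b : β) : enc (a, b) = D.cons (enc a) (enc b) := rfl

theorem enc_nil [Enc α] : enc ([] : List α) = D.nil := rfl

theorem enc_cons [Enc α] (a : α) (l : List α) : enc (a :: l) = D.cons (enc a) (enc l) := rfl

theorem sz_pair [Enc α] [Enc β] (a : α) (b : β) : sz (a, b) = sz a + sz b + 1 := by
  simp [sz, enc_pair]

theorem sz_cons [Enc α] (a : α) (l : List α) : sz (a :: l) = sz a + sz l + 1 := by
  simp [sz, enc_cons]

theorem sz_nil [Enc α] : sz ([] : List α) = 1 := rfl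

theorem sz_pos [Enc α] (a : α) : 0 < sz a := D.size_pos _

theorem enc_word (w : Word) : enc w = D.ofWord w := by
  induction w with
  | nil => rfl
  | cons x w ih => rw [enc_cons, ih]; rfl

theorem enc_none [Enc α] : enc (none : Option α) = D.nil := rfl

theorem enc_some [Enc α] (a : α) : enc (some a) = D.cons (enc a) D.nil := rfl

theorem enc_zero : enc (0 : ℕ) = D.nil := rfl

theorem enc_succ (n : ℕ) : enc (n + 1) = D.cons D.nil (enc n) := rfl

theorem sz_nat (n : ℕ) : sz n = 2 * n + 1 := by
  induction n with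
  | zero => rfl
  | succ n ih => rw [sz, enc_succ, D.size_cons]; rw [sz] at ih; simp; omega

/-- Polynomial-time functionals between encoded types. -/
structure Poly [Enc α] [Enc β] (f : Lang → α → β) : Prop where
  out : ∃ F, PT F ∧ ∀ O a, F O (enc a) = enc (f O a)

namespace Poly

variable [Enc α] [Enc β] [Enc γ] [Enc δ] [Enc ι] [Enc σ]

theorem size_le {f : Lang → α → β} (hf : Poly f) :
    ∃ T : ℕ[X], ∀ O a, sz (f O a) ≤ T.eval (sz a) := by
  obtain ⟨F, ⟨p, T, h1, h2⟩, h3⟩ := hf
  exact ⟨T, fun O a => by rw [sz, ← h3]; exact h2 O _⟩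

theorem id : Poly fun _ (a : α) => a := ⟨_, PT.id, fun _ _ => rfl⟩

theorem const (b : β) : Poly fun _ (_ : α) => b := ⟨_, PT.const (enc b), fun _ _ => rfl⟩

theorem comp {g : Lang → β → γ} {f : Lang → α → β} (hg : Poly g) (hf : Poly f) :
    Poly fun O a => g O (f O a) := by
  obtain ⟨F, hF, h1⟩ := hf
  obtain ⟨G, hG, h2⟩ := hg
  exact ⟨_, PT.comp hG hF, fun O a => by rw [h1, h2]⟩

theorem pair {f : Lang → α → β} {g : Lang → α → γ} (hf : Poly f) (hg : Poly g) :
    Poly fun O a => (f O a, g O a) := by
  obtain ⟨F, hF, h1⟩ := hf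
  obtain ⟨G, hG, h2⟩ := hg
  exact ⟨_, PT.pair hF hG, fun O a => by rw [h1, h2, enc_pair]⟩

theorem fst {f : Lang → α → β × γ} (hf : Poly f) : Poly fun O a => (f O a).1 := by
  obtain ⟨F, hF, h1⟩ := hf
  exact ⟨_, PT.comp PT.hd hF, fun O a => by rw [h1]; rfl⟩

theorem snd {f : Lang → α → β × γ} (hf : Poly f) : Poly fun O a => (f O a).2 := by
  obtain ⟨F, hF, h1⟩ := hf
  exact ⟨_, PT.comp PT.tl hF, fun O a => by rw [h1]; rfl⟩

theorem cond {b : Lang → α → Bool} {f g : Lang → α → β} (hb : Poly b) (hf : Poly f)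
    (hg : Poly g) : Poly fun O a => if b O a = true then f O a else g O a := by
  obtain ⟨B, hB, h0⟩ := hb
  obtain ⟨F, hF, h1⟩ := hf
  obtain ⟨G, hG, h2⟩ := hg
  refine ⟨_, PT.cond hB hF hG, fun O a => ?_⟩
  rw [h0, h1, h2]
  cases h : b O a
  · rw [if_pos (show enc false = D.nil from rfl), if_neg Bool.false_ne_true]
  · rw [if_neg (show enc true ≠ D.nil from D.noConfusion), if_pos rfl]

theorem eq [DecidableEq β] {f g : Lang → α → β} (hf : Poly f) (hg : Poly g) :
    Poly fun O a => decide (f O a = g O a) := by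
  obtain ⟨F, hF, h1⟩ := hf
  obtain ⟨G, hG, h2⟩ := hg
  refine ⟨_, PT.comp PT.eqHT (PT.pair hF hG), fun O a => ?_⟩
  rw [h1, h2]
  show D.ofBool _ = D.ofBool _
  congr 1
  refine decide_eq_decide.2 ?_
  rw [D.hd_cons, D.tl_cons]
  exact ⟨enc_inj, fun h => by rw [h]⟩

theorem not {b : Lang → α → Bool} (hb : Poly b) : Poly fun O a => !(b O a) := by
  have := cond hb (const (α := α) false) (const true)
  refine (show (fun O a => !(b O a)) = _ from ?_) ▸ this
  funext O a
  cases b O a <;> rfl

theorem and {b c : Lang → α → Bool} (hb : Poly b) (hc : Poly c) :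
    Poly fun O a => (b O a && c O a) := by
  have := cond hb hc (const (α := α) false)
  refine (show (fun O a => (b O a && c O a)) = _ from ?_) ▸ this
  funext O a
  cases b O a <;> rfl

theorem or {b c : Lang → α → Bool} (hb : Poly b) (hc : Poly c) :
    Poly fun O a => (b O a || c O a) := by
  have := cond hb (const (α := α) true) hc
  refine (show (fun O a => (b O a || c O a)) = _ from ?_) ▸ this
  funext O a
  cases b O a <;> rfl

theorem some {f : Lang → α → β} (hf : Poly f) : Poly fun O a => Option.some (f O a) := by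
  obtain ⟨F, hF, h1⟩ := hf
  exact ⟨_, PT.pair hF (PT.const D.nil), fun O a => by rw [h1, enc_some]⟩

theorem optElim {o : Lang → α → Option β} {f : Lang → α → γ} {g : Lang → α × β → γ}
    (ho : Poly o) (hf : Poly f) (hg : Poly g) :
    Poly fun O a => (o O a).elim (f O a) fun b => g O (a, b) := by
  obtain ⟨P, hP, h0⟩ := ho
  obtain ⟨F, hF, h1⟩ := hf
  obtain ⟨G, hG, h2⟩ := hg
  refine ⟨_, PT.cond hP (PT.comp hG (PT.pair PT.id (PT.comp PT.hd hP))) hF, fun O a => ?_⟩
  rw [h0, h1]
  cases h : o O a with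
  | none => rw [if_pos enc_none]; rfl
  | some b =>
    rw [if_neg (show Enc.enc (Option.some b) ≠ D.nil from D.noConfusion)]
    rw [enc_some, D.hd_cons, Option.elim_some, ← enc_pair, h2]

theorem cons {f : Lang → α → β} {l : Lang → α → List β} (hf : Poly f) (hl : Poly l) :
    Poly fun O a => f O a :: l O a := by
  obtain ⟨F, hF, h1⟩ := hf
  obtain ⟨G, hG, h2⟩ := hl
  exact ⟨_, PT.pair hF hG, fun O a => by rw [h1, h2, enc_cons]⟩

theorem tail {l : Lang → α → List β} (hl : Poly l) : Poly fun O a => (l O a).tail := by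
  obtain ⟨G, hG, h2⟩ := hl
  refine ⟨_, PT.comp PT.tl hG, fun O a => ?_⟩
  rw [h2]
  cases l O a with
  | nil => rfl
  | cons x l => rfl

theorem head? {l : Lang → α → List β} (hl : Poly l) : Poly fun O a => (l O a).head? := by
  obtain ⟨G, hG, h2⟩ := hl
  refine ⟨_, PT.cond hG (PT.pair (PT.comp PT.hd hG) (PT.const D.nil)) (PT.const D.nil),
    fun O a => ?_⟩
  rw [h2]
  cases l O a with
  | nil => rfl
  | cons x l =>
    rw [if_neg (by simp [enc_cons])]
    rfl

theorem succ {f : Lang → α → ℕ} (hf : Poly f) : Poly fun O a => f O a + 1 := by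
  obtain ⟨F, hF, h1⟩ := hf
  exact ⟨_, PT.pair (PT.const D.nil) hF, fun O a => by rw [h1, enc_succ]⟩

theorem pred {f : Lang → α → ℕ} (hf : Poly f) : Poly fun O a => f O a - 1 := by
  obtain ⟨F, hF, h1⟩ := hf
  refine ⟨_, PT.comp PT.tl hF, fun O a => ?_⟩
  rw [h1]
  cases f O a with
  | zero => rfl
  | succ n => rfl

open Classical in
theorem ask {f : Lang → α → Word} (hf : Poly f) : Poly fun O a => decide (f O a ∈ O) := by
  obtain ⟨F, hF, h1⟩ := hf
  refine ⟨_, PT.comp PT.ask hF, fun O a => ?_⟩
  have h2 : ∀ w : Word, (enc w).word = w := by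
    intro w
    rw [enc_word]
    induction w with
    | nil => rfl
    | cons x w ih =>
      rw [D.ofWord, D.word, ih]
      cases x <;> simp [D.ofBool, D.one]
  rw [h1, h2]
  rfl

/-- Total decoding. -/
theorem dec {f : Lang → α → D} (hf : Poly f) : Poly fun O a => (Enc.dec (f O a) : β) := by
  obtain ⟨F, hF, h1⟩ := hf
  exact ⟨_, PT.comp (Enc.norm (α := β)) hF, fun O a => by rw [h1]; rfl⟩

/-- Encoding. -/
theorem enc {f : Lang → α → β} (hf : Poly f) : Poly fun O a => Enc.enc (f O a) := by
  obtain ⟨F, hF, h1⟩ := hf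
  exact ⟨_, hF, fun O a => by rw [h1]; rfl⟩

/-- Naturals as lists of units. -/
theorem units {f : Lang → α → ℕ} (hf : Poly f) :
    Poly fun O a => List.replicate (f O a) () := by
  obtain ⟨F, hF, h1⟩ := hf
  refine ⟨_, hF, fun O a => ?_⟩
  rw [h1]
  simp [Enc.enc]

theorem foldl {f : Lang → ι × (σ × α) → σ} {s : Lang → ι → σ} {l : Lang → ι → List α}
    (hf : Poly f) (hs : Poly s) (hl : Poly l)
    (hS : ∃ S : ℕ[X], ∀ O i l₁, l₁ <+: l O i →
      sz (l₁.foldl (fun s a => f O (i, (s, a))) (s O i)) ≤ S.eval (sz i)) :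
    Poly fun O i => (l O i).foldl (fun s a => f O (i, (s, a))) (s O i) := by
  obtain ⟨F, hF, h1⟩ := hf
  obtain ⟨G, hG, h2⟩ := hs
  obtain ⟨L, hL, h3⟩ := hl
  obtain ⟨S, hS⟩ := hS
  obtain ⟨q, U, h5, h6⟩ := (Enc.norm (α := ι))
  set N : Lang → D → D := fun _ t => Enc.enc (Enc.dec t : ι) with hN
  have hNP : PT N := Enc.norm (α := ι)
  set P : Lang → D → D := fun O t => D.cons (L O (N O t)) (D.cons (N O t) (G O (N O t))) with hP
  set F' : Lang → D → D := fun O u =>
    D.cons u.tl.hd (F O (D.cons u.tl.hd (D.cons u.tl.tl u.hd))) with hF'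
  have hPP : PT P := PT.pair (PT.comp hL hNP) (PT.pair hNP (PT.comp hG hNP))
  have hFP : PT F' := by
    have a1 : PT fun _ u => u.tl.hd := PT.comp PT.hd PT.tl
    have a2 : PT fun _ u => u.tl.tl := PT.comp PT.tl PT.tl
    exact PT.pair a1 (PT.comp hF (PT.pair a1 (PT.pair a2 PT.hd)))
  have key : ∀ (O : Lang) (i : ι) (l : List α) (s : σ),
      MP_6b6c7c_lc.fold (F' O) (l.map Enc.enc) (D.cons (Enc.enc i) (Enc.enc s)) =
        D.cons (Enc.enc i) (Enc.enc (l.foldl (fun s a => f O (i, (s, a))) s)) := by
    intro O i l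
    induction l with
    | nil => intro s; rfl
    | cons a l ih =>
      intro s
      have e : F' O (D.cons (Enc.enc a) (D.cons (Enc.enc i) (Enc.enc s))) =
          D.cons (Enc.enc i) (Enc.enc (f O (i, (s, a)))) := by
        rw [hF']
        simp only [D.hd, D.tl]
        rw [← h1]
        rfl
      have := ih (f O (i, (s, a)))
      rw [MP_6b6c7c_lc.fold] at this ⊢
      rw [List.map_cons, List.foldl_cons, e, this, List.foldl_cons]
  have hfold := PT.fold hFP hPP ⟨U + S.comp U + 1, fun O t l₁ hl₁ => ?_⟩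
  · refine ⟨_, PT.comp PT.tl hfold, fun O i => ?_⟩
    rw [hP]
    simp only [D.hd, D.tl]
    have e1 : N O (Enc.enc i) = Enc.enc i := by rw [hN]; simp only [Enc.dec_enc]
    rw [e1, h2, h3]
    have e2 : (Enc.enc (l O i)).toList = (l O i).map Enc.enc := D.toList_ofList _
    rw [e2, key]
  · have e1 : N O t = Enc.enc (Enc.dec t : ι) := rfl
    have e2 : (Enc.enc (l O (Enc.dec t : ι))).toList = (l O (Enc.dec t : ι)).map Enc.enc :=
      D.toList_ofList _
    have e3 : (P O t).hd.toList = (l O (Enc.dec t : ι)).map Enc.enc := by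
      rw [hP]; simp only [D.hd]; rw [e1, h3, e2]
    have e4 : (P O t).tl = D.cons (Enc.enc (Enc.dec t : ι)) (Enc.enc (s O (Enc.dec t : ι))) := by
      rw [hP]; simp only [D.tl]; rw [e1, h2]
    rw [e3] at hl₁
    obtain ⟨l₂, hl₂, rfl⟩ : ∃ l₂, l₂ <+: l O (Enc.dec t : ι) ∧ l₁ = l₂.map Enc.enc := by
      obtain ⟨r, hr⟩ := hl₁
      obtain ⟨l₂, r₂, hh, rfl, rfl⟩ := List.map_eq_append_iff.1 hr.symm
      exact ⟨l₂, ⟨r₂, hh.symm⟩, rfl⟩
    rw [e4, key, D.size_cons]
    have h7 := hS O (Enc.dec t : ι) l₂ hl₂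
    have h8 : sz (Enc.dec t : ι) ≤ U.eval t.size := h6 O t
    have h9 := eval_mono S h8
    simp only [sz] at h7 h8 h9
    simp only [eval_add, eval_comp, eval_one]
    omega

theorem sz_le_of_mem {a : α} {l : List α} (h : a ∈ l) : sz a ≤ sz l := by
  refine mem_toList_size ?_
  have e : (Enc.enc l).toList = l.map Enc.enc := D.toList_ofList _
  rw [e]
  exact List.mem_map_of_mem h

theorem length_le_sz (l : List α) : l.length ≤ sz l := by
  have e : (Enc.enc l).toList = l.map Enc.enc := D.toList_ofList _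
  have := toList_length (Enc.enc l)
  rw [e, List.length_map] at this
  exact this

/-- Fold in which every step increases the size by a bounded amount. -/
theorem foldlAdd {f : Lang → ι × (σ × α) → σ} {s : Lang → ι → σ} {l : Lang → ι → List α}
    (hf : Poly f) (hs : Poly s) (hl : Poly l)
    (hS : ∃ S : ℕ[X], ∀ O i s a, sz (f O (i, (s, a))) ≤ sz s + S.eval (sz i + sz a)) :
    Poly fun O i => (l O i).foldl (fun s a => f O (i, (s, a))) (s O i) := by
  obtain ⟨S, hS⟩ := hS
  obtain ⟨T, hT⟩ := hs.size_le
  obtain ⟨U, hU⟩ := hl.size_le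
  refine foldl hf hs hl ⟨T + U * S.comp (X + U), fun O i l₁ hl₁ => ?_⟩
  have key : ∀ (l₁ : List α), (∀ a ∈ l₁, sz a ≤ U.eval (sz i)) → ∀ s₁ : σ,
      sz (l₁.foldl (fun s a => f O (i, (s, a))) s₁) ≤
        sz s₁ + l₁.length * S.eval (sz i + U.eval (sz i)) := by
    intro l₁
    induction l₁ with
    | nil => intro _ s₁; simp
    | cons a l₁ ih =>
      intro h s₁
      have h1 := ih (fun a ha => h a (List.mem_cons_of_mem _ ha)) (f O (i, (s₁, a)))
      have h2 := hS O i s₁ a
      have h3 := eval_mono S (Nat.add_le_add_left (h a List.mem_cons_self) (sz i))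
      simp only [List.foldl_cons, List.length_cons, Nat.add_mul, one_mul]
      omega
  have h1 := key l₁ (fun a ha => (sz_le_of_mem (hl₁.subset ha)).trans (hU O i)) (s O i)
  have h2 := hT O i
  have h3 : l₁.length ≤ U.eval (sz i) :=
    hl₁.length_le.trans ((length_le_sz _).trans (hU O i))
  have h4 := Nat.mul_le_mul_right (S.eval (sz i + U.eval (sz i))) h3
  simp only [eval_add, eval_mul, eval_comp, eval_X]
  omega

end Poly

end Pool.Agent.Lib.MP_6b6c7c_lc
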