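import Pool.Agent.Lib.MP_6b6c7c_lc.Sim

/-! # Descriptions of machines, and correctness of the simulation -/

namespace Pool.Agent.Lib.MP_6b6c7c_lc

/-- Description of an instruction. -/
noncomputable def insD {m n : ℕ} : Instr m n → InsD
  | .act δ => (0, ((0, 0), (Finset.univ : Finset (Fin m → Sym)).toList.map fun v =>
      (List.ofFn v, (((δ v).1 : ℕ), List.ofFn fun i => (((δ v).2 i).1, moveD ((δ v).2 i).2)))))
  | .query yes no => (1, (((yes : ℕ), (no : ℕ)), []))
  | .accept => (2, ((0, 0), []))
  | .reject => (3, ((0, 0), []))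

/-- Description of a machine. -/
noncomputable def descOf (M : OTM) : Desc :=
  ((M.k + 1, (M.start : ℕ)), List.ofFn fun s => insD (M.prog s))

/-- Representation of a configuration. -/
def Rep (M : OTM) (c : M.Cfg) (e : CfgD) : Prop :=
  ∃ tp : Fin (M.k + 2) → TpD, (∀ i, tapeOf (tp i) = c.tape i) ∧ e = ((c.state : ℕ), List.ofFn tp)

theorem tapeOf_word (x : Word) : tapeOf ([], x.map some) = Tape.ofWord x := by
  funext i
  by_cases h : 0 ≤ i
  · simp only [tapeOf, Tape.ofWord, h, if_true, List.getElem?_map]
    rcases x[i.toNat]? with _ | b <;> rfl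
  · simp [tapeOf, Tape.ofWord, h]

theorem rep_init (M : OTM) (x : Word) : Rep M (M.init x) (simInit (descOf M) x) := by
  refine ⟨fun i => if i = 0 then ([], x.map some) else ([], []), fun i => ?_, ?_⟩
  · by_cases h : i = 0
    · simp only [h, if_true, OTM.init, tapeOf_word]
    · simp only [h, if_false, OTM.init]
      exact tapeOf_word []
  · simp only [simInit, descOf, OTM.init]
    rw [List.ofFn_succ]
    congr 1
    simp only [if_true]
    congr 1
    rw [← List.ofFn_const]
    congr 1

theorem prog_get (M : OTM) (s : Fin M.n) : (descOf M).2[(s : ℕ)]? = some (insD (M.prog s)) := by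
  simp [descOf]

theorem zip_ofFn {α β γ : Type} {m : ℕ} (f : Fin m → α) (g : Fin m → β) (h : α → β → γ) :
    ((List.ofFn f).zip (List.ofFn g)).map (fun p => h p.1 p.2) = List.ofFn fun i => h (f i) (g i) := by
  apply List.ext_getElem
  · simp
  · intro i h1 h2
    simp

theorem find_rows {m n : ℕ} (δ : (Fin m → Sym) → Fin n × (Fin m → Sym × Move)) (v : Fin m → Sym)
    (p : RowD → Bool) (hp : ∀ row, p row = true ↔ row.1 = List.ofFn v) :
    ((insD (.act δ)).2.2.find? p) = some (List.ofFn v, (((δ v).1 : ℕ),
      List.ofFn fun i => (((δ v).2 i).1, moveD ((δ v).2 i).2))) := by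
  set g : (Fin m → Sym) → RowD := fun v => (List.ofFn v, (((δ v).1 : ℕ),
      List.ofFn fun i => (((δ v).2 i).1, moveD ((δ v).2 i).2))) with hg
  have h1 : (insD (.act δ)).2.2 = (Finset.univ : Finset (Fin m → Sym)).toList.map g := rfl
  rw [h1]
  have h2 : ((Finset.univ : Finset (Fin m → Sym)).toList.map g).find? p ≠ none := by
    rw [Ne, List.find?_eq_none]
    push Not
    refine ⟨g v, List.mem_map_of_mem (Finset.mem_toList.2 (Finset.mem_univ v)), ?_⟩
    rw [hp]
  obtain ⟨r, hr⟩ := Option.ne_none_iff_exists'.1 h2
  rw [hr]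
  have h3 := List.mem_of_find?_eq_some hr
  have h4 := List.find?_some hr
  rw [hp] at h4
  rw [List.mem_map] at h3
  obtain ⟨w, -, rfl⟩ := h3
  have h5 : w = v := List.ofFn_injective h4
  rw [h5]

theorem oword_ofFn {k : ℕ} (s : ℕ) (tp : Fin (k + 2) → TpD) :
    oword (s, List.ofFn tp) = wordOf (tp 1).2 := by
  have : (List.ofFn tp)[1]? = some (tp 1) := by
    rw [List.getElem?_ofFn]
    simp
  rw [oword]
  simp only [this, Option.getD_some]

theorem rep_step (M : OTM) (O : Lang) (ans : Word → Bool) (c : M.Cfg) (e : CfgD) (h : Rep M c e)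
    (ha : ans (oword e) = true ↔ oword e ∈ O) : Rep M (M.step O c) (simStep ans (descOf M) e) := by
  obtain ⟨tp, h1, rfl⟩ := h
  rw [simStep]
  dsimp only
  rw [prog_get, Option.elim_some]
  rcases hp : M.prog c.state with δ | ⟨yes, no⟩ | _ | _
  · have hk : (insD (Instr.act δ : Instr (M.k + 2) M.n)).1 = 0 := rfl
    have hv : (List.ofFn tp).map scan = List.ofFn fun i => c.tape i 0 := by
      rw [List.map_ofFn]
      congr 1
      funext i
      rw [← h1, tapeOf_zero]
      rfl
    have hc : decide ((insD (Instr.act δ : Instr (M.k + 2) M.n)).1 = 0) = true := by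
      rw [hk]; rfl
    rw [hc, cond_true, find_rows δ (fun i => c.tape i 0) _ (by
      intro row
      rw [decide_eq_true_iff, hv]), Option.elim_some]
    refine ⟨fun i => actD (((δ fun i => c.tape i 0).2 i).1, moveD ((δ fun i => c.tape i 0).2 i).2)
      (tp i), fun i => ?_, ?_⟩
    · rw [tapeOf_act, h1]
      simp only [OTM.step, hp]
    · simp only [OTM.step, hp, rowD]
      rw [zip_ofFn]
  · have hc : decide ((insD (Instr.query yes no : Instr (M.k + 2) M.n)).1 = 0) = false := rfl
    have hc' : decide ((insD (Instr.query yes no : Instr (M.k + 2) M.n)).1 = 1) = true := rfl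
    rw [hc, hc', cond_false, cond_true]
    have hO : (∃ w ∈ O, (c.tape 1).Holds w) ↔ oword ((c.state : ℕ), List.ofFn tp) ∈ O := by
      rw [oword_ofFn, ← h1]
      constructor
      · rintro ⟨w, hw, hh⟩
        rw [← (holds_wordOf (tp 1).1 (tp 1).2 w).1 hh]
        exact hw
      · intro hw
        exact ⟨_, hw, (holds_wordOf (tp 1).1 (tp 1).2 _).2 rfl⟩
    by_cases hq : ∃ w ∈ O, (c.tape 1).Holds w
    · have h2 := ha.2 (hO.1 hq)
      rw [h2, cond_true]
      refine ⟨tp, fun i => ?_, ?_⟩
      · simp only [OTM.step, hp, h1]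
      · simp only [OTM.step, hp, hq, if_true]
        rfl
    · have h2 : ans (oword ((c.state : ℕ), List.ofFn tp)) = false := by
        rw [← Bool.not_eq_true, ha, ← hO]
        exact hq
      rw [h2, cond_false]
      refine ⟨tp, fun i => ?_, ?_⟩
      · simp only [OTM.step, hp, h1]
      · simp only [OTM.step, hp, hq, if_false]
        rfl
  · have hc : decide ((insD (Instr.accept : Instr (M.k + 2) M.n)).1 = 0) = false := rfl
    have hc' : decide ((insD (Instr.accept : Instr (M.k + 2) M.n)).1 = 1) = false := rfl
    rw [hc, hc', cond_false, cond_false]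
    have : M.step O c = c := by simp only [OTM.step, hp]
    rw [this]
    exact ⟨tp, h1, rfl⟩
  · have hc : decide ((insD (Instr.reject : Instr (M.k + 2) M.n)).1 = 0) = false := rfl
    have hc' : decide ((insD (Instr.reject : Instr (M.k + 2) M.n)).1 = 1) = false := rfl
    rw [hc, hc', cond_false, cond_false]
    have : M.step O c = c := by simp only [OTM.step, hp]
    rw [this]
    exact ⟨tp, h1, rfl⟩

theorem rep_after (M : OTM) (O : Lang) (ans : Word → Bool) (x : Word) (T : ℕ)
    (h : ∀ s < T, (ans (oword (simRun ans (descOf M) x s)) = true ↔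
      oword (simRun ans (descOf M) x s) ∈ O)) :
    Rep M (M.after O x T) (simRun ans (descOf M) x T) := by
  induction T with
  | zero => exact rep_init M x
  | succ T ih =>
    rw [OTM.after, simRun, Function.iterate_succ_apply', Function.iterate_succ_apply']
    exact rep_step M O ans _ _ (ih fun s hs => h s (by omega)) (h T (by omega))

theorem rep_acc (M : OTM) (c : M.Cfg) (e : CfgD) (h : Rep M c e) :
    accD (descOf M) e = true ↔ M.prog c.state = .accept := by
  obtain ⟨tp, -, rfl⟩ := h
  rw [accD]
  dsimp only
  rw [prog_get, Option.elim_some, decide_eq_true_iff]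
  rcases M.prog c.state with δ | ⟨yes, no⟩ | _ | _ <;> simp [insD]

theorem simAcc_iff (M : OTM) (O : Lang) (ans : Word → Bool) (x : Word) (T : ℕ)
    (h : ∀ s < T, (ans (oword (simRun ans (descOf M) x s)) = true ↔
      oword (simRun ans (descOf M) x s) ∈ O)) :
    simAcc ans (descOf M) x T = true ↔ M.Accepts O x T :=
  rep_acc M _ _ (rep_after M O ans x T h)

theorem simAcc_empty (M : OTM) (x : Word) (T : ℕ) :
    simAcc (fun _ => false) (descOf M) x T = true ↔ M.Accepts ∅ x T :=
  simAcc_iff M ∅ _ x T fun s _ => by simp

/-! ## Length of the oracle word -/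

def tlen (t : TpD) : ℕ := t.1.length + t.2.length

theorem tlen_actD (a : Sym × Sym) (t : TpD) : tlen (actD a t) ≤ tlen t + 2 := by
  obtain ⟨x, m⟩ := a
  obtain ⟨l, r⟩ := t
  rcases m with _ | _ | _ <;>
    simp only [actD, Option.elim_none, Option.elim_some, cond_true, cond_false, tlen,
      List.length_cons, List.length_tail] <;> omega

theorem tlen_step (ans : Word → Bool) (d : Desc) (c : CfgD) (N : ℕ)
    (h : ∀ t, c.2[1]? = some t → tlen t ≤ N) (t : TpD)
    (ht : (simStep ans d c).2[1]? = some t) : tlen t ≤ N + 2 := by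
  have h0 : c.2[1]? = some t → tlen t ≤ N + 2 := fun h1 => (h t h1).trans (by omega)
  revert ht
  unfold simStep
  rcases d.2[c.1]? with _ | ins
  · exact h0
  · simp only [Option.elim_some]
    cases decide (ins.1 = 0) with
    | true =>
      simp only [cond_true]
      have key : ∀ o : Option RowD, (o.elim c fun row => rowD row c).2[1]? = some t →
          tlen t ≤ N + 2 := by
        rintro (_ | ⟨v, st, as⟩)
        · exact h0
        · simp only [Option.elim_some, rowD, List.getElem?_map]
          rw [Option.map_eq_some_iff]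
          rintro ⟨⟨a, t'⟩, h1, rfl⟩
          rw [List.getElem?_zip_eq_some] at h1
          have := h t' h1.2
          have := tlen_actD a t'
          dsimp only
          omega
      exact key _
    | false =>
      simp only [cond_false]
      cases decide (ins.1 = 1) with
      | true =>
        simp only [cond_true]
        cases ans (oword c) <;> exact h0
      | false => exact h0

theorem tlen_run (ans : Word → Bool) (d : Desc) (x : Word) (s : ℕ) :
    ∀ t, (simRun ans d x s).2[1]? = some t → tlen t ≤ 2 * s := by
  induction s with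
  | zero =>
    intro t ht
    simp only [simRun, simInit, Function.iterate_zero, id, List.getElem?_cons_succ,
      List.getElem?_replicate] at ht
    split_ifs at ht
    rw [Option.some.injEq] at ht
    rw [← ht]
    simp [tlen]
  | succ s ih =>
    intro t ht
    rw [simRun, Function.iterate_succ_apply'] at ht
    have := tlen_step ans d _ _ ih t ht
    omega

theorem wordOf_length (l : List Sym) : (wordOf l).length ≤ l.length := by
  induction l with
  | nil => simp [wordOf]
  | cons a l ih =>
    cases a with
    | none => simp [wordOf]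
    | some b => simpa [wordOf] using ih

theorem oword_length (ans : Word → Bool) (d : Desc) (x : Word) (s : ℕ) :
    (oword (simRun ans d x s)).length ≤ 2 * s := by
  have h1 := tlen_run ans d x s
  rw [oword]
  rcases h : (simRun ans d x s).2[1]? with _ | t
  · simp [wordOf]
  · have h2 := h1 t h
    have h3 := wordOf_length t.2
    rw [tlen] at h2
    simp only [Option.getD_some]
    omega

end Pool.Agent.Lib.MP_6b6c7c_lc
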